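import Mathlib

/-!
# S4: additive reduction of `y^2 + y = x^3` when `3` does not divide the valuation of `3`
-/

set_option autoImplicit false

namespace Pool.Agent.Lib.MP_1a91b9_ntT.S4

open WeierstrassCurve IsDedekindDomain

/-- The curve `y^2 + y = x^3`. -/
def fermatCubic (R : Type*) [CommRing R] : WeierstrassCurve R := ⟨0, 0, 1, 0, 0⟩

theorem fermatCubic_map {R S : Type*} [CommRing R] [CommRing S] (f : R →+* S) :
    (fermatCubic R).map f = fermatCubic S := by
  ext <;> simp [fermatCubic]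

theorem fermatCubic_delta (R : Type*) [CommRing R] : (fermatCubic R).Δ = -27 := by
  simp only [fermatCubic, WeierstrassCurve.Δ, WeierstrassCurve.b₂, WeierstrassCurve.b₄,
    WeierstrassCurve.b₆, WeierstrassCurve.b₈]
  ring

theorem fermatCubic_c₄ (R : Type*) [CommRing R] : (fermatCubic R).c₄ = 0 := by
  simp only [fermatCubic, WeierstrassCurve.c₄, WeierstrassCurve.b₂, WeierstrassCurve.b₄]
  ring

theorem u4_b₆ {K : Type*} [Field K] (C : WeierstrassCurve.VariableChange K) :
    (C • fermatCubic K).b₆ = ((C.u⁻¹ : Kˣ) : K) ^ 6 * (1 + 4 * C.r ^ 3) := by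
  rw [WeierstrassCurve.variableChange_b₆]
  simp only [fermatCubic, WeierstrassCurve.b₂, WeierstrassCurve.b₄, WeierstrassCurve.b₆]
  ring

/-- The valuation argument. -/
theorem u4_val {K Γ : Type*} [Field K] [LinearOrderedCommGroupWithZero Γ] (v : Valuation K Γ)
    (h3 : v 3 < 1) (h : ∀ t : K, v t ^ 3 ≠ v 3) (y : Γ) (hy : y ^ 2 = v 3) (r : K)
    (hr : v (1 + 4 * r ^ 3) ≤ y ^ 3) : v 3 = 0 := by
  by_contra h30
  have hx0 : 0 < v 3 := zero_lt_iff.mpr h30
  have hy0 : y ≠ 0 := by rintro rfl; simp at hy; exact h30 hy.symm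
  have hypos : 0 < y := zero_lt_iff.mpr hy0
  have hy1 : y < 1 := by
    by_contra hc
    have := one_le_pow₀ (n := 2) (not_lt.mp hc)
    rw [hy] at this
    exact absurd h3 (not_lt.mpr this)
  have hy3 : y ^ 3 < v 3 := by
    rw [← hy, pow_succ]
    exact mul_lt_of_lt_one_right (pow_pos hypos 2) hy1
  have h4 : v 4 = 1 := by
    have e : (4 : K) = 1 + 3 := by norm_num
    rw [e]
    exact Valuation.map_one_add_of_lt v h3
  have h12 : v 12 = v 3 := by
    have e : (12 : K) = 4 * 3 := by norm_num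
    rw [e, map_mul, h4, one_mul]
  set t : K := r + 1 with ht
  have e1 : 1 + 4 * r ^ 3 = 4 * t ^ 3 - (12 * t ^ 2 - 12 * t + 3) := by
    rw [ht]; ring
  rw [e1] at hr
  have hvt3 : v (4 * t ^ 3) = v t ^ 3 := by rw [map_mul, h4, one_mul, map_pow]
  rcases lt_or_ge (v t) 1 with h1 | h1
  · -- `v t < 1`
    have ha : v (12 * t ^ 2 - 12 * t) < v 3 := by
      have e2 : 12 * t ^ 2 - 12 * t = 12 * t * (t - 1) := by ring
      rw [e2, map_mul, map_mul, h12]
      have h5 : v (t - 1) ≤ 1 := by
        refine (Valuation.map_sub v t 1).trans ?_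
        simp [h1.le]
      calc v 3 * v t * v (t - 1) ≤ v 3 * v t * 1 := by gcongr
        _ = v 3 * v t := mul_one _
        _ < v 3 := mul_lt_of_lt_one_right hx0 h1
    have hb : v (12 * t ^ 2 - 12 * t + 3) = v 3 := Valuation.map_add_eq_of_lt_right v ha
    have hc : v (4 * t ^ 3) = v 3 := by
      have e3 : 4 * t ^ 3 = (4 * t ^ 3 - (12 * t ^ 2 - 12 * t + 3)) + (12 * t ^ 2 - 12 * t + 3) := by
        ring
      rw [e3, Valuation.map_add_eq_of_lt_right v (by rw [hb]; exact hr.trans_lt hy3), hb]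
    exact h t (by rw [← hvt3, hc])
  · -- `1 ≤ v t`
    have hvt : 0 < v t := zero_lt_one.trans_le h1
    have h6 : v (12 * t ^ 2 - 12 * t + 3) < v t ^ 3 := by
      have e2 : 12 * t ^ 2 - 12 * t + 3 = 3 * (4 * t * (t - 1) + 1) := by ring
      rw [e2, map_mul]
      have h7 : v (4 * t * (t - 1) + 1) ≤ v t ^ 2 := by
        refine (Valuation.map_add v _ _).trans (max_le ?_ ?_)
        · rw [map_mul, map_mul, h4, one_mul, pow_two]
          gcongr
          refine (Valuation.map_sub v t 1).trans ?_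
          simp [h1]
        · rw [map_one]; exact one_le_pow₀ h1
      calc v 3 * v (4 * t * (t - 1) + 1) ≤ v 3 * v t ^ 2 := by gcongr
        _ < 1 * v t ^ 2 := by
          exact mul_lt_mul_of_pos_right h3 (pow_pos hvt 2)
        _ ≤ v t ^ 3 := by
          rw [one_mul]
          exact pow_le_pow_right₀ h1 (by norm_num)
    have h8 : v (4 * t ^ 3 - (12 * t ^ 2 - 12 * t + 3)) = v t ^ 3 := by
      rw [← hvt3]
      rw [← hvt3] at h6
      exact Valuation.map_sub_eq_of_lt_left v h6
    rw [h8] at hr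
    have h9 : (1 : Γ) ≤ v t ^ 3 := one_le_pow₀ h1
    exact absurd (h9.trans hr) (not_le.mpr (hy3.trans h3))

/-- Additive reduction at a prime above `3` whose ramification index is prime to `3`. -/
theorem localPolynomial_fermatCubic_three (R : Type*) [CommRing R] [IsDomain R]
    [IsDiscreteValuationRing R] {K : Type*} [Field K] [CharZero K] [Algebra R K]
    [IsFractionRing R K]
    (h3 : (IsDiscreteValuationRing.maximalIdeal R).valuation K 3 < 1)
    (h : ∀ t : K, (IsDiscreteValuationRing.maximalIdeal R).valuation K t ^ 3 ≠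
      (IsDiscreteValuationRing.maximalIdeal R).valuation K 3) :
    (fermatCubic K).localPolynomial R = 1 := by
  classical
  set v := (IsDiscreteValuationRing.maximalIdeal R).valuation K with hv
  obtain ⟨C, hC⟩ : ∃ C : WeierstrassCurve.VariableChange K,
    (fermatCubic K).minimal R = C • fermatCubic K := ⟨_, rfl⟩
  have hc4 : ((fermatCubic K).minimal R).c₄ = 0 := by
    rw [hC, WeierstrassCurve.variableChange_c₄, fermatCubic_c₄, mul_zero]
  have hmult : ¬ ((fermatCubic K).minimal R).HasMultiplicativeReduction R := by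
    intro hm
    have := hm.multiplicativeReduction
    rw [hc4, map_zero] at this
    exact zero_ne_one this
  have hsplit : ¬ ((fermatCubic K).minimal R).HasSplitMultiplicativeReduction R := fun hm =>
    hmult hm.toHasMultiplicativeReduction
  have hgood : ¬ ((fermatCubic K).minimal R).HasGoodReduction R := by
    intro hg
    have h1 := hg.goodReduction
    rw [hC, WeierstrassCurve.variableChange_Δ, fermatCubic_delta] at h1
    obtain ⟨b, hb⟩ : ∃ b : R, algebraMap R K b = ((fermatCubic K).minimal R).b₆ := by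
      refine ⟨((fermatCubic K).minimal R |>.integralModel R).b₆, ?_⟩
      rw [← WeierstrassCurve.map_b₆]
      congr 1
      exact WeierstrassCurve.baseChange_integralModel_eq R _
    have h2 : v ((fermatCubic K).minimal R).b₆ ≤ 1 := by
      rw [← hb]; exact HeightOneSpectrum.valuation_le_one _ _
    rw [hC, u4_b₆] at h2
    set u : K := (C.u : K) with hu
    have hu0 : u ≠ 0 := C.u.ne_zero
    have hui : ((C.u⁻¹ : Kˣ) : K) = u⁻¹ := by rw [hu, Units.val_inv_eq_inv_val]
    rw [hui] at h1 h2
    have hvu : v u ≠ 0 := (Valuation.ne_zero_iff v).mpr hu0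
    have hvupos : 0 < v u := zero_lt_iff.mpr hvu
    -- `v u ^ 12 = v 3 ^ 3`
    have h3' : v u ^ 12 = v 3 ^ 3 := by
      have e : v (u⁻¹ ^ 12 * -27) = (v u ^ 12)⁻¹ * v 3 ^ 3 := by
        have e27 : (-27 : K) = -(3 ^ 3) := by norm_num
        rw [map_mul, map_pow, map_inv₀, e27, Valuation.map_neg, map_pow, inv_pow]
      rw [e] at h1
      rw [inv_mul_eq_one₀ (pow_ne_zero _ hvu)] at h1
      exact h1
    have h4 : v u ^ 4 = v 3 := by
      have e : (v u ^ 4) ^ 3 = v 3 ^ 3 := by rw [← pow_mul]; exact h3'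
      exact (pow_left_inj₀ (zero_le) (zero_le) (by norm_num)).mp e
    have h5 : v (1 + 4 * C.r ^ 3) ≤ (v u ^ 2) ^ 3 := by
      rw [map_mul, map_pow, map_inv₀, inv_pow, inv_mul_le_iff₀ (pow_pos hvupos 6), mul_one] at h2
      rw [← pow_mul]
      exact h2
    have h6 := u4_val v h3 h (v u ^ 2) (by rw [← pow_mul]; exact h4) C.r h5
    exact (Valuation.ne_zero_iff v).mpr (by norm_num : (3 : K) ≠ 0) h6
  unfold WeierstrassCurve.localPolynomial
  simp only [hgood, hmult, hsplit, if_false]

end Pool.Agent.Lib.MP_1a91b9_ntT.S4
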