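import Pool.Agent.Lib.MP_1a91b9_nt.Residue
import Pool.Agent.Lib.MP_1a91b9_ntT.S4.Add

/-!
# S4: the places above `3`

`NoCube3 N`: the valuation of `3` at the places of `N` above `3` is not a cube. It holds for `ℚ` and
goes up quadratic extensions, and then the local polynomial of `y^2 + y = x^3` is `1` there.
-/

set_option autoImplicit false

namespace Pool.Agent.Lib.MP_1a91b9_ntT.S4

open WeierstrassCurve IsDedekindDomain NumberField WithZero Pool.Agent.Lib.MP_1a91b9_nt

/-- The valuation of `3` is not a cube at the places above `3`. -/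
def NoCube3 (N : Type*) [Field N] [NumberField N] : Prop :=
  ∀ w : HeightOneSpectrum (𝓞 N), (3 : 𝓞 N) ∈ w.asIdeal → ∀ γ : ℤᵐ⁰, γ ^ 3 ≠ w.valuation N 3

theorem locPoly_fermatCubic_three {N : Type*} [Field N] [NumberField N]
    (w : HeightOneSpectrum (𝓞 N)) (h3 : (3 : 𝓞 N) ∈ w.asIdeal)
    (h : ∀ γ : ℤᵐ⁰, γ ^ 3 ≠ w.valuation N 3) :
    locPoly (fermatCubic N) w = 1 := by
  have e : (fermatCubic N).baseChange (w.adicCompletion N) = fermatCubic (w.adicCompletion N) :=
    fermatCubic_map _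
  unfold locPoly
  rw [e]
  set R := w.adicCompletionIntegers N
  set v := (IsDiscreteValuationRing.maximalIdeal R).valuation (w.adicCompletion N) with hv
  have hch : CharZero (w.adicCompletion N) :=
    charZero_of_injective_algebraMap (algebraMap N (w.adicCompletion N)).injective
  have hval3 : (Valued.v (3 : w.adicCompletion N) : ℤᵐ⁰) = w.valuation N 3 := by
    rw [← valued_algebraMap w 3, map_ofNat (algebraMap N (w.adicCompletion N)) 3]
  refine localPolynomial_fermatCubic_three R ?_ ?_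
  · have e3 : (3 : w.adicCompletion N) = algebraMap R (w.adicCompletion N) 3 :=
      (map_ofNat (algebraMap R (w.adicCompletion N)) 3).symm
    rw [e3, HeightOneSpectrum.valuation_lt_one_iff_mem]
    change (3 : R) ∈ IsLocalRing.maximalIdeal R
    rw [← IsLocalRing.residue_eq_zero_iff, residue_eq_zero_iff_valued]
    change Valued.v (3 : w.adicCompletion N) < 1
    rw [hval3]
    have := (w.valuation_lt_one_iff_mem (K := N) (3 : 𝓞 N)).mpr h3
    have e : ((3 : 𝓞 N) : N) = 3 := map_ofNat (algebraMap (𝓞 N) N) 3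
    exact (congrArg (fun z => w.valuation N z < 1) e).mp this
  · intro t ht
    have h30 : (3 : w.adicCompletion N) ≠ 0 := by norm_num
    have ht1 : v (t ^ 3 / 3) = 1 := by
      rw [map_div₀, map_pow, ht, div_self]
      exact (Valuation.ne_zero_iff v).mpr h30
    have ht2 : v ((t ^ 3 / 3)⁻¹) = 1 := by rw [map_inv₀, ht1, inv_one]
    obtain ⟨a, ha⟩ := IsDiscreteValuationRing.exists_lift_of_le_one (A := R) ht1.le
    obtain ⟨b, hb⟩ := IsDiscreteValuationRing.exists_lift_of_le_one (A := R) ht2.le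
    have ha1 : Valued.v (t ^ 3 / 3) ≤ (1 : ℤᵐ⁰) := by rw [← ha]; exact a.2
    have hb1 : Valued.v ((t ^ 3 / 3)⁻¹) ≤ (1 : ℤᵐ⁰) := by rw [← hb]; exact b.2
    have hne : (Valued.v (3 : w.adicCompletion N) : ℤᵐ⁰) ≠ 0 :=
      (Valuation.ne_zero_iff _).mpr h30
    have h0 : (Valued.v (t ^ 3 / 3) : ℤᵐ⁰) ≠ 0 := by
      intro h0
      rw [Valuation.zero_iff] at h0
      rw [h0, map_zero] at ht1
      exact zero_ne_one ht1
    have h1 : (Valued.v (t ^ 3 / 3) : ℤᵐ⁰) = 1 := by
      refine le_antisymm ha1 ?_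
      rw [map_inv₀] at hb1
      exact (inv_le_one₀ (zero_lt_iff.mpr h0)).mp hb1
    rw [map_div₀, map_pow, div_eq_one_iff_eq hne, hval3] at h1
    exact h _ h1

/-- `NoCube3` goes up quadratic extensions. -/
theorem NoCube3.up {N N' : Type*} [Field N] [NumberField N] [Field N'] [NumberField N']
    [Algebra N N'] (hd : Module.finrank N N' = 2) (h : NoCube3 N) : NoCube3 N' := by
  intro w' hw' γ hγ
  set w : HeightOneSpectrum (𝓞 N) := ⟨w'.asIdeal.under (𝓞 N), inferInstance, by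
    have := w'.ne_bot
    exact Ideal.under_ne_bot _ this⟩ with hw
  have hlo : w'.asIdeal.LiesOver w.asIdeal := ⟨rfl⟩
  have h3 : (3 : 𝓞 N) ∈ w.asIdeal := by
    change algebraMap (𝓞 N) (𝓞 N') 3 ∈ w'.asIdeal
    rw [map_ofNat]
    exact hw'
  have hval := HeightOneSpectrum.valuation_liesOver (K := N) N' w w' 3
  have hns : NoZeroSMulDivisors (𝓞 N) (𝓞 N') := ⟨fun {a b} hab => by
    rw [Algebra.smul_def] at hab
    rcases mul_eq_zero.mp hab with h | h
    · exact Or.inl ((map_eq_zero_iff _ (FaithfulSMul.algebraMap_injective _ _)).mp h)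
    · exact Or.inr h⟩
  have hle : w.asIdeal.ramificationIdx' w'.asIdeal ≤ 2 := by
    rw [← hd]
    exact Ideal.ramificationIdx_le_finrank (𝓞 N') N N' w'.asIdeal
  have hpos : w.asIdeal.ramificationIdx' w'.asIdeal ≠ 0 :=
    Ideal.IsDedekindDomain.ramificationIdx'_ne_zero_of_liesOver w'.asIdeal w.ne_bot
  set e := w.asIdeal.ramificationIdx' w'.asIdeal with he
  rw [map_ofNat (algebraMap N N') 3] at hval
  rw [← hval] at hγ
  have h30 : w.valuation N 3 ≠ 0 := (Valuation.ne_zero_iff _).mpr (by norm_num)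
  interval_cases e
  · exact absurd rfl hpos
  · rw [pow_one] at hγ
    exact h w h3 γ hγ
  · have hγ0 : γ ≠ 0 := by
      rintro rfl
      rw [zero_pow (by norm_num)] at hγ
      exact pow_ne_zero 2 h30 hγ.symm
    apply h w h3 (w.valuation N 3 * γ⁻¹)
    rw [mul_pow, inv_pow, hγ, pow_succ, mul_comm (w.valuation N 3 ^ 2), mul_assoc,
      mul_inv_cancel₀ (pow_ne_zero 2 h30), mul_one]

/-- `NoCube3` for `ℚ`. -/
theorem noCube3_rat : NoCube3 ℚ := by
  intro w hw γ hγ
  have hspan : w.asIdeal = Ideal.span {(3 : 𝓞 ℚ)} := by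
    have hp : Prime (3 : 𝓞 ℚ) := by
      have h1 : Prime (Rat.ringOfIntegersEquiv (3 : 𝓞 ℚ)) := by
        rw [map_ofNat]
        exact Int.prime_three
      exact (MulEquiv.prime_iff Rat.ringOfIntegersEquiv.toMulEquiv).mp h1
    have hp' : (Ideal.span {(3 : 𝓞 ℚ)}).IsPrime := (Ideal.span_singleton_prime hp.ne_zero).mpr hp
    have hmax : (Ideal.span {(3 : 𝓞 ℚ)}).IsMaximal := hp'.isMaximal (by
      rw [Ne, Ideal.span_singleton_eq_bot]; exact hp.ne_zero)
    refine (hmax.eq_of_le w.isPrime.ne_top ?_).symm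
    rw [Ideal.span_singleton_le_iff_mem]
    exact hw
  have h1 : w.intValuation (3 : 𝓞 ℚ) = exp (-1 : ℤ) :=
    w.intValuation_singleton (by norm_num) hspan
  have h2 : w.valuation ℚ 3 = exp (-1 : ℤ) := by
    have e : ((3 : 𝓞 ℚ) : ℚ) = 3 := map_ofNat (algebraMap (𝓞 ℚ) ℚ) 3
    rw [← h1, ← HeightOneSpectrum.valuation_of_algebraMap (K := ℚ)]
    congr 1
  rw [h2] at hγ
  have hγ0 : γ ≠ 0 := by
    rintro rfl
    rw [zero_pow (by norm_num)] at hγ
    exact exp_ne_zero hγ.symm
  obtain ⟨n, rfl⟩ : ∃ n : ℤ, γ = exp n := ⟨log γ, (exp_log hγ0).symm⟩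
  rw [← exp_nsmul, exp_inj] at hγ
  simp at hγ
  omega

end Pool.Agent.Lib.MP_1a91b9_ntT.S4
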