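import Pool.Agent.Lib.MP_1a91b9_ntT.S4.PsiDef

/-!
# S4: properties of `ψ_F`
-/

set_option autoImplicit false

namespace Pool.Agent.Lib.MP_1a91b9_ntT.S4

open NumberField IsDedekindDomain Polynomial Pool.Agent.Lib.MP_1a91b9_nt

section
variable (F : Type*) [Field F] [NumberField F] [Algebra K F]

theorem psi_one : psi F 1 = 1 := by
  rw [psi, map_one, psiK_one]

theorem psi_mul (I J : Ideal (𝓞 F)) : psi F (I * J) = psi F I * psi F J := by
  rw [psi, map_mul, psiK_mul]; rfl

theorem psi_zero : psi F 0 = 0 := by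
  rw [psi, map_zero]
  apply psiK_of_not_coprime
  intro h
  have h1 := isCoprime_zero_left.mp h
  rw [Ideal.isUnit_iff, Ideal.span_singleton_eq_top, isUnit_iff_dvd_one] at h1
  have h5 := Ideal.absNorm_dvd_absNorm_of_le
    ((Ideal.span_singleton_le_span_singleton).mpr h1)
  rw [Ideal.span_singleton_one, Ideal.absNorm_top] at h5
  have e3 := u4_absNorm_p (K := K) 3
  rw [Nat.cast_ofNat] at e3
  rw [e3] at h5
  omega

theorem psiC_one : psiC F 1 = 1 := by rw [psiC, psi_one]; simp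

theorem psiC_mul (I J : Ideal (𝓞 F)) : psiC F (I * J) = psiC F I * psiC F J := by
  rw [psiC, psi_mul]
  simp [psiC]

theorem psiC_zero : psiC F 0 = 0 := by rw [psiC, psi_zero]; simp

theorem psibC_one : psibC F 1 = 1 := by rw [psibC, psiC_one, map_one]

theorem psibC_mul (I J : Ideal (𝓞 F)) : psibC F (I * J) = psibC F I * psibC F J := by
  rw [psibC, psiC_mul, map_mul]; rfl

theorem psibC_zero : psibC F 0 = 0 := by rw [psibC, psiC_zero, map_zero]

variable {F}

/-- `ψ_F` at a place not above `3` -/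
theorem psi_place (w : HeightOneSpectrum (𝓞 F)) (h3 : (3 : 𝓞 F) ∉ w.asIdeal) :
    psiC F w.asIdeal * psibC F w.asIdeal = (nrm w : ℂ) ∧
    ∀ x : ℂ, aeval x (locPoly (E F) w) =
      (1 - psiC F w.asIdeal * x) * (1 - psibC F w.asIdeal * x) := by
  obtain ⟨γ, h1, h2, h4, h5⟩ := exists_psi w h3
  have e : psi F w.asIdeal = γ := by
    rw [psi, ← h2, psiK_span γ h1]
  refine ⟨?_, fun x => ?_⟩
  · rw [psibC, psiC, e]; exact h4
  · rw [psibC, psiC, e]; exact h5 x

/-- `ψ_F` at a place above `3` -/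
theorem psi_place_three (w : HeightOneSpectrum (𝓞 F)) (h3 : (3 : 𝓞 F) ∈ w.asIdeal) :
    psi F w.asIdeal = 0 := by
  rw [psi]
  apply psiK_of_not_coprime
  intro h
  -- both ideals are contained in the prime below
  have hle : Ideal.relNorm (𝓞 K) w.asIdeal ≤ w.asIdeal.under (𝓞 K) :=
    Ideal.relNorm_le_comap (𝓞 K) w.asIdeal
  have h3' : (3 : 𝓞 K) ∈ w.asIdeal.under (𝓞 K) := by
    change algebraMap (𝓞 K) (𝓞 F) 3 ∈ w.asIdeal
    rw [map_ofNat]
    exact h3
  have hsup := Ideal.isCoprime_iff_sup_eq.mp h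
  have hle2 : Ideal.relNorm (𝓞 K) w.asIdeal ⊔ Ideal.span {3} ≤ w.asIdeal.under (𝓞 K) :=
    sup_le hle ((Ideal.span_singleton_le_iff_mem _).mpr h3')
  rw [hsup, top_le_iff] at hle2
  have hp : (w.asIdeal.under (𝓞 K)).IsPrime := inferInstance
  exact hp.ne_top hle2

/-- the absolute value of `ψ_F` at a place -/
theorem norm_psiC_place (w : HeightOneSpectrum (𝓞 F)) :
    ‖psiC F w.asIdeal‖ ≤ (Ideal.absNorm w.asIdeal : ℝ) ^ (1 / 2 : ℝ) := by
  by_cases h3 : (3 : 𝓞 F) ∈ w.asIdeal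
  · rw [psiC, psi_place_three w h3]
    simp only [map_zero, norm_zero]
    positivity
  · have h := (psi_place w h3).1
    rw [psibC, Complex.mul_conj, Complex.normSq_eq_norm_sq, nrm_eq] at h
    have h' : ‖psiC F w.asIdeal‖ ^ 2 = (Ideal.absNorm w.asIdeal : ℝ) := by exact_mod_cast h
    rw [← h', ← Real.sqrt_eq_rpow, Real.sqrt_sq (norm_nonneg _)]

variable (F) in
/-- the absolute value of `ψ_F` -/
theorem norm_psiC_le (I : Ideal (𝓞 F)) :
    ‖psiC F I‖ ≤ (Ideal.absNorm I : ℝ) ^ (1 / 2 : ℝ) := by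
  by_cases hI : I = 0
  · rw [hI, psiC_zero, norm_zero]
    positivity
  induction I using UniqueFactorizationMonoid.induction_on_prime with
  | h₁ => exact absurd rfl hI
  | h₂ J hJ =>
    have : J = 1 := by
      rw [Ideal.isUnit_iff] at hJ
      rw [hJ, Ideal.one_eq_top]
    rw [this, psiC_one, map_one]
    simp
  | h₃ J P hJ hP ih =>
    rw [psiC_mul, norm_mul, map_mul, Nat.cast_mul, Real.mul_rpow (by positivity) (by positivity)]
    have h1 := norm_psiC_place (F := F) ⟨P, Ideal.isPrime_of_prime hP, hP.ne_zero⟩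
    exact mul_le_mul h1 (ih hJ) (norm_nonneg _) (by positivity)

end

end Pool.Agent.Lib.MP_1a91b9_ntT.S4
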