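import Pool.Agent.Lib.MP_1a91b9_nt.Residue

/-!
# S4: convergence of the sum over ideals of a power of the norm
-/

set_option autoImplicit false

namespace Pool.Agent.Lib.MP_1a91b9_ntT.S4
open IsDedekindDomain NumberField Filter Topology

section
variable (K : Type*) [Field K] [NumberField K]

/-- The number of ideals of norm `n`. -/
noncomputable def idCount (n : ℕ) : ℕ := Nat.card {I : Ideal (𝓞 K) // Ideal.absNorm I = n}

theorem idCount_tendsto : ∃ l : ℝ, Tendsto (fun n : ℕ =>
    (∑ k ∈ Finset.Icc 1 n, (idCount K k : ℝ)) / n) atTop (𝓝 l) := by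
  classical
  refine ⟨dedekindZeta_residue K, ?_⟩
  refine ((Ideal.tendsto_norm_le_div_atTop₀ K).comp tendsto_natCast_atTop_atTop).congr fun n => ?_
  simp only [Function.comp_apply, Nat.cast_le, ← Nat.cast_sum]
  congr
  unfold idCount
  rw [← add_left_inj 1, ← Ideal.card_norm_le_eq_card_norm_le_add_one,
    show Finset.Icc 1 n = Finset.Ioc 0 n from Finset.Icc_succ_left_eq_Ioc _ _,
    show 1 = Nat.card {I : Ideal (𝓞 K) // Ideal.absNorm I = 0} by simp [Ideal.absNorm_eq_zero_iff],
    Finset.sum_Ioc_add_eq_sum_Icc (n.zero_le),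
    ← Finset.card_preimage_eq_sum_card_image_eq (fun k _ => Ideal.finite_setOfPred_absNorm_eq k)]
  simp [Set.coe_eq_subtype]

theorem idCount_summable (t : ℝ) (ht : 1 < t) :
    Summable fun n : ℕ => (idCount K n : ℝ) * (n : ℝ) ^ (-t) := by
  obtain ⟨l, hl⟩ := idCount_tendsto K
  have hO : (fun n : ℕ => ∑ k ∈ Finset.Icc 1 n, (idCount K k : ℝ)) =O[atTop]
      fun n : ℕ => (n : ℝ) ^ (1 : ℝ) := by
    have h1 : (fun n : ℕ => (∑ k ∈ Finset.Icc 1 n, (idCount K k : ℝ)) / n) =O[atTop]
      fun _ : ℕ => (1 : ℝ) := hl.isBigO_one ℝ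
    have h2 := h1.mul (Asymptotics.isBigO_refl (fun n : ℕ => (n : ℝ)) atTop)
    refine (h2.congr' ?_ ?_)
    · filter_upwards [eventually_ne_atTop 0] with n hn
      have : (n : ℝ) ≠ 0 := by exact_mod_cast hn
      field_simp
    · filter_upwards with n
      simp
  have h := LSeriesSummable_of_sum_norm_bigO_and_nonneg (s := (t : ℂ)) hO
    (fun n => Nat.cast_nonneg _) zero_le_one (by simpa using ht)
  have h3 := h.norm
  have h4 : Summable fun n : ℕ => if n = 0 then (0 : ℝ) else (idCount K n : ℝ) * (n : ℝ) ^ (-t) := by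
    refine h3.congr fun n => ?_
    rw [LSeries.term_def]
    split_ifs with h0
    · simp
    · rw [norm_div, Complex.norm_natCast_cpow_of_pos (Nat.pos_of_ne_zero h0)]
      simp [Real.rpow_neg, div_eq_mul_inv]
  refine (summable_congr_cofinite ?_).2 h4
  have : ∀ᶠ n : ℕ in cofinite, n ≠ 0 := by
    rw [Nat.cofinite_eq_atTop]; exact eventually_ne_atTop 0
  filter_upwards [this] with n hn
  rw [if_neg hn]

/-- The sum over the ideals of `N I ^ (-t)` converges for `t > 1`. -/
theorem summable_ideals (t : ℝ) (ht : 1 < t) :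
    Summable fun I : Ideal (𝓞 K) => (Ideal.absNorm I : ℝ) ^ (-t) := by
  classical
  have hs := idCount_summable K t ht
  refine summable_of_sum_le (c := ∑' n : ℕ, (idCount K n : ℝ) * (n : ℝ) ^ (-t))
    (fun I => by positivity) fun u => ?_
  have hcard : ∀ n : ℕ, n ≠ 0 → ((u.filter fun I => Ideal.absNorm I = n).card : ℝ) ≤
      idCount K n := by
    intro n hn
    have hfin : Finite {I : Ideal (𝓞 K) // Ideal.absNorm I = n} :=
      (Ideal.finite_setOfPred_absNorm_eq n).to_subtype
    have h1 : (u.filter fun I => Ideal.absNorm I = n).card ≤ idCount K n := by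
      unfold idCount
      rw [← Fintype.card_coe, ← Nat.card_eq_fintype_card]
      refine Nat.card_le_card_of_injective
        (fun I : {I // I ∈ u.filter fun I => Ideal.absNorm I = n} =>
          (⟨I.1, (Finset.mem_filter.1 I.2).2⟩ : {I : Ideal (𝓞 K) // Ideal.absNorm I = n})) ?_
      intro w w' h
      have h2 : w.1 = w'.1 := congrArg (fun z : {I : Ideal (𝓞 K) // Ideal.absNorm I = n} => z.1) h
      exact Subtype.ext h2
    exact_mod_cast h1
  have hzero : (0 : ℝ) ^ (-t) = 0 := Real.zero_rpow (by linarith)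
  calc ∑ I ∈ u, (Ideal.absNorm I : ℝ) ^ (-t)
      = ∑ n ∈ u.image Ideal.absNorm, ∑ I ∈ u.filter (fun I => Ideal.absNorm I = n),
          (Ideal.absNorm I : ℝ) ^ (-t) :=
        (Finset.sum_fiberwise_of_maps_to (fun w hw => Finset.mem_image_of_mem _ hw) _).symm
    _ = ∑ n ∈ u.image Ideal.absNorm,
          ((u.filter fun I => Ideal.absNorm I = n).card : ℝ) * (n : ℝ) ^ (-t) := by
        refine Finset.sum_congr rfl fun n _ => ?_
        rw [Finset.sum_congr rfl (g := fun _ => (n : ℝ) ^ (-t)), Finset.sum_const, nsmul_eq_mul]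
        intro w hw
        rw [(Finset.mem_filter.1 hw).2]
    _ ≤ ∑ n ∈ u.image Ideal.absNorm, (idCount K n : ℝ) * (n : ℝ) ^ (-t) := by
        refine Finset.sum_le_sum fun n _ => ?_
        by_cases hn : n = 0
        · rw [hn, Nat.cast_zero, hzero, mul_zero, mul_zero]
        · exact mul_le_mul_of_nonneg_right (hcard n hn) (by positivity)
    _ ≤ _ := hs.sum_le_tsum _ fun n _ => by positivity

/-- The complex version. -/
theorem summable_ideals_mul (f : Ideal (𝓞 K) → ℂ) (C r : ℝ) (hf : ∀ I, ‖f I‖ ≤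
    C * (Ideal.absNorm I : ℝ) ^ r) (s : ℂ) (hs : 1 + r < s.re) (hsre : s.re ≠ 0) :
    Summable fun I : Ideal (𝓞 K) => ‖f I * (Ideal.absNorm I : ℂ) ^ (-s)‖ := by
  have h := (summable_ideals K (s.re - r) (by linarith)).mul_left |C|
  refine Summable.of_nonneg_of_le (fun _ => norm_nonneg _) (fun I => ?_) h
  by_cases h0 : Ideal.absNorm I = 0
  · have hs0 : -s ≠ 0 := by
      rw [Ne, neg_eq_zero]
      rintro rfl
      simp at hsre
    rw [h0, Nat.cast_zero, Complex.zero_cpow hs0, mul_zero, norm_zero]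
    positivity
  · have hpos : 0 < Ideal.absNorm I := Nat.pos_of_ne_zero h0
    have hposR : (0 : ℝ) < (Ideal.absNorm I : ℝ) := by exact_mod_cast hpos
    rw [norm_mul, Complex.norm_natCast_cpow_of_pos hpos]
    have h1 : ‖f I‖ ≤ |C| * (Ideal.absNorm I : ℝ) ^ r :=
      (hf I).trans (mul_le_mul_of_nonneg_right (le_abs_self C) (by positivity))
    calc ‖f I‖ * (Ideal.absNorm I : ℝ) ^ (-s).re
        ≤ |C| * (Ideal.absNorm I : ℝ) ^ r * (Ideal.absNorm I : ℝ) ^ (-s).re := by gcongr
      _ = |C| * (Ideal.absNorm I : ℝ) ^ (-(s.re - r)) := by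
          rw [mul_assoc, ← Real.rpow_add hposR]
          congr 2
          rw [Complex.neg_re]
          ring

end

end Pool.Agent.Lib.MP_1a91b9_ntT.S4
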