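import Pool.Agent.Lib.MP_1a91b9_nt.Euler
import Pool.Agent.Lib.MP_1a91b9_ntT.S4.PsiProps
import Pool.Agent.Lib.MP_1a91b9_ntT.S4.Place
import Pool.Agent.Lib.MP_1a91b9_ntT.S4.SumIdeals
import Pool.Agent.Lib.MP_1a91b9_ntT.S4.EulerSum

/-!
# S4: the L-series of `E` over `F` is the product of the two Hecke L-series
-/

set_option autoImplicit false

namespace Pool.Agent.Lib.MP_1a91b9_ntT.S4

open NumberField IsDedekindDomain Polynomial Pool.Agent.Lib.MP_1a91b9_nt

section

/-- the L-series of a function on ideals -/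
noncomputable def Lf {F : Type*} [Field F] [NumberField F] (f : Ideal (𝓞 F) → ℂ) (s : ℂ) : ℂ :=
  ∑' I : Ideal (𝓞 F), f I * (Ideal.absNorm I : ℂ) ^ (-s)

variable {F : Type*} [Field F] [NumberField F]

/-- The Euler product of the L-series of a completely multiplicative function. -/
theorem hasProd_Lf (f : Ideal (𝓞 F) → ℂ) (h1 : f 1 = 1)
    (hmul : ∀ I J, f (I * J) = f I * f J) (r : ℝ) (hr : 0 ≤ r)
    (hf : ∀ I, ‖f I‖ ≤ (Ideal.absNorm I : ℝ) ^ r) (s : ℂ) (hs : 1 + r < s.re) :
    (Summable fun I : Ideal (𝓞 F) => ‖f I * (Ideal.absNorm I : ℂ) ^ (-s)‖) ∧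
    HasProd (fun w : HeightOneSpectrum (𝓞 F) =>
      (1 - f w.asIdeal * (Ideal.absNorm w.asIdeal : ℂ) ^ (-s))⁻¹) (Lf f s) := by
  have hs0 : s.re ≠ 0 := by
    intro h
    rw [h] at hs
    linarith
  have hs0' : -s ≠ 0 := by
    rw [Ne, neg_eq_zero]
    rintro rfl
    simp at hs0
  have hsum : Summable fun I : Ideal (𝓞 F) => ‖f I * (Ideal.absNorm I : ℂ) ^ (-s)‖ :=
    summable_ideals_mul F f 1 r (fun I => by rw [one_mul]; exact hf I) s hs hs0
  refine ⟨hsum, ?_⟩
  refine hasProd_ideals (fun I : Ideal (𝓞 F) => f I * (Ideal.absNorm I : ℂ) ^ (-s)) ?_ ?_ ?_ hsum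
  · rw [map_zero, Nat.cast_zero, Complex.zero_cpow hs0', mul_zero]
  · rw [h1, map_one, Nat.cast_one, Complex.one_cpow, mul_one]
  · intro I J
    rw [hmul, map_mul, Nat.cast_mul, Complex.natCast_mul_natCast_cpow]
    ring

variable [Algebra K F]

theorem norm_psibC_le (I : Ideal (𝓞 F)) : ‖psibC F I‖ ≤ (Ideal.absNorm I : ℝ) ^ (1 / 2 : ℝ) := by
  rw [psibC, RCLike.norm_conj]
  exact norm_psiC_le F I

/-- `L(E/F, s) = L(ψ_F, s) L(ψbar_F, s)`. -/
theorem LSeries_E (h : NoCube3 F) (s : ℂ) (hs : 2 < s.re) :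
    (E F).LSeries s = Lf (psiC F) s * Lf (psibC F) s := by
  have hp := (hasProd_Lf (psiC F) (psiC_one F) (psiC_mul F) (1 / 2) (by norm_num)
    (norm_psiC_le F) s (by linarith)).2
  have hq := (hasProd_Lf (psibC F) (psibC_one F) (psibC_mul F) (1 / 2) (by norm_num)
    norm_psibC_le s (by linarith)).2
  have hpq := hp.mul hq
  have he := hasProd_fac (E F) hs
  refine he.unique ?_
  have e : (fun w : HeightOneSpectrum (𝓞 F) => fac (E F) w s) = fun w =>
      (1 - psiC F w.asIdeal * (Ideal.absNorm w.asIdeal : ℂ) ^ (-s))⁻¹ *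
      (1 - psibC F w.asIdeal * (Ideal.absNorm w.asIdeal : ℂ) ^ (-s))⁻¹ := by
    funext w
    rw [fac, nrm_eq]
    by_cases h3 : (3 : 𝓞 F) ∈ w.asIdeal
    · rw [E_eq, locPoly_fermatCubic_three w h3 (h w h3), psibC, psiC, psi_place_three w h3]
      simp
    · rw [(psi_place w h3).2, mul_inv]
  rw [e]
  exact hpq

end

section tower

theorem NoCube3.up_le {N N' : Type*} [Field N] [NumberField N] [Field N'] [NumberField N']
    [Algebra N N'] (hd : Module.finrank N N' ≤ 2) (h : NoCube3 N) : NoCube3 N' := by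
  have hpos : 0 < Module.finrank N N' := Module.finrank_pos
  have h2 : Module.finrank N N' = 2 ∨ Module.finrank N N' = 1 := by omega
  rcases h2 with h2 | h2
  · exact h.up h2
  · intro w' hw' γ hγ
    set w : HeightOneSpectrum (𝓞 N) := ⟨w'.asIdeal.under (𝓞 N), inferInstance, by
      have := w'.ne_bot
      exact Ideal.under_ne_bot _ this⟩ with hw
    have hlo : w'.asIdeal.LiesOver w.asIdeal := ⟨rfl⟩
    have h3 : (3 : 𝓞 N) ∈ w.asIdeal := by
      change algebraMap (𝓞 N) (𝓞 N') 3 ∈ w'.asIdeal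
      rw [map_ofNat]
      exact hw'
    have hval := HeightOneSpectrum.valuation_liesOver (K := N) N' w w' 3
    have hns : NoZeroSMulDivisors (𝓞 N) (𝓞 N') := ⟨fun {a b} hab => by
      rw [Algebra.smul_def] at hab
      rcases mul_eq_zero.mp hab with h | h
      · exact Or.inl ((map_eq_zero_iff _ (FaithfulSMul.algebraMap_injective _ _)).mp h)
      · exact Or.inr h⟩
    have hle : w.asIdeal.ramificationIdx' w'.asIdeal ≤ 1 := by
      rw [← h2]
      exact Ideal.ramificationIdx_le_finrank (𝓞 N') N N' w'.asIdeal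
    have hpos : w.asIdeal.ramificationIdx' w'.asIdeal ≠ 0 :=
      Ideal.IsDedekindDomain.ramificationIdx'_ne_zero_of_liesOver w'.asIdeal w.ne_bot
    have he : w.asIdeal.ramificationIdx' w'.asIdeal = 1 := by omega
    rw [he, pow_one, map_ofNat (algebraMap N N') 3] at hval
    exact h w h3 γ (by rw [hγ, hval])

theorem noCube3_K : NoCube3 K := by
  refine NoCube3.up_le (N := ℚ) ?_ noCube3_rat
  rw [u4_finrank]

theorem noCube3_tower (F : Type*) [Field F] [NumberField F] [Algebra K F] (h : TowerK F) :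
    NoCube3 F := by
  induction h with
  | base F hb =>
    refine NoCube3.up_le (N := K) ?_ noCube3_K
    have e : Module.finrank K F = 1 := by
      have := LinearEquiv.finrank_eq (LinearEquiv.ofBijective (Algebra.linearMap K F) hb)
      rw [← this, Module.finrank_self]
    omega
  | step F F' δ hδ x hx hn hgen h ih =>
    classical
    refine NoCube3.up_le (N := F) ?_ ih
    have hspan : (⊤ : Submodule F F') ≤ Submodule.span F ({1, x} : Set F') := by
      intro z _
      obtain ⟨a, b, rfl⟩ := hgen z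
      rw [Submodule.mem_span_pair]
      exact ⟨a, b, by rw [Algebra.smul_def, Algebra.smul_def, mul_one]⟩
    calc Module.finrank F F' = Module.finrank F (⊤ : Submodule F F') := (finrank_top F F').symm
      _ ≤ Module.finrank F (Submodule.span F ({1, x} : Set F')) := Submodule.finrank_mono hspan
      _ ≤ ({1, x} : Finset F').card := by
          have := finrank_span_finset_le_card (R := F) ({1, x} : Finset F')
          rw [Finset.coe_insert, Finset.coe_singleton] at this
          exact this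
      _ ≤ 2 := Finset.card_le_two

end tower

end Pool.Agent.Lib.MP_1a91b9_ntT.S4
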