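import Pool.Agent.Lib.MP_1a91b9_nt.Product
import Pool.Agent.Lib.MP_1a91b9_nt.QuadField
import Pool.Agent.Lib.MP_1a91b9_ntT.S4.PsiProps

/-!
# S4: the Euler factors in a quadratic extension
-/

set_option autoImplicit false

namespace Pool.Agent.Lib.MP_1a91b9_ntT.S4

open NumberField IsDedekindDomain Polynomial Pool.Agent.Lib.MP_1a91b9_nt

universe u

section
variable {F F' : Type u} [Field F] [NumberField F] [Field F'] [NumberField F'] [Algebra F F']

/-- the places of `F'` above `v` -/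
abbrev Over (F' : Type u) [Field F'] [NumberField F'] [Algebra F F']
    (v : HeightOneSpectrum (𝓞 F)) : Type u :=
  {w : HeightOneSpectrum (𝓞 F') // w.asIdeal.under (𝓞 F) = v.asIdeal}

noncomputable instance fintypeOver (v : HeightOneSpectrum (𝓞 F)) : Fintype (Over F' v) :=
  @Fintype.ofFinite _ (pf_finite_over v)

/-- An Euler product over `F'` is an Euler product over `F`. -/
theorem hasProd_over (g : HeightOneSpectrum (𝓞 F') → ℂ) (a : ℂ) (h : HasProd g a) :
    HasProd (fun v : HeightOneSpectrum (𝓞 F) => ∏ w : Over F' v, g w.1) a := by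
  let pr : HeightOneSpectrum (𝓞 F') → HeightOneSpectrum (𝓞 F) := fun w => w.under (𝓞 F)
  have h2 : HasProd (fun x : Σ v : HeightOneSpectrum (𝓞 F), {w // pr w = v} => g x.2.1) a := by
    rw [← (Equiv.sigmaFiberEquiv pr).symm.hasProd_iff]
    exact h
  refine h2.sigma fun v => ?_
  let e : Over F' v ≃ {w // pr w = v} :=
    Equiv.subtypeEquivRight fun w =>
      ⟨fun h => HeightOneSpectrum.ext h, fun h => congrArg HeightOneSpectrum.asIdeal h⟩
  rw [← e.hasProd_iff]
  exact hasProd_fintype _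

/-- The three kinds of places. -/
theorem quad_cases (hL : Module.finrank F F' = 2) (v : HeightOneSpectrum (𝓞 F)) :
    (Fintype.card (Over F' v) = 2 ∧
      ∀ w : Over F' v, w.1.asIdeal.inertiaDeg (𝓞 F) = 1 ∧ nrm w.1 = nrm v) ∨
    (Fintype.card (Over F' v) = 1 ∧
      ∀ w : Over F' v, w.1.asIdeal.inertiaDeg (𝓞 F) = 2 ∧ nrm w.1 = nrm v ^ 2) ∨
    (Fintype.card (Over F' v) = 1 ∧
      ∀ w : Over F' v, w.1.asIdeal.inertiaDeg (𝓞 F) = 1 ∧ nrm w.1 = nrm v) := by
  have hquad : Algebra.IsQuadraticExtension F F' := ⟨hL⟩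
  have hgal : IsGalois F F' := inferInstance
  have hvp : v.asIdeal.IsPrime := v.isPrime
  have hvm : v.asIdeal.IsMaximal := v.isMaximal
  have hfund := Ideal.ncard_primesOver_mul_ramificationIdxIn_mul_inertiaDegIn v.asIdeal (𝓞 F')
    Gal(F'/F)
  have hcard : Nat.card Gal(F'/F) = 2 := by
    rw [IsGalois.card_aut_eq_finrank, hL]
  rw [hcard] at hfund
  have hdeg : ∀ w : Over F' v,
      w.1.asIdeal.inertiaDeg (𝓞 F) = Ideal.inertiaDegIn v.asIdeal (𝓞 F') := by
    intro w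
    have i1 : w.1.asIdeal.IsPrime := w.1.isPrime
    have i2 : w.1.asIdeal.LiesOver v.asIdeal := ⟨w.2.symm⟩
    exact (Ideal.inertiaDegIn_eq_inertiaDeg v.asIdeal w.1.asIdeal Gal(F'/F)).symm
  have hnrm : ∀ w : Over F' v, nrm w.1 = nrm v ^ Ideal.inertiaDegIn v.asIdeal (𝓞 F') := by
    intro w
    have i2 : w.1.asIdeal.LiesOver v.asIdeal := ⟨w.2.symm⟩
    rw [nrm_eq, nrm_eq, ← hdeg w, Ideal.absNorm_pow_inertiaDeg v.asIdeal w.1.asIdeal]
  have hc : Fintype.card (Over F' v) = (v.asIdeal.primesOver (𝓞 F')).ncard := by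
    rw [← card_over_eq, Nat.card_eq_fintype_card]
  rw [hc]
  set g := (v.asIdeal.primesOver (𝓞 F')).ncard with hg
  set e := Ideal.ramificationIdxIn v.asIdeal (𝓞 F') with he
  set f := Ideal.inertiaDegIn v.asIdeal (𝓞 F') with hf
  have hdvd : g ∣ 2 := ⟨_, hfund.symm⟩
  have hdvdf : f ∣ 2 := ⟨g * e, by rw [← hfund]; ring⟩
  rcases (Nat.dvd_prime Nat.prime_two).mp hdvd with h1 | h1
  · rcases (Nat.dvd_prime Nat.prime_two).mp hdvdf with h2 | h2
    · exact Or.inr (Or.inr ⟨h1, fun w => ⟨by rw [hdeg w, h2], by rw [hnrm w, h2, pow_one]⟩⟩)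
    · exact Or.inr (Or.inl ⟨h1, fun w => ⟨by rw [hdeg w, h2], by rw [hnrm w, h2]⟩⟩)
  · refine Or.inl ⟨h1, fun w => ?_⟩
    rw [h1] at hfund
    have h3 : e * f = 1 := by omega
    have h4 : f = 1 := Nat.eq_one_of_mul_eq_one_left h3
    exact ⟨by rw [hdeg w, h4], by rw [hnrm w, h4, pow_one]⟩

/-- The splitting character of `F'/F`: `1` (split), `-1` (inert), `0` (ramified). -/
noncomputable def splitChar (F' : Type u) [Field F'] [NumberField F'] [Algebra F F']
    (v : HeightOneSpectrum (𝓞 F)) : ℤ :=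
  if Fintype.card (Over F' v) = 2 then 1
  else if ∀ w : Over F' v, w.1.asIdeal.inertiaDeg (𝓞 F) = 2 then -1 else 0

variable [Algebra K F] [Algebra K F'] [IsScalarTower K F F']

/-- `ψ_{F'}` at a place above `v` -/
theorem psi_over (v : HeightOneSpectrum (𝓞 F)) (w : Over F' v) :
    psi F' w.1.asIdeal = psi F v.asIdeal ^ w.1.asIdeal.inertiaDeg (𝓞 F) := by
  have hvm : v.asIdeal.IsMaximal := v.isMaximal
  have hwm : w.1.asIdeal.IsMaximal := w.1.isMaximal
  have i2 : w.1.asIdeal.LiesOver v.asIdeal := ⟨w.2.symm⟩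
  have hst : IsScalarTower (𝓞 K) (𝓞 F) (𝓞 F') := inferInstance
  have h1 : Ideal.relNorm (𝓞 F) w.1.asIdeal = v.asIdeal ^ w.1.asIdeal.inertiaDeg (𝓞 F) :=
    Ideal.relNorm_eq_pow_of_isMaximal w.1.asIdeal v.asIdeal
  have h2 : Ideal.relNorm (𝓞 K) w.1.asIdeal =
      Ideal.relNorm (𝓞 K) (Ideal.relNorm (𝓞 F) w.1.asIdeal) :=
    (Ideal.relNorm_relNorm (𝓞 K) (𝓞 F) w.1.asIdeal).symm
  rw [psi, h2, h1, map_pow]
  have hpow : ∀ (I : Ideal (𝓞 K)) (n : ℕ), psiK (I ^ n) = psiK I ^ n := by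
    intro I n
    induction n with
    | zero => rw [pow_zero, pow_zero, psiK_one]
    | succ n ih => rw [pow_succ, psiK_mul, ih, pow_succ]
  rw [hpow]
  rfl

/-- The factorisation of the Euler factor. -/
theorem euler_quad (hL : Module.finrank F F' = 2) (v : HeightOneSpectrum (𝓞 F)) (s : ℂ) :
    ∏ w : Over F' v, (1 - psibC F' w.1.asIdeal * (Ideal.absNorm w.1.asIdeal : ℂ) ^ (-s))⁻¹ =
      (1 - psibC F v.asIdeal * (Ideal.absNorm v.asIdeal : ℂ) ^ (-s))⁻¹ *
      (1 - (splitChar F' v : ℂ) * psibC F v.asIdeal * (Ideal.absNorm v.asIdeal : ℂ) ^ (-s))⁻¹ := by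
  have hpsi : ∀ w : Over F' v, psibC F' w.1.asIdeal =
      psibC F v.asIdeal ^ w.1.asIdeal.inertiaDeg (𝓞 F) := by
    intro w
    rw [psibC, psiC, psi_over v w, psibC, psiC]
    simp
  rcases quad_cases hL v with ⟨h1, h2⟩ | ⟨h1, h2⟩ | ⟨h1, h2⟩
  · have hχ : splitChar F' v = 1 := by rw [splitChar, if_pos h1]
    rw [hχ, Int.cast_one, one_mul]
    rw [Finset.prod_congr rfl (g := fun _ =>
      (1 - psibC F v.asIdeal * (Ideal.absNorm v.asIdeal : ℂ) ^ (-s))⁻¹)]
    · rw [Finset.prod_const, Finset.card_univ, h1, pow_two]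
    · intro w _
      have h3 := (h2 w).2
      rw [nrm_eq, nrm_eq] at h3
      rw [hpsi w, (h2 w).1, pow_one, h3]
  · have hχ : splitChar F' v = -1 := by
      rw [splitChar, if_neg (by omega), if_pos fun w => (h2 w).1]
    rw [hχ]
    rw [Finset.prod_congr rfl (g := fun _ =>
      (1 - psibC F v.asIdeal * (Ideal.absNorm v.asIdeal : ℂ) ^ (-s))⁻¹ *
      (1 - ((-1 : ℤ) : ℂ) * psibC F v.asIdeal * (Ideal.absNorm v.asIdeal : ℂ) ^ (-s))⁻¹)]
    · rw [Finset.prod_const, Finset.card_univ, h1, pow_one]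
    · intro w _
      have h3 := (h2 w).2
      rw [nrm_eq, nrm_eq] at h3
      rw [hpsi w, (h2 w).1, h3, ← mul_inv]
      congr 1
      have h4 : ((Ideal.absNorm v.asIdeal ^ 2 : ℕ) : ℂ) ^ (-s) =
          (Ideal.absNorm v.asIdeal : ℂ) ^ (-s) * (Ideal.absNorm v.asIdeal : ℂ) ^ (-s) := by
        rw [pow_two, Nat.cast_mul, Complex.natCast_mul_natCast_cpow]
      rw [h4]
      push_cast
      ring
  · have hχ : splitChar F' v = 0 := by
      rw [splitChar, if_neg (by omega), if_neg]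
      intro h
      have hne : Nonempty (Over F' v) := by
        rw [← Fintype.card_pos_iff]
        omega
      obtain ⟨w⟩ := hne
      have := h w
      rw [(h2 w).1] at this
      omega
    rw [hχ, Int.cast_zero, zero_mul, zero_mul, sub_zero, inv_one, mul_one]
    rw [Finset.prod_congr rfl (g := fun _ =>
      (1 - psibC F v.asIdeal * (Ideal.absNorm v.asIdeal : ℂ) ^ (-s))⁻¹)]
    · rw [Finset.prod_const, Finset.card_univ, h1, pow_one]
    · intro w _
      have h3 := (h2 w).2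
      rw [nrm_eq, nrm_eq] at h3
      rw [hpsi w, (h2 w).1, pow_one, h3]

end

end Pool.Agent.Lib.MP_1a91b9_ntT.S4
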