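import Pool.Agent.Lib.MP_1a91b9_ntT.S4.ConjPsi
import Pool.Agent.Lib.MP_1a91b9_ntT.S4.LProd
import Pool.Agent.Lib.MP_1a91b9_ntT.S4.Quad

/-!
# S4: the L-series of `E` over a field without `√-3`
-/

set_option autoImplicit false

namespace Pool.Agent.Lib.MP_1a91b9_ntT.S4

open NumberField IsDedekindDomain Polynomial WeierstrassCurve Pool.Agent.Lib.MP_1a91b9_nt
open scoped Pointwise

universe u

theorem locPoly_model {N : Type u} [Field N] [NumberField N] (v : HeightOneSpectrum (𝓞 N))
    (h3 : (3 : 𝓞 N) ∉ v.asIdeal) :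
    locPoly (E N) v = 1 - Polynomial.C ((nrm v : ℤ) + 1 - Nat.card (fermatCubic
      (IsLocalRing.ResidueField (v.adicCompletionIntegers N))).toAffine.Point) * X
      + Polynomial.C (nrm v : ℤ) * X ^ 2 := by
  have hmodel : locPoly ((E N).baseChange N) v = _ :=
      locPoly_of_model (F := N) (K := N) (E N) 1 (fermatCubic (𝓞 N)) (by
        rw [one_smul, fermatCubic_map]
        rfl) v (by
        rw [fermatCubic_delta]
        intro hmem
        apply h3
        change algebraMap (𝓞 N) (𝓞 N) (-27) ∈ v.asIdeal at hmem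
        rw [map_neg, map_ofNat] at hmem
        have e : (-27 : 𝓞 N) = -(3 ^ 3) := by norm_num
        rw [e] at hmem
        exact v.isPrime.mem_of_pow_mem 3 (by simpa using v.asIdeal.neg_mem hmem))
  have hbc : (E N).baseChange N = E N := WeierstrassCurve.map_id _
  rw [hbc, fermatCubic_map] at hmodel
  exact hmodel

section
variable {N F : Type u} [Field N] [NumberField N] [Field F] [NumberField F] [Algebra N F]

theorem locPoly_same (v : HeightOneSpectrum (𝓞 N)) (h3 : (3 : 𝓞 N) ∉ v.asIdeal)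
    (w : HeightOneSpectrum (𝓞 F)) (hw : w.asIdeal.under (𝓞 N) = v.asIdeal)
    (hn : nrm w = nrm v) : locPoly (E F) w = locPoly (E N) v := by
  have h3w : (3 : 𝓞 F) ∉ w.asIdeal := by
    intro hmem
    apply h3
    rw [← hw]
    change algebraMap (𝓞 N) (𝓞 F) 3 ∈ w.asIdeal
    rw [map_ofNat]
    exact hmem
  rw [locPoly_model v h3, locPoly_model w h3w, hn]
  obtain ⟨e, he⟩ := exists_residue_iso (F := N) v w (by
    rw [hw]
    ext x
    exact Iff.rfl) hn.symm
  have h := card_point_map_equiv (fermatCubic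
    (IsLocalRing.ResidueField (v.adicCompletionIntegers N))) e
  rw [fermatCubic_map] at h
  rw [h]

variable [Algebra K F]

/-- The Euler factor. -/
theorem euler_B (hL : Module.finrank N F = 2) (hn : ∀ x : N, algebraMap N F x ≠ algebraMap K F om)
    (h : NoCube3 N) (v : HeightOneSpectrum (𝓞 N)) (s : ℂ) :
    ∏ w : Over F v, (1 - psibC F w.1.asIdeal * (Ideal.absNorm w.1.asIdeal : ℂ) ^ (-s))⁻¹ =
      fac (E N) v s := by
  classical
  have hζ : (algebraMap K F om) ^ 2 + algebraMap K F om + 1 = 0 := by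
    rw [← map_pow, ← map_add, ← map_one (algebraMap K F), ← map_add, om_eq, map_zero]
  rw [fac]
  by_cases h3 : (3 : 𝓞 N) ∈ v.asIdeal
  · rw [E_eq, locPoly_fermatCubic_three v h3 (h v h3), map_one, inv_one]
    refine Finset.prod_eq_one fun w _ => ?_
    have h3w : (3 : 𝓞 F) ∈ w.1.asIdeal := by
      have : (3 : 𝓞 N) ∈ w.1.asIdeal.under (𝓞 N) := by rw [w.2]; exact h3
      change algebraMap (𝓞 N) (𝓞 F) 3 ∈ w.1.asIdeal at this
      rwa [map_ofNat] at this
    rw [psibC, psiC, psi_place_three w.1 h3w]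
    simp
  have hquad : Algebra.IsQuadraticExtension N F := ⟨hL⟩
  have hgal : IsGalois N F := inferInstance
  have hroot : ∀ σ : Gal(F/N), σ (algebraMap K F om) = algebraMap K F om ∨
      σ (algebraMap K F om) = algebraMap K F (-1 - om) := by
    intro σ
    have h2 : (σ (algebraMap K F om)) ^ 2 + σ (algebraMap K F om) + 1 = 0 := by
      rw [← map_pow, ← map_add, ← map_one σ, ← map_add, hζ, map_zero]
    have h4 : (σ (algebraMap K F om) - algebraMap K F om) *
        (σ (algebraMap K F om) + 1 + algebraMap K F om) = 0 := by linear_combination h2 - hζ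
    rcases mul_eq_zero.mp h4 with h | h
    · exact Or.inl (sub_eq_zero.mp h)
    · right
      rw [map_sub, map_neg, map_one]
      linear_combination h
  have hcard : Nat.card Gal(F/N) = 2 := by
    rw [IsGalois.card_aut_eq_finrank, hL]
  have h3w : ∀ w : Over F v, (3 : 𝓞 F) ∉ w.1.asIdeal := by
    intro w hmem
    apply h3
    rw [← w.2]
    change algebraMap (𝓞 N) (𝓞 F) 3 ∈ w.1.asIdeal
    rw [map_ofNat]
    exact hmem
  have hvp : v.asIdeal.IsPrime := v.isPrime
  have hexσ : ∃ σ : Gal(F/N), σ (algebraMap K F om) = algebraMap K F (-1 - om) := by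
    by_contra hcon
    push Not at hcon
    obtain ⟨x, hx⟩ := (IsGalois.mem_range_algebraMap_iff_fixed (algebraMap K F om)).mpr
      (fun σ => (hroot σ).resolve_right (hcon σ))
    exact hn x hx
  obtain ⟨σ₀, hσ₀⟩ := hexσ
  have hσ₀1 : σ₀ ≠ 1 := by
    rintro rfl
    have h5 : algebraMap K F om = algebraMap K F (-1 - om) := hσ₀
    have h6 := (algebraMap K F).injective h5
    have h7 : 2 * om = -1 := by linear_combination h6
    have h8 := om_eq
    have h9 : (3 : K) = 0 := by linear_combination 4 * h8 - (2 * om + 1) * h7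
    norm_num at h9
  have huniq : ∀ σ : Gal(F/N), σ ≠ 1 → σ = σ₀ := by
    intro σ hσ
    obtain ⟨y, hy, hyu⟩ := (Nat.card_eq_two_iff' (1 : Gal(F/N))).mp hcard
    rw [hyu σ hσ, hyu σ₀ hσ₀1]
  have hxx : (nrm v : ℂ) ^ (-s) = (Ideal.absNorm v.asIdeal : ℂ) ^ (-s) := by rw [nrm_eq]
  rcases u4_split hL (algebraMap K F om) hζ hn v h3 with ⟨g1, g2, g3⟩ | ⟨g1, g2, g3⟩
  · -- split
    have g3' : Fintype.card (Over F v) = 2 := by rw [← Nat.card_eq_fintype_card]; exact g3
    rw [← Finset.card_univ, Finset.card_eq_two] at g3'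
    obtain ⟨w, w', hww, huniv⟩ := g3'
    rw [huniv, Finset.prod_pair hww]
    have i1 : w.1.asIdeal.IsPrime := w.1.isPrime
    have i2 : w.1.asIdeal.LiesOver v.asIdeal := ⟨w.2.symm⟩
    have i1' : w'.1.asIdeal.IsPrime := w'.1.isPrime
    have i2' : w'.1.asIdeal.LiesOver v.asIdeal := ⟨w'.2.symm⟩
    obtain ⟨σ, hσ⟩ := Ideal.exists_smul_eq_of_isGaloisGroup v.asIdeal w.1.asIdeal w'.1.asIdeal
      Gal(F/N)
    have hσ1 : σ ≠ 1 := by
      rintro rfl
      rw [one_smul] at hσ
      exact hww (Subtype.ext (HeightOneSpectrum.ext hσ))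
    rw [huniq σ hσ1] at hσ
    have hpsi := psiC_conj σ₀ hσ₀ w.1 w'.1 hσ.symm (by rw [g2 w'.1 w'.2, g2 w.1 w.2])
    have hpsib : psibC F w'.1.asIdeal = psiC F w.1.asIdeal := by
      rw [psibC, hpsi, psibC, Complex.conj_conj]
    have e1 := g2 w.1 w.2
    have e2 := g2 w'.1 w'.2
    rw [nrm_eq] at e1 e2
    rw [← locPoly_same v h3 w.1 w.2 (g2 w.1 w.2), (psi_place w.1 (h3w w)).2, hpsib, e1, e2,
      mul_inv, mul_comm]
  · -- inert
    have g3' : Fintype.card (Over F v) = 1 := by rw [← Nat.card_eq_fintype_card]; exact g3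
    have hsub : Subsingleton (Over F v) := Fintype.card_le_one_iff_subsingleton.mp g3'.le
    rw [← Finset.card_univ, Finset.card_eq_one] at g3'
    obtain ⟨w, huniv⟩ := g3'
    rw [huniv, Finset.prod_singleton]
    have i1 : w.1.asIdeal.IsPrime := w.1.isPrime
    have i2 : w.1.asIdeal.LiesOver v.asIdeal := ⟨w.2.symm⟩
    have hfix : σ₀ • w.1.asIdeal = w.1.asIdeal := by
      have j1 : (σ₀ • w.1.asIdeal).IsPrime := inferInstance
      have j2 : (σ₀ • w.1.asIdeal).LiesOver v.asIdeal := inferInstance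
      have j3 : σ₀ • w.1.asIdeal ≠ ⊥ := under_ne_bot v _ j2.over.symm
      have j4 : (⟨⟨σ₀ • w.1.asIdeal, j1, j3⟩, j2.over.symm⟩ : Over F v) = w :=
        Subsingleton.elim _ _
      exact congrArg (fun z : Over F v => z.1.asIdeal) j4
    have hpsi := psiC_conj σ₀ hσ₀ w.1 w.1 hfix.symm rfl
    have hn2 := g2 w.1 w.2
    have hprod := (psi_place w.1 (h3w w)).1
    rw [← hpsi, hn2] at hprod
    -- the two possibilities
    have hcases : psi F w.1.asIdeal = (nrm v : 𝓞 K) ∨ psi F w.1.asIdeal = -(nrm v : 𝓞 K) := by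
      have hinj : Function.Injective fun x : 𝓞 K => embK (x : K) :=
        embK.toRingHom.injective.comp RingOfIntegers.coe_injective
      have h5 : psi F w.1.asIdeal ^ 2 = (nrm v : 𝓞 K) ^ 2 := by
        apply hinj
        change embK (algebraMap (𝓞 K) K (psi F w.1.asIdeal ^ 2)) =
          embK (algebraMap (𝓞 K) K ((nrm v : 𝓞 K) ^ 2))
        rw [map_pow, map_pow, map_pow, map_pow, map_natCast, map_natCast]
        have h6 : embK (algebraMap (𝓞 K) K (psi F w.1.asIdeal)) = psiC F w.1.asIdeal := rfl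
        rw [h6, sq, hprod]
        push_cast
        ring
      exact sq_eq_sq_iff_eq_or_eq_neg.mp h5
    have hmod : (3 : 𝓞 K) ∣ psi F w.1.asIdeal - 1 := by
      obtain ⟨γ, k1, k2, _⟩ := exists_psi w.1 (h3w w)
      rw [psi, ← k2, psiK_span γ k1]
      exact k1
    have hfinv : Finite (IsLocalRing.ResidueField (v.adicCompletionIntegers N)) :=
      finite_residue v
    have hnpos : 0 < nrm v := Nat.card_pos
    have hneg : psi F w.1.asIdeal = -(nrm v : 𝓞 K) := by
      refine hcases.resolve_left fun h5 => ?_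
      apply g1
      rw [h5] at hmod
      have h6 : (nrm v : 𝓞 K) - 1 = ((nrm v - 1 : ℕ) : 𝓞 K) := by
        rw [Nat.cast_sub hnpos, Nat.cast_one]
      rw [h6, ← Ideal.span_singleton_le_span_singleton] at hmod
      have h7 := Ideal.absNorm_dvd_absNorm_of_le hmod
      have e3 := u4_absNorm_p (K := K) 3
      rw [Nat.cast_ofNat] at e3
      rw [e3, u4_absNorm_p] at h7
      exact (Nat.pow_dvd_pow_iff two_ne_zero).mp h7
    have hpsib : psibC F w.1.asIdeal = -(nrm v : ℂ) := by
      rw [psibC, psiC, hneg]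
      change (starRingEnd ℂ) (embK (algebraMap (𝓞 K) K (-(nrm v : 𝓞 K)))) = _
      rw [map_neg, map_neg, map_neg, map_natCast, map_natCast, map_natCast]
    have h3k : (3 : IsLocalRing.ResidueField (v.adicCompletionIntegers N)) ≠ 0 := by
      intro h
      apply h3
      have h4 : (3 : 𝓞 N) ∈ RingHom.ker (redMap N v) := by
        rw [RingHom.mem_ker, map_ofNat]; exact h
      rw [redMap_ker] at h4
      exact h4
    have hcnt := card_fermatCubic_of_two h3k g1
    rw [locPoly_model v h3, hcnt, hpsib]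
    congr 1
    have hn2' : Ideal.absNorm w.1.asIdeal = nrm v ^ 2 := by rw [← nrm_eq]; exact hn2
    have h8 : ((nrm v ^ 2 : ℕ) : ℂ) ^ (-s) = (nrm v : ℂ) ^ (-s) * (nrm v : ℂ) ^ (-s) := by
      rw [pow_two, Nat.cast_mul, Complex.natCast_mul_natCast_cpow]
    rw [hn2', h8]
    have h9 : ((Nat.card (IsLocalRing.ResidueField (v.adicCompletionIntegers N)) + 1 : ℕ) : ℤ) =
        (nrm v : ℤ) + 1 := by
      push_cast
      rfl
    rw [h9]
    simp only [sub_self, map_zero, zero_mul, sub_zero, map_add, map_one, map_mul, map_pow, aeval_X,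
      map_natCast]
    ring

/-- Theorem B, the L-series. -/
theorem LSeries_B (hL : Module.finrank N F = 2)
    (hn : ∀ x : N, algebraMap N F x ≠ algebraMap K F om)
    (h : NoCube3 N) (s : ℂ) (hs : 2 < s.re) : (E N).LSeries s = Lf (psibC F) s := by
  have h1 := (hasProd_Lf (psibC F) (psibC_one F) (psibC_mul F) (1 / 2) (by norm_num)
    norm_psibC_le s (by linarith)).2
  have h2 := hasProd_over (F := N) (F' := F) _ _ h1
  have he := hasProd_fac (E N) hs
  refine he.unique ?_
  have e : (fun v : HeightOneSpectrum (𝓞 N) => fac (E N) v s) = fun v => ∏ w : Over F v,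
      (1 - psibC F w.1.asIdeal * (Ideal.absNorm w.1.asIdeal : ℂ) ^ (-s))⁻¹ :=
    funext fun v => (euler_B hL hn h v s).symm
  rw [e]
  exact h2

end

end Pool.Agent.Lib.MP_1a91b9_ntT.S4
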