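import Pool.Agent.Lib.MP_1a91b9_ntT.S4.MainA
import Pool.Agent.Lib.MP_1a91b9_ntT.S4.FactorB

/-!
# S4: the L-series of `E` over a tower above `ℚ`
-/

set_option autoImplicit false

namespace Pool.Agent.Lib.MP_1a91b9_ntT.S4

open IsDedekindDomain NumberField Pool.Agent.Lib.MP_1a91b9_nt

universe u

theorem noCube3_towerQ (N : Type u) [Field N] [NumberField N] (h : Tower N) : NoCube3 N := by
  induction h with
  | base N hb =>
    refine NoCube3.up_le (N := ℚ) ?_ noCube3_rat
    have e : Module.finrank ℚ N = 1 := by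
      have := LinearEquiv.finrank_eq (LinearEquiv.ofBijective (Algebra.linearMap ℚ N) hb)
      rw [← this, Module.finrank_self]
    omega
  | step N N' δ hδ x hx hn hgen h ih =>
    exact NoCube3.up_le (finrank_step _ x hx hn hgen).le ih

/-- Theorem B, analytic part, for a field without primitive cube roots of unity. -/
theorem main_B {N F : Type u} [Field N] [NumberField N] [Field F] [NumberField F] [Algebra N F]
    [Algebra K F] (hL : Module.finrank N F = 2)
    (hn : ∀ x : N, algebraMap N F x ≠ algebraMap K F om) (h3 : NoCube3 N)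
    {Ω : ℂ} (hU : UnitProp Ω F) (hW : ∃ W : ValuationSubring ℂ, (2 : ℂ)⁻¹ ∉ W) :
    ∃ g : ℂ → ℂ, Differentiable ℂ g ∧ (∀ s : ℂ, 2 < s.re → g s = (E N).LSeries s) ∧ g 1 ≠ 0 := by
  obtain ⟨L, hL1, hL2, hLW⟩ := hU
  obtain ⟨W, hW⟩ := hW
  exact ⟨L, hL1, fun s hs => by rw [hL2 s hs, LSeries_B hL hn h3 s hs],
    UnitProp.ne_zero (hLW W hW)⟩

end Pool.Agent.Lib.MP_1a91b9_ntT.S4
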