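import Pool.Agent.Lib.MP_1a91b9_ntT.S4.Family

/-!
# S4: the base field
-/

set_option autoImplicit false

namespace Pool.Agent.Lib.MP_1a91b9_ntT.S4

open IsDedekindDomain NumberField Pool.Agent.Lib.MP_1a91b9_nt

universe u

/-- The value for the base field (stream S6). -/
def BaseVal (Ω : ℂ) (F : Type u) [Field F] [NumberField F] [Algebra K F] : Prop :=
  ∃ A : ℂ → ℂ, Differentiable ℂ A ∧
    (∀ R, IsRep (Ideal.span {(3 : 𝓞 F)}) 1 1 R → ∀ s : ℂ, 2 < s.re →
      HasSum (fun r : R => (starRingEnd ℂ) (Nm ((r : 𝓞 F) : F)) *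
        ((‖Nm ((r : 𝓞 F) : F)‖ : ℝ) : ℂ) ^ (-2 * s)) (A s)) ∧
    ∀ W : ValuationSubring ℂ, (2 : ℂ)⁻¹ ∉ W → W.valuation (A 1 / Ω ^ (Module.finrank K F)) = 1

section
variable {F : Type u} [Field F] [NumberField F] [Algebra K F]

theorem bij_integers (h : Function.Bijective (algebraMap K F)) :
    Function.Bijective (algebraMap (𝓞 K) (𝓞 F)) := by
  refine ⟨FaithfulSMul.algebraMap_injective _ _, fun z => ?_⟩
  obtain ⟨y, hy⟩ := h.2 (z : F)
  have hint : IsIntegral ℤ y := by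
    have h1 : IsIntegral ℤ (algebraMap K F y) := by
      rw [hy]; exact RingOfIntegers.isIntegral_coe _
    exact (isIntegral_algebraMap_iff h.1).mp h1
  exact ⟨⟨y, hint⟩, RingOfIntegers.ext hy⟩

theorem base_unit (h : Function.Bijective (algebraMap K F)) (u : (𝓞 F)ˣ)
    (hu : (3 : 𝓞 F) ∣ (u : 𝓞 F) - 1) : u = 1 := by
  let e : 𝓞 K ≃+* 𝓞 F := RingEquiv.ofBijective _ (bij_integers h)
  have h1 : (3 : 𝓞 K) ∣ ((Units.map e.symm.toMonoidHom u : (𝓞 K)ˣ) : 𝓞 K) - 1 := by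
    obtain ⟨c, hc⟩ := hu
    refine ⟨e.symm c, ?_⟩
    change e.symm (u : 𝓞 F) - 1 = 3 * e.symm c
    rw [← map_one e.symm, ← map_sub, hc, map_mul, map_ofNat]
  have h2 := unit_eq_one _ h1
  have h3 := congrArg (fun x : (𝓞 K)ˣ => e (x : 𝓞 K)) h2
  apply Units.ext
  have h4 : e (e.symm (u : 𝓞 F)) = e 1 := h3
  rw [e.apply_symm_apply, map_one] at h4
  exact h4

theorem base_gen (h : Function.Bijective (algebraMap K F)) (I : Ideal (𝓞 F))
    (hI : IsCoprime I (Ideal.span {(3 : 𝓞 F)})) :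
    ∃ a : 𝓞 F, (3 : 𝓞 F) ∣ a - 1 ∧ Ideal.span {a} = I := by
  let e : 𝓞 K ≃+* 𝓞 F := RingEquiv.ofBijective _ (bij_integers h)
  have h1 : IsCoprime (I.map e.symm.toRingHom) (Ideal.span {(3 : 𝓞 K)}) := by
    obtain ⟨x, hx, y, hy, hxy⟩ := Ideal.isCoprime_iff_exists.mp hI
    rw [Ideal.isCoprime_iff_exists]
    refine ⟨e.symm x, Ideal.mem_map_of_mem _ hx, e.symm y, ?_, ?_⟩
    · rw [Ideal.mem_span_singleton] at hy ⊢
      obtain ⟨c, hc⟩ := hy
      exact ⟨e.symm c, by rw [hc, map_mul, map_ofNat]⟩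
    · rw [← map_add, hxy, map_one]
  obtain ⟨a, ⟨c, hc⟩, ha⟩ := exists_gen _ h1
  refine ⟨e a, ⟨e c, ?_⟩, ?_⟩
  · rw [← map_one e, ← map_sub, hc, map_mul, map_ofNat]
  · have h2 : Ideal.map e.toRingHom (Ideal.span {a}) = Ideal.span {e a} := by
      rw [Ideal.map_span, Set.image_singleton]
      rfl
    rw [← h2, ha, Ideal.map_map]
    have h3 : e.toRingHom.comp e.symm.toRingHom = RingHom.id _ := by
      ext x
      simp
    rw [h3, Ideal.map_id]

/-- the base case -/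
theorem base_main (h : Function.Bijective (algebraMap K F)) {Ω : ℂ} (hB : BaseVal Ω F) :
    UnitProp Ω F := by
  obtain ⟨A, hAd, hA, hAW⟩ := hB
  refine ⟨A, hAd, fun s hs => ?_, hAW⟩
  set R : Set (𝓞 F) := {z | (3 : 𝓞 F) ∣ z - 1} with hR
  have hrep : IsRep (Ideal.span {(3 : 𝓞 F)}) 1 1 R := by
    refine ⟨fun r hr => ?_, fun z hz => ?_, fun r hr r' hr' u hu hrr => ?_⟩
    · rw [mul_one, Ideal.mem_span_singleton]
      exact hr
    · rw [mul_one, Ideal.mem_span_singleton] at hz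
      exact ⟨1, by simp, z, hz, by simp⟩
    · rw [Ideal.mem_span_singleton] at hu
      rw [base_unit h u hu, Units.val_one, one_mul] at hrr
      exact hrr.symm
  have hsum := hA R hrep s hs
  -- the bijection with the ideals coprime to `3`
  obtain ⟨ε, hε⟩ := psi_span (1 : 𝓞 F) (by
    rw [Ideal.span_singleton_one, ← Ideal.one_eq_top]
    exact isCoprime_one_left)
  have hε1 : (ε : 𝓞 K) = 1 := by
    have h1 := hε 1 (by simp)
    rw [Ideal.span_singleton_one, ← Ideal.one_eq_top, psi_one, nK_one, mul_one] at h1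
    exact h1.symm
  have hR0 : ∀ r ∈ R, r ≠ 0 := by
    rintro r hr rfl
    have h1 : (3 : 𝓞 F) ∣ 0 - 1 := hr
    rw [zero_sub, dvd_neg] at h1
    exact three_not_unit (isUnit_of_dvd_one h1)
  set f : Ideal (𝓞 F) → ℂ := fun I => psibC F I * (Ideal.absNorm I : ℂ) ^ (-s) with hf
  have hterm : ∀ r : R, (starRingEnd ℂ) (Nm ((r : 𝓞 F) : F)) *
        ((‖Nm ((r : 𝓞 F) : F)‖ : ℝ) : ℂ) ^ (-2 * s) = f (Ideal.span {(r : 𝓞 F)}) := by
    intro r
    rw [hf]
    change _ = psibC F _ * _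
    rw [absNorm_cpow _ (hR0 _ r.2), psibC, psiC, hε _ r.2, hε1, one_mul, embK_nK]
  have hinj : Function.Injective fun r : R => Ideal.span {(r : 𝓞 F)} := by
    intro r r' hrr
    have hrr' : Ideal.span {(r : 𝓞 F)} = Ideal.span {(r' : 𝓞 F)} := hrr
    rw [Ideal.span_singleton_eq_span_singleton] at hrr'
    obtain ⟨u, hu⟩ := hrr'
    apply Subtype.ext
    have h3 : (3 : 𝓞 F) ∣ (u : 𝓞 F) - 1 := by
      have e : (u : 𝓞 F) - 1 = ((r' : 𝓞 F) - 1) - ((r : 𝓞 F) - 1) * u := by rw [← hu]; ring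
      rw [e]
      exact dvd_sub r'.2 (Dvd.dvd.mul_right r.2 _)
    rw [base_unit h u h3, Units.val_one, mul_one] at hu
    exact hu
  have hsupp : Function.support f ⊆ Set.range fun r : R => Ideal.span {(r : 𝓞 F)} := by
    intro I hI
    by_cases hc : IsCoprime I (Ideal.span {(3 : 𝓞 F)})
    · obtain ⟨a, ha, rfl⟩ := base_gen h I hc
      exact ⟨⟨a, ha⟩, rfl⟩
    · exfalso
      apply hI
      change psibC F I * _ = 0
      have hpsi : psi F I = 0 := by
        by_contra h0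
        apply hc
        have hcK : IsCoprime (Ideal.relNorm (𝓞 K) I) (Ideal.span {(3 : 𝓞 K)}) := by
          by_contra h1
          exact h0 (psiK_of_not_coprime _ h1)
        -- push up
        obtain ⟨x, hx, y, hy, hxy⟩ := Ideal.isCoprime_iff_exists.mp hcK
        rw [Ideal.isCoprime_iff_exists]
        refine ⟨algebraMap (𝓞 K) (𝓞 F) x, ?_, algebraMap (𝓞 K) (𝓞 F) y, ?_, ?_⟩
        · exact Ideal.relNorm_le_comap (𝓞 K) I hx
        · rw [Ideal.mem_span_singleton] at hy ⊢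
          obtain ⟨c, hc⟩ := hy
          exact ⟨algebraMap _ _ c, by rw [hc, map_mul, map_ofNat]⟩
        · rw [← map_add, hxy, map_one]
      rw [psibC, psiC, hpsi]
      simp
  rw [Lf]
  symm
  refine HasSum.tsum_eq ?_
  rw [← hinj.hasSum_iff (f := f) (fun I hI => by
    by_contra h0
    exact hI (hsupp h0))]
  have e : (fun r : R => (starRingEnd ℂ) (Nm ((r : 𝓞 F) : F)) *
        ((‖Nm ((r : 𝓞 F) : F)‖ : ℝ) : ℂ) ^ (-2 * s)) =
      f ∘ fun r : R => Ideal.span {(r : 𝓞 F)} := funext hterm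
  rw [← e]
  exact hsum

end

end Pool.Agent.Lib.MP_1a91b9_ntT.S4
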