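import Pool.Agent.Lib.MP_1a91b9_ntT.Base

/-!
# S1/S4: completely multiplicative functions on ideals, and the interface of the reciprocity law
-/

set_option autoImplicit false

namespace Pool.Agent.Lib.MP_1a91b9_ntT

open NumberField IsDedekindDomain UniqueFactorizationMonoid

section
variable {F : Type*} [Field F] [NumberField F]

open Classical in
/-- the value at an ideal which is a place -/
noncomputable def atIdeal (χ : HeightOneSpectrum (𝓞 F) → ℤ) (P : Ideal (𝓞 F)) : ℤ :=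
  if h : P.IsPrime ∧ P ≠ ⊥ then χ ⟨P, h.1, h.2⟩ else 0

open Classical in
/-- the completely multiplicative extension to ideals -/
noncomputable def chiI (χ : HeightOneSpectrum (𝓞 F) → ℤ) (I : Ideal (𝓞 F)) : ℤ :=
  if I = 0 then 0 else ((normalizedFactors I).map (atIdeal χ)).prod

theorem atIdeal_place (χ : HeightOneSpectrum (𝓞 F) → ℤ) (v : HeightOneSpectrum (𝓞 F)) :
    atIdeal χ v.asIdeal = χ v := by
  rw [atIdeal, dif_pos ⟨v.isPrime, v.ne_bot⟩]

theorem chiI_zero (χ : HeightOneSpectrum (𝓞 F) → ℤ) : chiI χ 0 = 0 := by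
  rw [chiI, if_pos rfl]

theorem chiI_one (χ : HeightOneSpectrum (𝓞 F) → ℤ) : chiI χ 1 = 1 := by
  rw [chiI, if_neg one_ne_zero, normalizedFactors_one]
  rfl

theorem chiI_mul (χ : HeightOneSpectrum (𝓞 F) → ℤ) (I J : Ideal (𝓞 F)) :
    chiI χ (I * J) = chiI χ I * chiI χ J := by
  by_cases hI : I = 0
  · rw [hI, zero_mul, chiI_zero, zero_mul]
  by_cases hJ : J = 0
  · rw [hJ, mul_zero, chiI_zero, mul_zero]
  rw [chiI, chiI, chiI, if_neg hI, if_neg hJ, if_neg (mul_ne_zero hI hJ),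
    normalizedFactors_mul hI hJ, Multiset.map_add, Multiset.prod_add]

theorem chiI_place (χ : HeightOneSpectrum (𝓞 F) → ℤ) (v : HeightOneSpectrum (𝓞 F)) :
    chiI χ v.asIdeal = χ v := by
  rw [chiI, if_neg v.prime.ne_zero, normalizedFactors_irreducible v.irreducible, Multiset.map_singleton,
    Multiset.prod_singleton, normalize_eq, atIdeal_place]

/-- two completely multiplicative functions which agree at the prime factors agree -/
theorem chiI_congr (χ χ' : HeightOneSpectrum (𝓞 F) → ℤ) (I : Ideal (𝓞 F))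
    (h : ∀ v : HeightOneSpectrum (𝓞 F), I ≤ v.asIdeal → χ v = χ' v) : chiI χ I = chiI χ' I := by
  by_cases hI : I = 0
  · rw [hI, chiI_zero, chiI_zero]
  rw [chiI, chiI, if_neg hI, if_neg hI]
  congr 1
  refine Multiset.map_congr rfl fun P hP => ?_
  have hprime := prime_of_normalized_factor P hP
  have hdvd := dvd_of_mem_normalizedFactors hP
  have hp : P.IsPrime := Ideal.isPrime_of_prime hprime
  rw [atIdeal, atIdeal, dif_pos ⟨hp, hprime.ne_zero⟩, dif_pos ⟨hp, hprime.ne_zero⟩]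
  exact h _ (Ideal.le_of_dvd hdvd)

/-- The values of the quadratic character of `d` at the places not above `2`. -/
structure IsChi (d : 𝓞 F) (χ : HeightOneSpectrum (𝓞 F) → ℤ) : Prop where
  odd : ∀ v : HeightOneSpectrum (𝓞 F), (2 : 𝓞 F) ∉ v.asIdeal → OddAt v d → χ v = 0
  sq : ∀ v : HeightOneSpectrum (𝓞 F), (2 : 𝓞 F) ∉ v.asIdeal → ∀ (α : F) (d' : 𝓞 F), α ≠ 0 →
    (d' : F) = d * α ^ 2 → d' ∉ v.asIdeal → IsSquare (Ideal.Quotient.mk v.asIdeal d') → χ v = 1
  nsq : ∀ v : HeightOneSpectrum (𝓞 F), (2 : 𝓞 F) ∉ v.asIdeal → ∀ (α : F) (d' : 𝓞 F), α ≠ 0 →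
    (d' : F) = d * α ^ 2 → d' ∉ v.asIdeal → ¬ IsSquare (Ideal.Quotient.mk v.asIdeal d') → χ v = -1

/-- The interface of the reciprocity law (stream S1). -/
def Reciprocity (d : 𝓞 F) (χ : HeightOneSpectrum (𝓞 F) → ℤ) : Prop :=
  ∀ z z' : 𝓞 F, IsCoprime z 2 → IsCoprime z' 2 →
    (∀ v : HeightOneSpectrum (𝓞 F), OddAt v d → z ∉ v.asIdeal ∧ z - z' ∈ v.asIdeal) →
    chiI χ (Ideal.span {z}) = chiI χ (Ideal.span {z'})

end

end Pool.Agent.Lib.MP_1a91b9_ntT
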