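import Pool.Agent.Lib.MP_1a91b9_ntT.S4.LProd
import Pool.Agent.Lib.MP_1a91b9_ntT.S4.Quad
import Pool.Agent.Lib.MP_1a91b9_ntT.S4.IdealMul

/-!
# S4: comparison of L-series which differ at finitely many places; the quadratic step
-/

set_option autoImplicit false

namespace Pool.Agent.Lib.MP_1a91b9_ntT.S4

open NumberField IsDedekindDomain Pool.Agent.Lib.MP_1a91b9_nt

universe u

section
variable {F : Type u} [Field F] [NumberField F]

/-- the Euler factor does not vanish -/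
theorem euler_ne_zero (f : Ideal (𝓞 F) → ℂ) (hf : ∀ I, ‖f I‖ ≤ (Ideal.absNorm I : ℝ) ^ (1 / 2 : ℝ))
    (v : HeightOneSpectrum (𝓞 F)) (s : ℂ) (hs : 1 / 2 < s.re) :
    1 - f v.asIdeal * (Ideal.absNorm v.asIdeal : ℂ) ^ (-s) ≠ 0 := by
  intro h
  have h1 : f v.asIdeal * (Ideal.absNorm v.asIdeal : ℂ) ^ (-s) = 1 := (sub_eq_zero.mp h).symm
  have hN2 : 2 ≤ Ideal.absNorm v.asIdeal := by
    have := finite_residue v
    rw [← nrm_eq]
    exact Finite.one_lt_card
  have hN : (1 : ℝ) < (Ideal.absNorm v.asIdeal : ℝ) := by exact_mod_cast hN2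
  have h2 := congrArg norm h1
  rw [norm_mul, Complex.norm_natCast_cpow_of_pos (by omega), norm_one] at h2
  have h3 : ‖f v.asIdeal‖ * (Ideal.absNorm v.asIdeal : ℝ) ^ (-s).re ≤
      (Ideal.absNorm v.asIdeal : ℝ) ^ (1 / 2 : ℝ) * (Ideal.absNorm v.asIdeal : ℝ) ^ (-s).re :=
    mul_le_mul_of_nonneg_right (hf _) (by positivity)
  rw [h2, ← Real.rpow_add (by linarith)] at h3
  have h4 : (Ideal.absNorm v.asIdeal : ℝ) ^ (1 / 2 + (-s).re) < 1 := by
    refine Real.rpow_lt_one_of_one_lt_of_neg hN ?_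
    rw [Complex.neg_re]
    linarith
  linarith

/-- L-series of functions which differ at finitely many places -/
theorem compare_Lf (f g : Ideal (𝓞 F) → ℂ) (f1 : f 1 = 1) (fmul : ∀ I J, f (I * J) = f I * f J)
    (hf : ∀ I, ‖f I‖ ≤ (Ideal.absNorm I : ℝ) ^ (1 / 2 : ℝ))
    (g1 : g 1 = 1) (gmul : ∀ I J, g (I * J) = g I * g J)
    (hg : ∀ I, ‖g I‖ ≤ (Ideal.absNorm I : ℝ) ^ (1 / 2 : ℝ))
    (S : Finset (HeightOneSpectrum (𝓞 F))) (hS : ∀ v ∉ S, f v.asIdeal = g v.asIdeal)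
    (s : ℂ) (hs : 2 < s.re) :
    Lf f s * ∏ v ∈ S, (1 - f v.asIdeal * (Ideal.absNorm v.asIdeal : ℂ) ^ (-s)) =
      Lf g s * ∏ v ∈ S, (1 - g v.asIdeal * (Ideal.absNorm v.asIdeal : ℂ) ^ (-s)) := by
  classical
  have key : ∀ f : Ideal (𝓞 F) → ℂ, f 1 = 1 → (∀ I J, f (I * J) = f I * f J) →
      (∀ I, ‖f I‖ ≤ (Ideal.absNorm I : ℝ) ^ (1 / 2 : ℝ)) →
      HasProd (fun v : HeightOneSpectrum (𝓞 F) => if v ∈ S then (1 : ℂ) else
        (1 - f v.asIdeal * (Ideal.absNorm v.asIdeal : ℂ) ^ (-s))⁻¹)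
        (Lf f s * ∏ v ∈ S, (1 - f v.asIdeal * (Ideal.absNorm v.asIdeal : ℂ) ^ (-s))) := by
    intro f f1 fmul hf
    have h1 := (hasProd_Lf f f1 fmul (1 / 2) (by norm_num) hf s (by linarith)).2
    have h2 : HasProd (fun v : HeightOneSpectrum (𝓞 F) => if v ∈ S then
        (1 - f v.asIdeal * (Ideal.absNorm v.asIdeal : ℂ) ^ (-s)) else 1)
        (∏ v ∈ S, (if v ∈ S then (1 - f v.asIdeal * (Ideal.absNorm v.asIdeal : ℂ) ^ (-s)) else 1)) :=
      hasProd_prod_of_ne_finset_one fun v hv => if_neg hv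
    have e1 : ∏ v ∈ S, (if v ∈ S then
        (1 - f v.asIdeal * (Ideal.absNorm v.asIdeal : ℂ) ^ (-s)) else 1) =
        ∏ v ∈ S, (1 - f v.asIdeal * (Ideal.absNorm v.asIdeal : ℂ) ^ (-s)) :=
      Finset.prod_congr rfl fun v hv => if_pos hv
    rw [e1] at h2
    have h3 := h1.mul h2
    have e2 : (fun v : HeightOneSpectrum (𝓞 F) =>
        (1 - f v.asIdeal * (Ideal.absNorm v.asIdeal : ℂ) ^ (-s))⁻¹ * (if v ∈ S then
        (1 - f v.asIdeal * (Ideal.absNorm v.asIdeal : ℂ) ^ (-s)) else 1)) =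
        fun v => if v ∈ S then (1 : ℂ) else
        (1 - f v.asIdeal * (Ideal.absNorm v.asIdeal : ℂ) ^ (-s))⁻¹ := by
      funext v
      by_cases hv : v ∈ S
      · rw [if_pos hv, if_pos hv, inv_mul_cancel₀ (euler_ne_zero f hf v s (by linarith))]
      · rw [if_neg hv, if_neg hv, mul_one]
    rw [← e2]
    exact h3
  have hF := key f f1 fmul hf
  have hG := key g g1 gmul hg
  refine hF.unique ?_
  have e : (fun v : HeightOneSpectrum (𝓞 F) => if v ∈ S then (1 : ℂ) else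
        (1 - f v.asIdeal * (Ideal.absNorm v.asIdeal : ℂ) ^ (-s))⁻¹) = fun v => if v ∈ S then (1 : ℂ)
        else (1 - g v.asIdeal * (Ideal.absNorm v.asIdeal : ℂ) ^ (-s))⁻¹ := by
    funext v
    by_cases hv : v ∈ S
    · rw [if_pos hv, if_pos hv]
    · rw [if_neg hv, if_neg hv, hS v hv]
  rw [e]
  exact hG

/-- the values of the multiplicative extension -/
theorem chiI_cases (χ : HeightOneSpectrum (𝓞 F) → ℤ) (h : ∀ v, χ v = 0 ∨ χ v = 1 ∨ χ v = -1)
    (I : Ideal (𝓞 F)) : chiI χ I = 0 ∨ chiI χ I = 1 ∨ chiI χ I = -1 := by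
  by_cases hI : I = 0
  · rw [hI, chiI_zero]; exact Or.inl rfl
  induction I using UniqueFactorizationMonoid.induction_on_prime with
  | h₁ => exact absurd rfl hI
  | h₂ J hJ =>
    have : J = 1 := by
      rw [Ideal.isUnit_iff] at hJ
      rw [hJ, Ideal.one_eq_top]
    rw [this, chiI_one]; exact Or.inr (Or.inl rfl)
  | h₃ J P hJ hP ih =>
    rw [chiI_mul]
    have e : P = (⟨P, Ideal.isPrime_of_prime hP, hP.ne_zero⟩ : HeightOneSpectrum (𝓞 F)).asIdeal := rfl
    rw [e, chiI_place]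
    rcases h ⟨P, Ideal.isPrime_of_prime hP, hP.ne_zero⟩ with h1 | h1 | h1 <;>
      rcases ih hJ with h2 | h2 | h2 <;> rw [h1, h2] <;> simp

/-- the values are `±1` on the ideals all of whose prime factors have value `±1` -/
theorem chiI_pm (χ : HeightOneSpectrum (𝓞 F) → ℤ) (I : Ideal (𝓞 F)) (hI : I ≠ 0)
    (h : ∀ v : HeightOneSpectrum (𝓞 F), v.asIdeal ∣ I → χ v = 1 ∨ χ v = -1) :
    chiI χ I = 1 ∨ chiI χ I = -1 := by
  induction I using UniqueFactorizationMonoid.induction_on_prime with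
  | h₁ => exact absurd rfl hI
  | h₂ J hJ =>
    have : J = 1 := by
      rw [Ideal.isUnit_iff] at hJ
      rw [hJ, Ideal.one_eq_top]
    rw [this, chiI_one]; exact Or.inl rfl
  | h₃ J P hJ hP ih =>
    rw [chiI_mul]
    have e : P = (⟨P, Ideal.isPrime_of_prime hP, hP.ne_zero⟩ : HeightOneSpectrum (𝓞 F)).asIdeal := rfl
    have h1 := h ⟨P, Ideal.isPrime_of_prime hP, hP.ne_zero⟩ (dvd_mul_right _ _)
    have h2 := ih hJ fun v hv => h v (Dvd.dvd.mul_left hv _)
    rw [e, chiI_place]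
    rcases h1 with h1 | h1 <;> rcases h2 with h2 | h2 <;> rw [h1, h2] <;> simp

end

section
variable {F F' : Type u} [Field F] [NumberField F] [Field F'] [NumberField F'] [Algebra F F']
  [Algebra K F] [Algebra K F'] [IsScalarTower K F F']

omit [Algebra K F] [Algebra K F'] [IsScalarTower K F F'] in
theorem splitChar_cases (v : HeightOneSpectrum (𝓞 F)) :
    splitChar F' v = 0 ∨ splitChar F' v = 1 ∨ splitChar F' v = -1 := by
  rw [splitChar]
  split_ifs
  · exact Or.inr (Or.inl rfl)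
  · exact Or.inr (Or.inr rfl)
  · exact Or.inl rfl

variable (F') in
/-- `ψbar_F χ` for the splitting character of `F'/F` -/
noncomputable def psibChi (I : Ideal (𝓞 F)) : ℂ := psibC F I * (chiI (splitChar F') I : ℂ)

omit [Algebra K F'] [IsScalarTower K F F'] in
theorem psibChi_one : psibChi F' (1 : Ideal (𝓞 F)) = 1 := by
  rw [psibChi, psibC_one, chiI_one, Int.cast_one, mul_one]

omit [Algebra K F'] [IsScalarTower K F F'] in
theorem psibChi_mul (I J : Ideal (𝓞 F)) :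
    psibChi F' (I * J) = psibChi F' I * psibChi F' J := by
  rw [psibChi, psibC_mul, chiI_mul, psibChi, psibChi, Int.cast_mul]
  ring

theorem norm_mul_sign_le (I : Ideal (𝓞 F)) (x : ℤ) (hx : x = 0 ∨ x = 1 ∨ x = -1) :
    ‖psibC F I * (x : ℂ)‖ ≤ (Ideal.absNorm I : ℝ) ^ (1 / 2 : ℝ) := by
  have h := norm_psibC_le (F := F) I
  rcases hx with rfl | rfl | rfl
  · rw [Int.cast_zero, mul_zero, norm_zero]
    positivity
  · rw [Int.cast_one, mul_one]; exact h
  · rw [Int.cast_neg, Int.cast_one, mul_neg, mul_one, norm_neg]; exact h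

omit [Algebra K F'] [IsScalarTower K F F'] in
theorem norm_psibChi_le (I : Ideal (𝓞 F)) :
    ‖psibChi F' I‖ ≤ (Ideal.absNorm I : ℝ) ^ (1 / 2 : ℝ) :=
  norm_mul_sign_le I _ (chiI_cases _ splitChar_cases I)

/-- `L(ψbar_{F'}, s) = L(ψbar_F, s) L(ψbar_F χ, s)` -/
theorem step_Lf (hL : Module.finrank F F' = 2) (s : ℂ) (hs : 2 < s.re) :
    Lf (psibC F') s = Lf (psibC F) s * Lf (psibChi (F := F) F') s := by
  have h1 := (hasProd_Lf (psibC F') (psibC_one F') (psibC_mul F') (1 / 2) (by norm_num)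
    norm_psibC_le s (by linarith)).2
  have h2 := hasProd_over (F := F) (F' := F') _ _ h1
  have h3 := (hasProd_Lf (psibC F) (psibC_one F) (psibC_mul F) (1 / 2) (by norm_num)
    norm_psibC_le s (by linarith)).2
  have h4 := (hasProd_Lf (psibChi (F := F) F') psibChi_one psibChi_mul (1 / 2) (by norm_num)
    norm_psibChi_le s (by linarith)).2
  refine h2.unique ?_
  have e : (fun v : HeightOneSpectrum (𝓞 F) => ∏ w : Over F' v,
      (1 - psibC F' w.1.asIdeal * (Ideal.absNorm w.1.asIdeal : ℂ) ^ (-s))⁻¹) = fun v =>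
      (1 - psibC F v.asIdeal * (Ideal.absNorm v.asIdeal : ℂ) ^ (-s))⁻¹ *
      (1 - psibChi (F := F) F' v.asIdeal * (Ideal.absNorm v.asIdeal : ℂ) ^ (-s))⁻¹ := by
    funext v
    rw [euler_quad hL v s, psibChi, chiI_place, mul_comm (psibC F v.asIdeal) (splitChar F' v : ℂ)]
  rw [e]
  exact h3.mul h4

end

end Pool.Agent.Lib.MP_1a91b9_ntT.S4
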