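import Pool.Agent.Lib.MP_1a91b9_ntT.S4.SplitChi

/-!
# S4: `F(√δ)/F` is unramified at the dyadic places when `δ` is a square modulo `4`
-/

set_option autoImplicit false

namespace Pool.Agent.Lib.MP_1a91b9_ntT.S4

open IsDedekindDomain NumberField Pool.Agent.Lib.MP_1a91b9_nt

universe u

section
variable {F F' : Type u} [Field F] [NumberField F] [Field F'] [NumberField F'] [Algebra F F']

omit [NumberField F] [NumberField F'] in
theorem finrank_step (c : F) (x : F') (hx : x ^ 2 = algebraMap F F' c)
    (hn : ¬ ∃ y : F, algebraMap F F' y = x)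
    (hgen : ∀ z : F', ∃ a b : F, z = algebraMap F F' a + algebraMap F F' b * x) :
    Module.finrank F F' = 2 := by
  have hli : LinearIndependent F ![(1 : F'), x] := by
    rw [LinearIndependent.pair_iff]
    intro s t h
    rw [Algebra.smul_def, Algebra.smul_def, mul_one] at h
    by_cases ht : t = 0
    · rw [ht, map_zero, zero_mul, add_zero] at h
      exact ⟨(map_eq_zero _).mp h, ht⟩
    · exfalso
      apply hn
      have ht' : algebraMap F F' t ≠ 0 := fun h0 => ht ((map_eq_zero _).mp h0)
      refine ⟨-s / t, ?_⟩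
      rw [map_div₀, map_neg, div_eq_iff ht']
      linear_combination -h
  have hsp : ⊤ ≤ Submodule.span F (Set.range ![(1 : F'), x]) := by
    intro z _
    obtain ⟨a, b, hz⟩ := hgen z
    rw [hz, Matrix.range_cons, Matrix.range_cons, Matrix.range_empty, Set.union_empty,
      Set.singleton_union, Submodule.mem_span_pair]
    exact ⟨a, b, by rw [Algebra.smul_def, Algebra.smul_def, mul_one]⟩
  have hb := Module.finrank_eq_card_basis (Module.Basis.mk hli hsp)
  rw [hb, Fintype.card_fin]

/-- unramified at the dyadic places -/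
theorem splitChar_dyadic (hL : Module.finrank F F' = 2) (δ a b : 𝓞 F) (hab : δ = a ^ 2 + 4 * b)
    (x : F') (hx : x ^ 2 = algebraMap F F' δ)
    (hgen : ∀ z : F', ∃ a b : F, z = algebraMap F F' a + algebraMap F F' b * x)
    (v : HeightOneSpectrum (𝓞 F)) (hδv : δ ∉ v.asIdeal) :
    splitChar F' v = 1 ∨ splitChar F' v = -1 := by
  have hquad : Algebra.IsQuadraticExtension F F' := ⟨hL⟩
  have hgal : IsGalois F F' := inferInstance
  have hvp : v.asIdeal.IsPrime := v.isPrime
  have hvm : v.asIdeal.IsMaximal := v.isMaximal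
  have hcard : Nat.card Gal(F'/F) = 2 := by
    rw [IsGalois.card_aut_eq_finrank, hL]
  -- the integral elements
  have hint : IsIntegral ℤ x := by
    have h1 : IsIntegral ℤ (x ^ 2) := by
      rw [hx, ← IsScalarTower.algebraMap_apply, IsScalarTower.algebraMap_apply (𝓞 F) (𝓞 F') F']
      exact RingOfIntegers.isIntegral_coe _
    exact h1.of_pow two_pos
  let X : 𝓞 F' := ⟨x, hint⟩
  have hX : X ^ 2 = algebraMap (𝓞 F) (𝓞 F') δ := by
    apply RingOfIntegers.ext
    change x ^ 2 = _
    rw [hx]
    rfl
  set A : F' := algebraMap F F' (algebraMap (𝓞 F) F a) with hA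
  set B : F' := algebraMap F F' (algebraMap (𝓞 F) F b) with hB
  have hAint : IsIntegral ℤ A := by
    rw [hA, ← IsScalarTower.algebraMap_apply, IsScalarTower.algebraMap_apply (𝓞 F) (𝓞 F') F']
    exact RingOfIntegers.isIntegral_coe _
  have hBint : IsIntegral ℤ B := by
    rw [hB, ← IsScalarTower.algebraMap_apply, IsScalarTower.algebraMap_apply (𝓞 F) (𝓞 F') F']
    exact RingOfIntegers.isIntegral_coe _
  have hx2 : x ^ 2 = A ^ 2 + 4 * B := by
    rw [hx, hab, hA, hB]
    change algebraMap F F' (algebraMap (𝓞 F) F (a ^ 2 + 4 * b)) = _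
    simp only [map_add, map_mul, map_pow, map_ofNat]
  have hYint : IsIntegral ℤ ((x + A) / 2) := by
    -- `y (y - A) = B`
    have hy : ((x + A) / 2) * ((x + A) / 2) - A * ((x + A) / 2) = B := by
      field_simp
      linear_combination hx2
    -- integral over the integral closure
    have h1 : IsIntegral (integralClosure ℤ F') ((x + A) / 2) := by
      let A' : integralClosure ℤ F' := ⟨A, hAint⟩
      let B' : integralClosure ℤ F' := ⟨B, hBint⟩
      refine ⟨Polynomial.X ^ 2 - Polynomial.C A' * Polynomial.X - Polynomial.C B', ?_, ?_⟩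
      · have : (Polynomial.X ^ 2 - Polynomial.C A' * Polynomial.X - Polynomial.C B') =
          Polynomial.X ^ 2 + (-(Polynomial.C A' * Polynomial.X) - Polynomial.C B') := by ring
        rw [this]
        apply Polynomial.monic_X_pow_add
        compute_degree!
      · simp only [Polynomial.eval₂_sub, Polynomial.eval₂_mul, Polynomial.eval₂_pow,
          Polynomial.eval₂_X, Polynomial.eval₂_C]
        change ((x + A) / 2) ^ 2 - A * ((x + A) / 2) - B = 0
        linear_combination hy
    exact isIntegral_trans _ h1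
  let Y : 𝓞 F' := ⟨(x + A) / 2, hYint⟩
  obtain ⟨Q, hQ1, hQ2⟩ := (inferInstance : Nonempty (v.asIdeal.primesOver (𝓞 F')))
  have hfund := Ideal.ncard_primesOver_mul_card_inertia_mul_finrank (G := Gal(F'/F)) v.asIdeal Q
  rw [hcard] at hfund
  have htriv : Nat.card (Q.inertia Gal(F'/F)) = 1 := by
    rw [Nat.card_eq_one_iff_unique]
    refine ⟨⟨?_⟩, ⟨1⟩⟩
    have hone : ∀ g : Q.inertia Gal(F'/F), g.1 = 1 := by
      rintro ⟨g, hg⟩
      change g = 1
      have hgx : g x = x := by
        have h3 : (g x) ^ 2 = x ^ 2 := by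
          rw [← map_pow, hx, AlgEquiv.commutes]
        rcases sq_eq_sq_iff_eq_or_eq_neg.mp h3 with h4 | h4
        · exact h4
        · exfalso
          have h5 : g • Y - Y ∈ Q := hg Y
          have h6 : g • Y - Y = -X := by
            apply RingOfIntegers.ext
            change g ((x + A) / 2) - (x + A) / 2 = -x
            rw [map_div₀, map_add, h4, map_ofNat, hA, AlgEquiv.commutes]
            ring
          rw [h6, Ideal.neg_mem_iff] at h5
          have h7 : X ^ 2 ∈ Q := Ideal.pow_mem_of_mem _ h5 2 (by norm_num)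
          rw [hX] at h7
          apply hδv
          rw [hQ2.over]
          exact h7
      ext z
      obtain ⟨c, d, rfl⟩ := hgen z
      rw [map_add, map_mul, AlgEquiv.commutes, AlgEquiv.commutes, hgx]
      rfl
    intro g g'
    apply Subtype.ext
    rw [hone g, hone g']
  rw [htriv, mul_one] at hfund
  have hc : Fintype.card (Over F' v) = (v.asIdeal.primesOver (𝓞 F')).ncard := by
    rw [← card_over_eq, Nat.card_eq_fintype_card]
  by_cases h1 : (v.asIdeal.primesOver (𝓞 F')).ncard = 2
  · left
    rw [splitChar, if_pos (by rw [hc, h1])]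
  · right
    have hdvd : (v.asIdeal.primesOver (𝓞 F')).ncard ∣ 2 := ⟨_, hfund.symm⟩
    have h2 : (v.asIdeal.primesOver (𝓞 F')).ncard = 1 := by
      rcases (Nat.dvd_prime Nat.prime_two).mp hdvd with h | h
      · exact h
      · exact absurd h h1
    rw [h2, one_mul] at hfund
    rw [splitChar, if_neg (by rw [hc, h2]; norm_num), if_pos]
    intro w
    have i1 : w.1.asIdeal.IsPrime := w.1.isPrime
    have i2 : w.1.asIdeal.LiesOver v.asIdeal := ⟨w.2.symm⟩
    rw [← hfund, ← Ideal.inertiaDegIn_eq_inertiaDeg v.asIdeal w.1.asIdeal Gal(F'/F),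
      ← Ideal.inertiaDegIn_eq_inertiaDeg v.asIdeal Q Gal(F'/F)]

end

end Pool.Agent.Lib.MP_1a91b9_ntT.S4
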