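import Pool.Agent.Lib.MP_1a91b9_ntT.S4.PsiProps

/-!
# S4: the number of points is odd when `2` is not a cube
-/

set_option autoImplicit false

namespace Pool.Agent.Lib.MP_1a91b9_ntT.S4

open NumberField IsDedekindDomain Polynomial WeierstrassCurve Pool.Agent.Lib.MP_1a91b9_nt

theorem odd_card_fermat {k : Type*} [Field k] [Finite k] (h2 : (2 : k) ≠ 0)
    (hc : ∀ x : k, x ^ 3 ≠ 2) : Odd (Nat.card (fermatCubic k).toAffine.Point) := by
  classical
  by_contra hodd
  rw [Nat.not_odd_iff_even] at hodd
  have hfin : Finite (fermatCubic k).toAffine.Point :=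
    Finite.of_equiv _ (pointEquivOption _).symm
  have hp : Fact (Nat.Prime 2) := ⟨Nat.prime_two⟩
  obtain ⟨P, hP⟩ := exists_prime_addOrderOf_dvd_card' (G := (fermatCubic k).toAffine.Point) 2
    hodd.two_dvd
  have hP0 : P ≠ 0 := by
    rintro rfl
    rw [addOrderOf_zero] at hP
    omega
  have h2P : -P = P := by
    have h : 2 • P = 0 := by rw [← hP]; exact addOrderOf_nsmul_eq_zero P
    rw [two_nsmul] at h
    exact neg_eq_of_add_eq_zero_left h
  cases P with
  | zero => exact hP0 rfl
  | some x y hxy =>
    rw [Affine.Point.neg_some] at h2P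
    have hy : (fermatCubic k).toAffine.negY x y = y := by
      have := (Affine.Point.some.injEq _ _ _ _ _ _).mp h2P
      exact this.2
    have heq := hxy.1
    rw [Affine.equation_iff] at heq
    simp only [Affine.negY, fermatCubic, WeierstrassCurve.toAffine] at hy heq
    apply hc (-2 * x)
    have hy2 : 2 * y = -1 := by linear_combination -hy
    linear_combination 8 * heq + (-2 * (2 * y - 1) - 4) * hy2
  
section
variable {F : Type*} [Field F] [NumberField F] [Algebra K F]

/-- The Euler factor at `1` is an odd integer. -/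
theorem psi_odd (w : HeightOneSpectrum (𝓞 F)) (h3 : (3 : 𝓞 F) ∉ w.asIdeal)
    (h2 : (2 : 𝓞 F) ∉ w.asIdeal) (hc : ∀ x : 𝓞 F, x ^ 3 - 2 ∉ w.asIdeal) :
    ∃ n : ℕ, Odd n ∧ (1 - psiC F w.asIdeal) * (1 - psibC F w.asIdeal) = (n : ℂ) := by
  have hfin : Finite (IsLocalRing.ResidueField (w.adicCompletionIntegers F)) := finite_residue w
  have hmodel : locPoly ((E F).baseChange F) w = _ :=
      locPoly_of_model (F := F) (K := F) (E F) 1 (fermatCubic (𝓞 F)) (by
        rw [one_smul, fermatCubic_map]
        rfl) w (by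
        rw [fermatCubic_delta]
        intro hmem
        apply h3
        change algebraMap (𝓞 F) (𝓞 F) (-27) ∈ w.asIdeal at hmem
        rw [map_neg, map_ofNat] at hmem
        have e : (-27 : 𝓞 F) = -(3 ^ 3) := by norm_num
        rw [e] at hmem
        exact w.isPrime.mem_of_pow_mem 3 (by simpa using w.asIdeal.neg_mem hmem))
  have hbc : (E F).baseChange F = E F := WeierstrassCurve.map_id _
  rw [hbc, fermatCubic_map] at hmodel
  have h1 := (psi_place w h3).2 1
  rw [mul_one, mul_one, hmodel] at h1
  refine ⟨_, odd_card_fermat (k := IsLocalRing.ResidueField (w.adicCompletionIntegers F)) ?_ ?_, ?_⟩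
  · intro h
    apply h2
    have : (2 : 𝓞 F) ∈ RingHom.ker (redMap F w) := by rw [RingHom.mem_ker, map_ofNat]; exact h
    rw [redMap_ker] at this
    exact this
  · intro y hy
    obtain ⟨x, hx⟩ := residue_surjective w y
    apply hc x
    have h5 : x ^ 3 - 2 ∈ RingHom.ker (redMap F w) := by
      rw [RingHom.mem_ker, map_sub, map_pow, map_ofNat]
      have : redMap F w x = y := hx
      rw [this, hy, sub_self]
    rw [redMap_ker] at h5
    exact h5
  · rw [← h1]
    simp only [map_add, map_sub, map_one, map_mul, aeval_X, map_pow, map_natCast]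
    ring

end

end Pool.Agent.Lib.MP_1a91b9_ntT.S4
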