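import Pool.Agent.Lib.MP_1a91b9_ntT.S4.NormPsi

/-!
# S4: the absolute norm of a principal ideal
-/

set_option autoImplicit false

namespace Pool.Agent.Lib.MP_1a91b9_ntT.S4

open NumberField IsDedekindDomain Pool.Agent.Lib.MP_1a91b9_nt

section

theorem norm_K (x : K) : |(Algebra.norm ℚ x : ℚ)| = ‖embK x‖ ^ 2 := by
  have h := InfinitePlace.prod_eq_abs_norm x
  have hre : InfinitePlace.nrRealPlaces K = 0 :=
    IsCyclotomicExtension.Rat.nrRealPlaces_eq_zero (n := 3) K (by decide)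
  have hco : InfinitePlace.nrComplexPlaces K = 1 := by
    rw [IsCyclotomicExtension.Rat.nrComplexPlaces_eq_totient_div_two 3]
    rfl
  have hcard : Fintype.card (InfinitePlace K) = 1 := by
    rw [InfinitePlace.card_eq_nrRealPlaces_add_nrComplexPlaces, hre, hco]
  obtain ⟨w0, hw0⟩ := Fintype.card_eq_one_iff.mp hcard
  have huniv : (Finset.univ : Finset (InfinitePlace K)) = {InfinitePlace.mk embK.toRingHom} := by
    ext w
    simp only [Finset.mem_univ, Finset.mem_singleton, true_iff]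
    rw [hw0 w, hw0 (InfinitePlace.mk embK.toRingHom)]
  rw [huniv, Finset.prod_singleton] at h
  have htc : IsTotallyComplex K := NumberField.nrRealPlaces_eq_zero_iff.mp hre
  have hc : InfinitePlace.IsComplex (InfinitePlace.mk embK.toRingHom) :=
    htc.isComplex _
  rw [InfinitePlace.mult_isComplex ⟨_, hc⟩, InfinitePlace.apply] at h
  rw [← h]
  rfl

variable {F : Type*} [Field F] [NumberField F] [Algebra K F]

theorem absNorm_span_nK (z : 𝓞 F) :
    (Ideal.absNorm (Ideal.span {z}) : ℝ) = ‖Nm (z : F)‖ ^ 2 := by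
  rw [Nm, ← norm_K, Algebra.norm_norm, Ideal.absNorm_span_singleton]
  have h : ((Algebra.norm ℤ z : ℤ) : ℚ) = Algebra.norm ℚ (z : F) := Algebra.coe_norm_int z
  rw [← h, Nat.cast_natAbs]
  push_cast
  rfl

theorem Nm_ne_zero {z : F} (hz : z ≠ 0) : Nm z ≠ 0 := by
  rw [Nm]
  intro h
  have h1 : Algebra.norm K z = 0 := embK.toRingHom.injective (by rw [map_zero]; exact h)
  rw [Algebra.norm_eq_zero_iff] at h1
  exact hz h1

theorem absNorm_cpow (z : 𝓞 F) (hz : z ≠ 0) (s : ℂ) :
    (Ideal.absNorm (Ideal.span {z}) : ℂ) ^ (-s) = ((‖Nm (z : F)‖ : ℝ) : ℂ) ^ (-2 * s) := by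
  have hz' : (z : F) ≠ 0 := by
    intro h
    exact hz (RingOfIntegers.coe_injective (by rw [map_zero]; exact h))
  have hpos : 0 < ‖Nm (z : F)‖ := norm_pos_iff.mpr (Nm_ne_zero hz')
  have h1 : (Ideal.absNorm (Ideal.span {z}) : ℂ) = (((‖Nm (z : F)‖ ^ 2 : ℝ)) : ℂ) := by
    rw [← absNorm_span_nK]
    norm_cast
  rw [h1, Complex.ofReal_pow, ← Complex.cpow_natCast, ← Complex.cpow_mul]
  · congr 1
    push_cast
    ring
  · rw [← Complex.ofReal_log hpos.le, ← Complex.ofReal_natCast, ← Complex.ofReal_mul,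
      Complex.ofReal_im]
    linarith [Real.pi_pos]
  · rw [← Complex.ofReal_log hpos.le, ← Complex.ofReal_natCast, ← Complex.ofReal_mul,
      Complex.ofReal_im]
    exact Real.pi_pos.le

end

end Pool.Agent.Lib.MP_1a91b9_ntT.S4
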