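import Pool.Agent.Lib.MP_1a91b9_ntT.S4.Unfold
import Pool.Agent.Lib.MP_1a91b9_ntT.S4.NormAbs
import Pool.Agent.Lib.MP_1a91b9_ntT.S4.LProd

/-!
# S4: the unfolding of the L-series
-/

set_option autoImplicit false

namespace Pool.Agent.Lib.MP_1a91b9_ntT.S4

open NumberField IsDedekindDomain Pool.Agent.Lib.MP_1a91b9_nt

universe u

section
variable {F : Type u} [Field F] [NumberField F]

omit [NumberField F] in
/-- sets of representatives exist -/
theorem exists_isRep (m b : Ideal (𝓞 F)) (t : 𝓞 F) : ∃ R : Set (𝓞 F), IsRep m b t R := by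
  classical
  let S : Setoid {z : 𝓞 F // z - t ∈ m * b} :=
    { r := fun z z' => ∃ u : (𝓞 F)ˣ, (u : 𝓞 F) - 1 ∈ m ∧ z'.1 = u * z.1
      iseqv := by
        refine ⟨fun z => ⟨1, by simp, by simp⟩, ?_, ?_⟩
        · rintro z z' ⟨u, hu, hz⟩
          have huu : ((u⁻¹ : (𝓞 F)ˣ) : 𝓞 F) * u = 1 := Units.inv_mul u
          refine ⟨u⁻¹, ?_, ?_⟩
          · have e : ((u⁻¹ : (𝓞 F)ˣ) : 𝓞 F) - 1 = -(((u⁻¹ : (𝓞 F)ˣ) : 𝓞 F) * (u - 1)) := by
              linear_combination huu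
            rw [e]
            exact Ideal.neg_mem_iff _ |>.mpr (Ideal.mul_mem_left _ _ hu)
          · rw [hz]
            linear_combination (-z.1) * huu
        · rintro z z' z'' ⟨u, hu, hz⟩ ⟨u', hu', hz'⟩
          refine ⟨u' * u, ?_, ?_⟩
          · have e : ((u' * u : (𝓞 F)ˣ) : 𝓞 F) - 1 = u' * (u - 1) + (u' - 1) := by
              push_cast
              ring
            rw [e]
            exact Ideal.add_mem _ (Ideal.mul_mem_left _ _ hu) hu'
          · rw [hz', hz]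
            push_cast
            ring }
  refine ⟨Set.range fun q : Quotient S => (Quotient.out q).1, ?_, ?_, ?_⟩
  · rintro _ ⟨q, rfl⟩
    exact (Quotient.out q).2
  · intro z hz
    let q : Quotient S := Quotient.mk S ⟨z, hz⟩
    have hrel : S (Quotient.out q) ⟨z, hz⟩ := Quotient.exact (Quotient.out_eq q)
    obtain ⟨u, hu, hzu⟩ := hrel
    exact ⟨u, hu, _, ⟨q, rfl⟩, hzu⟩
  · rintro _ ⟨q, rfl⟩ _ ⟨q', rfl⟩ u hu h
    have hrel : S (Quotient.out q) (Quotient.out q') := ⟨u, hu, h⟩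
    have h1 := Quotient.sound hrel
    rw [Quotient.out_eq, Quotient.out_eq] at h1
    rw [h1]

variable [Algebra K F]

/-- `ψ_F(I)` generates the norm of `I` -/
theorem psi_spec (I : Ideal (𝓞 F)) (hI : IsCoprime I (Ideal.span {(3 : 𝓞 F)})) :
    (3 : 𝓞 K) ∣ psi F I - 1 ∧ Ideal.span {psi F I} = Ideal.relNorm (𝓞 K) I := by
  apply psiK_of_coprime
  obtain ⟨x, hx, y, hy, hxy⟩ := Ideal.isCoprime_iff_exists.mp hI
  rw [Ideal.mem_span_singleton] at hy
  obtain ⟨y', rfl⟩ := hy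
  have h1 := nK_congr (F := F) 3 x 1 ⟨-y', by rw [map_ofNat]; linear_combination hxy⟩
  rw [nK_one] at h1
  obtain ⟨w, hw⟩ := h1
  have hmem : nK x ∈ Ideal.relNorm (𝓞 K) I := by
    rw [intNorm_eq]
    have hfree : Module.Free (𝓞 K) (𝓞 F) := inferInstance
    exact Ideal.norm_mem_relNorm (𝓞 K) I hx
  rw [Ideal.isCoprime_iff_exists]
  exact ⟨nK x, hmem, -3 * w, by
    rw [Ideal.mem_span_singleton]
    exact ⟨-w, by ring⟩, by linear_combination hw⟩

theorem psiC_mul_psibC (I : Ideal (𝓞 F)) (hI : IsCoprime I (Ideal.span {(3 : 𝓞 F)})) :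
    psiC F I * psibC F I = (Ideal.absNorm I : ℂ) := by
  have h1 := (psi_spec I hI).2
  have h2 : Ideal.absNorm (Ideal.relNorm (𝓞 K) I) = Ideal.absNorm I := by
    exact Ideal.absNorm_relNorm (𝓞 K) (𝓞 F) I
  rw [psibC, Complex.mul_conj, Complex.normSq_eq_norm_sq, psiC, ← h2, ← h1]
  have h3 : (Ideal.absNorm (Ideal.span {psi F I}) : ℝ) = ‖embK ((psi F I : 𝓞 K) : K)‖ ^ 2 := by
    rw [← norm_K, Ideal.absNorm_span_singleton]
    have h : ((Algebra.norm ℤ (psi F I) : ℤ) : ℚ) = Algebra.norm ℚ ((psi F I : 𝓞 K) : K) :=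
      Algebra.coe_norm_int _
    rw [← h, Nat.cast_natAbs]
    push_cast
    rfl
  rw [← h3]
  norm_cast

theorem isIntegral_psiC (I : Ideal (𝓞 F)) : IsIntegral ℤ (psiC F I) := by
  have h : IsIntegral ℤ ((psi F I : 𝓞 K) : K) := RingOfIntegers.isIntegral_coe _
  exact h.map embK.toRingHom.toIntAlgHom

/-- The value at one ideal. -/
theorem unfold_term (I b : Ideal (𝓞 F)) (r : 𝓞 F) (ε : 𝓞 K) (hb : b ≠ 0) (hr0 : r ≠ 0)
    (hpb : psibC F b ≠ 0) (hI : I * b = Ideal.span {r}) (hε : psi F (Ideal.span {r}) = ε * nK r)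
    (x s : ℂ) :
    psibC F I * x * (Ideal.absNorm I : ℂ) ^ (-s) =
      x * ((starRingEnd ℂ) (embK (ε : K)) / psibC F b) * (Ideal.absNorm b : ℂ) ^ s *
        ((starRingEnd ℂ) (Nm (r : F)) * ((‖Nm (r : F)‖ : ℝ) : ℂ) ^ (-2 * s)) := by
  have hNb : (Ideal.absNorm b : ℂ) ≠ 0 := by
    have := Ideal.absNorm_ne_zero_iff_mem_nonZeroDivisors.mpr
      (mem_nonZeroDivisors_iff_ne_zero.mpr hb)
    exact_mod_cast this
  have hpsi : psiC F I * psiC F b = embK (ε : K) * Nm (r : F) := by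
    rw [← psiC_mul, hI, psiC, hε, ← embK_nK]
    change embK (algebraMap (𝓞 K) K (_ * _)) = _
    rw [map_mul, map_mul]
  have hpsib : psibC F I * psibC F b =
      (starRingEnd ℂ) (embK (ε : K)) * (starRingEnd ℂ) (Nm (r : F)) := by
    rw [psibC, psibC, ← map_mul, hpsi, map_mul]
  have hnorm : (Ideal.absNorm I : ℂ) ^ (-s) =
      (Ideal.absNorm b : ℂ) ^ s * ((‖Nm (r : F)‖ : ℝ) : ℂ) ^ (-2 * s) := by
    rw [← absNorm_cpow _ hr0, ← hI, map_mul, Nat.cast_mul, Complex.natCast_mul_natCast_cpow,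
      mul_comm ((Ideal.absNorm I : ℂ) ^ (-s)), ← mul_assoc, ← Complex.cpow_add _ _ hNb,
      add_neg_cancel, Complex.cpow_zero, one_mul]
  have hq : psibC F I = (starRingEnd ℂ) (embK (ε : K)) *
      (starRingEnd ℂ) (Nm (r : F)) / psibC F b := by
    rw [eq_div_iff hpb, hpsib]
  rw [hnorm, hq]
  ring

/-- The unfolding of `L(ψbar_F X, s)` over the ideal and residue classes. -/
theorem unfold_L (m : Ideal (𝓞 F)) (hm0 : m ≠ 0) (hm1 : m ≠ 1)
    (h3 : m ≤ Ideal.span {(3 : 𝓞 F)}) :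
    ∃ (ι : Type u) (_ : Fintype ι) (b : ι → Ideal (𝓞 F)) (t : ι → 𝓞 F) (J : ι → Ideal (𝓞 F))
      (k : ι → ℂ),
      (∀ i, b i ≠ 0 ∧ IsCoprime (b i) (Ideal.span {2}) ∧ IsCoprime (b i) m ∧ t i ∈ b i ∧
        t i ∉ m * b i ∧ IsCoprime (J i) m ∧ IsIntegral ℤ (k i * (Ideal.absNorm (b i) : ℂ))) ∧
      ∀ A : ι → ℂ → ℂ, (∀ i R, IsRep m (b i) (t i) R → ∀ s : ℂ, 2 < s.re →
        HasSum (fun r : R => (starRingEnd ℂ) (Nm ((r : 𝓞 F) : F)) *
          ((‖Nm ((r : 𝓞 F) : F)‖ : ℝ) : ℂ) ^ (-2 * s)) (A i s)) →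
      ∀ X : Ideal (𝓞 F) → ℂ, (∀ I, ¬ IsCoprime I m → X I = 0) → (∀ I, ‖X I‖ ≤ 1) →
        (∀ I J, RayEq m I J → X I = X J) → ∀ s : ℂ, 2 < s.re →
        Lf (fun I => psibC F I * X I) s =
          ∑ i, X (J i) * k i * (Ideal.absNorm (b i) : ℂ) ^ s * A i s := by
  classical
  obtain ⟨ι, hι, b, t, J, hb, hunf⟩ := unfold_index m (Ideal.span {(2 : 𝓞 F)}) hm0 hm1 (by
    rw [Ne, Ideal.zero_eq_bot, Ideal.span_singleton_eq_bot]; norm_num)
  have h3m : Ideal.span {(3 : 𝓞 F)} ∣ m := Ideal.dvd_iff_le.mpr h3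
  have hbm : ∀ i, IsCoprime (b i) m := fun i => (IsCoprime.of_mul_right_right (hb i).2.1)
  have hb2 : ∀ i, IsCoprime (b i) (Ideal.span {(2 : 𝓞 F)}) := fun i =>
    IsCoprime.of_mul_right_left (hb i).2.1
  have hb3 : ∀ i, IsCoprime (b i) (Ideal.span {(3 : 𝓞 F)}) := fun i =>
    (hbm i).of_isCoprime_of_dvd_right h3m
  have ht3 : ∀ i, IsCoprime (Ideal.span {t i}) (Ideal.span {(3 : 𝓞 F)}) := by
    intro i
    rw [← (hb i).2.2.2.2.2.1]
    exact ((hb i).2.2.2.2.2.2.of_isCoprime_of_dvd_right h3m).mul_left (hb3 i)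
  choose ε hε using fun i => psi_span (t i) (ht3 i)
  have hNb : ∀ i, (Ideal.absNorm (b i) : ℂ) ≠ 0 := by
    intro i
    have := Ideal.absNorm_ne_zero_iff_mem_nonZeroDivisors.mpr
      (mem_nonZeroDivisors_iff_ne_zero.mpr (hb i).1)
    exact_mod_cast this
  have hpb : ∀ i, psibC F (b i) ≠ 0 := by
    intro i h
    apply hNb i
    rw [← psiC_mul_psibC (b i) (hb3 i), h, mul_zero]
  refine ⟨ι, hι, b, t, J, fun i => (starRingEnd ℂ) (embK ((ε i : 𝓞 K) : K)) / psibC F (b i),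
    ?_, ?_⟩
  · intro i
    refine ⟨(hb i).1, hb2 i, hbm i, (hb i).2.2.1, (hb i).2.2.2.1, (hb i).2.2.2.2.2.2, ?_⟩
    rw [← psiC_mul_psibC (b i) (hb3 i)]
    have e : (starRingEnd ℂ) (embK ((ε i : 𝓞 K) : K)) / psibC F (b i) *
        (psiC F (b i) * psibC F (b i)) =
        (starRingEnd ℂ) (embK ((ε i : 𝓞 K) : K)) * psiC F (b i) := by
      field_simp [hpb i]
    rw [e]
    refine IsIntegral.mul ?_ (isIntegral_psiC _)
    have h : IsIntegral ℤ ((ε i : 𝓞 K) : K) := RingOfIntegers.isIntegral_coe _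
    exact h.map ((starRingEnd ℂ).comp embK.toRingHom).toIntAlgHom
  intro A hA X hX0 hX1 hXr s hs
  choose R hR using fun i => exists_isRep m (b i) (t i)
  obtain ⟨e, hinj, he, hsurj⟩ := hunf R hR
  set f : Ideal (𝓞 F) → ℂ := fun I => psibC F I * X I * (Ideal.absNorm I : ℂ) ^ (-s) with hf
  have hs0 : s.re ≠ 0 := by
    intro h
    rw [h] at hs
    linarith
  have hsum : Summable f := by
    refine Summable.of_norm ?_
    refine summable_ideals_mul F (fun I => psibC F I * X I) 1 (1 / 2) (fun I => ?_) s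
      (by linarith) hs0
    rw [norm_mul, one_mul]
    calc ‖psibC F I‖ * ‖X I‖ ≤ (Ideal.absNorm I : ℝ) ^ (1 / 2 : ℝ) * 1 :=
          mul_le_mul (norm_psibC_le I) (hX1 I) (norm_nonneg _) (by positivity)
      _ = _ := mul_one _
  have hsupp : Function.support f ⊆ Set.range e := by
    intro I hI
    by_cases hc : IsCoprime I m
    · exact hsurj I hc
    · exfalso
      apply hI
      simp only [hf]
      rw [hX0 I hc, mul_zero, zero_mul]
  have h1 : Lf (fun I => psibC F I * X I) s = ∑' x, f (e x) := (hinj.tsum_eq hsupp).symm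
  rw [h1]
  have hsum' : Summable fun x => f (e x) := hsum.comp_injective hinj
  rw [hsum'.tsum_sigma, tsum_fintype]
  refine Finset.sum_congr rfl fun i _ => ?_
  set C : ℂ := X (J i) * ((starRingEnd ℂ) (embK ((ε i : 𝓞 K) : K)) / psibC F (b i)) *
      (Ideal.absNorm (b i) : ℂ) ^ s with hC
  have hterm : ∀ r : R i, f (e ⟨i, r⟩) = C * ((starRingEnd ℂ) (Nm ((r : 𝓞 F) : F)) *
          ((‖Nm ((r : 𝓞 F) : F)‖ : ℝ) : ℂ) ^ (-2 * s)) := by
    intro r
    obtain ⟨g1, g2, g3⟩ := he ⟨i, r⟩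
    have g2' : e ⟨i, r⟩ * b i = Ideal.span {(r : 𝓞 F)} := g2
    have hr0 : (r : 𝓞 F) ≠ 0 := by
      intro h
      rw [h, Ideal.span_singleton_zero, ← Ideal.zero_eq_bot] at g2'
      rcases mul_eq_zero.mp g2' with h' | h'
      · exact ne_zero_of_coprime hm1 g1 h'
      · exact (hb i).1 h'
    have hrt : (3 : 𝓞 F) ∣ (r : 𝓞 F) - t i := by
      rw [← Ideal.mem_span_singleton]
      exact h3 (Ideal.mul_le_left ((hR i).mem r r.2))
    have hXJ : X (e ⟨i, r⟩) = X (J i) := hXr _ _ g3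
    rw [hC, ← hXJ]
    exact unfold_term (e ⟨i, r⟩) (b i) r (ε i) (hb i).1 hr0 (hpb i) g2' (hε i r hrt) _ s
  have h2 := (hA i (R i) (hR i) s hs).mul_left C
  rw [tsum_congr hterm]
  exact h2.tsum_eq

end

end Pool.Agent.Lib.MP_1a91b9_ntT.S4
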