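import Pool.Agent.Lib.MP_1a91b9_ntT.S4.TwoAdic
import Pool.Agent.Lib.MP_1a91b9_ntT.S4.UnfoldL
import Pool.Agent.Lib.MP_1a91b9_ntT.S4.OddCount

/-!
# S4: two-adic valuations of the Euler factors at `s = 1`
-/

set_option autoImplicit false

namespace Pool.Agent.Lib.MP_1a91b9_ntT.S4

open IsDedekindDomain NumberField Pool.Agent.Lib.MP_1a91b9_nt

universe u

section
variable {F : Type u} [Field F] [NumberField F] [Algebra K F]

theorem psi_dyadic (v : HeightOneSpectrum (𝓞 F)) (h2 : (2 : 𝓞 F) ∈ v.asIdeal) :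
    ∃ f : ℕ, 0 < f ∧ psi F v.asIdeal = (-2) ^ f := by
  set P : Ideal (𝓞 K) := v.asIdeal.under (𝓞 K) with hP
  have hPp : P.IsPrime := inferInstance
  have hp2 : Fact (Nat.Prime 2) := ⟨Nat.prime_two⟩
  have h2P : ((2 : ℕ) : 𝓞 K) ∈ P := by
    change algebraMap (𝓞 K) (𝓞 F) ((2 : ℕ) : 𝓞 K) ∈ v.asIdeal
    rw [map_natCast]
    exact_mod_cast h2
  have hPe := u4_prime_two 2 (by norm_num) omO omO_eq P h2P
  have hPb : P ≠ ⊥ := by
    rw [hPe]
    intro h
    have := Ideal.span_singleton_eq_bot.mp h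
    norm_num at this
  have hPmax : P.IsMaximal := Ideal.IsPrime.isMaximal inferInstance hPb
  have hlo : v.asIdeal.LiesOver P := ⟨rfl⟩
  have hvmax : v.asIdeal.IsMaximal := v.isMaximal
  have hrel : Ideal.relNorm (𝓞 K) v.asIdeal = P ^ v.asIdeal.inertiaDeg (𝓞 K) :=
    Ideal.relNorm_eq_pow_of_isMaximal v.asIdeal P
  refine ⟨v.asIdeal.inertiaDeg (𝓞 K), Ideal.inertiaDeg_pos v.asIdeal (𝓞 K), ?_⟩
  have hpow : ∀ (I : Ideal (𝓞 K)) (n : ℕ), psiK (I ^ n) = psiK I ^ n := by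
    intro I n
    induction n with
    | zero => rw [pow_zero, pow_zero, psiK_one]
    | succ n ih => rw [pow_succ, psiK_mul, ih, pow_succ]
  rw [psi, hrel, hpow, hPe]
  congr 1
  have h := psiK_span (-2) ⟨-1, by norm_num⟩
  rw [Ideal.span_singleton_neg] at h
  exact_mod_cast h

theorem psiC_ne_zero (v : HeightOneSpectrum (𝓞 F)) (h3 : (3 : 𝓞 F) ∉ v.asIdeal) :
    psiC F v.asIdeal ≠ 0 := by
  intro h
  have h1 := (psi_place v h3).1
  rw [h, zero_mul] at h1
  have hfin : Finite (IsLocalRing.ResidueField (v.adicCompletionIntegers F)) := finite_residue v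
  have h2 : nrm v ≠ 0 := by
    have : 0 < nrm v := Nat.card_pos
    omega
  exact h2 (by exact_mod_cast h1.symm)

/-- The Euler factor at `1`. -/
theorem euler_at_one (v : HeightOneSpectrum (𝓞 F)) (h3 : (3 : 𝓞 F) ∉ v.asIdeal) (x : ℂ) :
    1 - psibC F v.asIdeal * x * (Ideal.absNorm v.asIdeal : ℂ) ^ (-1 : ℂ) =
      (psiC F v.asIdeal - x) / psiC F v.asIdeal := by
  have h0 := psiC_ne_zero v h3
  have h1 := (psi_place v h3).1
  rw [nrm_eq] at h1
  rw [Complex.cpow_neg_one, ← h1]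
  have h2 : psibC F v.asIdeal ≠ 0 := by
    rw [psibC]
    exact (map_ne_zero _).mpr h0
  field_simp

section val
variable (W : ValuationSubring ℂ) (hW : (2 : ℂ)⁻¹ ∉ W)
include hW

theorem val_psi_dyadic (v : HeightOneSpectrum (𝓞 F)) (h2 : (2 : 𝓞 F) ∈ v.asIdeal) :
    W.valuation (psiC F v.asIdeal) < 1 := by
  obtain ⟨f, hf, h⟩ := psi_dyadic v h2
  have e : psiC F v.asIdeal = (-2 : ℂ) ^ f := by
    rw [psiC, h]
    change embK (algebraMap (𝓞 K) K ((-2) ^ f)) = _
    rw [map_pow, map_pow, map_neg, map_neg, map_ofNat, map_ofNat]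
  rw [e, map_pow, Valuation.map_neg]
  exact pow_lt_one' (val_two W hW) hf.ne'

/-- the Euler factor at a dyadic place -/
theorem val_euler_dyadic (v : HeightOneSpectrum (𝓞 F)) (h2 : (2 : 𝓞 F) ∈ v.asIdeal) (x : ℤ)
    (hx : x = 1 ∨ x = -1) :
    W.valuation (1 - psibC F v.asIdeal * (x : ℂ) * (Ideal.absNorm v.asIdeal : ℂ) ^ (-1 : ℂ)) =
      (W.valuation (psiC F v.asIdeal))⁻¹ := by
  have h3 : (3 : 𝓞 F) ∉ v.asIdeal := by
    intro h
    apply v.isPrime.ne_top
    rw [Ideal.eq_top_iff_one]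
    have e : (1 : 𝓞 F) = 3 - 2 := by norm_num
    rw [e]
    exact Ideal.sub_mem _ h h2
  rw [euler_at_one v h3, map_div₀]
  have h4 : W.valuation (psiC F v.asIdeal - (x : ℂ)) = 1 := by
    rw [sub_eq_add_neg, add_comm]
    refine val_unit_add W ?_ (val_psi_dyadic W hW v h2)
    rcases hx with rfl | rfl <;> simp [Valuation.map_neg]
  rw [h4, one_div]

/-- the Euler factor at a place where `2` is not a cube -/
theorem val_euler_odd (v : HeightOneSpectrum (𝓞 F)) (h3 : (3 : 𝓞 F) ∉ v.asIdeal)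
    (h2 : (2 : 𝓞 F) ∉ v.asIdeal) (hc : ∀ x : 𝓞 F, x ^ 3 - 2 ∉ v.asIdeal) :
    W.valuation (1 - psibC F v.asIdeal * (Ideal.absNorm v.asIdeal : ℂ) ^ (-1 : ℂ)) = 1 := by
  have e := euler_at_one v h3 1
  rw [mul_one] at e
  rw [e, map_div₀]
  obtain ⟨n, hn, hprod⟩ := psi_odd v h3 h2 hc
  have hi : IsIntegral ℤ (psiC F v.asIdeal) := isIntegral_psiC _
  have hib : IsIntegral ℤ (psibC F v.asIdeal) := hi.map (starRingEnd ℂ).toIntAlgHom
  have h4 : W.valuation (1 - psiC F v.asIdeal) = 1 := by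
    refine val_eq_one_of_mul W (val_integral W (isIntegral_one.sub hi))
      (val_integral W (isIntegral_one.sub hib)) ?_
    rw [hprod]
    exact val_odd W hW n hn
  -- `ψ` is a unit because its norm is odd
  have h5 : W.valuation (psiC F v.asIdeal) = 1 := by
    refine val_eq_one_of_mul W (val_integral W hi) (val_integral W hib) ?_
    rw [(psi_place v h3).1, nrm_eq]
    refine val_odd W hW _ ?_
    rw [← Nat.not_even_iff_odd]
    intro heven
    apply h2
    -- the residue characteristic is not two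
    have hN := Ideal.absNorm_mem v.asIdeal
    obtain ⟨k, hk⟩ := heven
    -- a power of a prime
    have hmax := v.isMaximal
    let _ : Field (𝓞 F ⧸ v.asIdeal) := Ideal.Quotient.field _
    have hfin : Finite (𝓞 F ⧸ v.asIdeal) := Ideal.finiteQuotientOfFreeOfNeBot _ v.ne_bot
    have := Fintype.ofFinite (𝓞 F ⧸ v.asIdeal)
    have hcard : Ideal.absNorm v.asIdeal = Nat.card (𝓞 F ⧸ v.asIdeal) := rfl
    have h2q : (2 : 𝓞 F ⧸ v.asIdeal) = 0 := by
      obtain ⟨p, hp⟩ := CharP.exists (𝓞 F ⧸ v.asIdeal)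
      obtain ⟨n, hn1, hn2⟩ := FiniteField.card (𝓞 F ⧸ v.asIdeal) p
      rw [Nat.card_eq_fintype_card, hn2] at hcard
      have h2p : 2 ∣ p := by
        have : 2 ∣ p ^ (n : ℕ) := by rw [← hcard, hk]; exact ⟨k, by ring⟩
        exact Nat.prime_two.dvd_of_dvd_pow this
      have hp2 : p = 2 := ((Nat.prime_dvd_prime_iff_eq Nat.prime_two hn1).mp h2p).symm
      subst hp2
      exact_mod_cast CharP.cast_eq_zero (𝓞 F ⧸ v.asIdeal) 2
    rw [← Ideal.Quotient.eq_zero_iff_mem, map_ofNat]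
    exact h2q
  rw [h5, ← Valuation.map_neg, neg_sub, h4, div_one]

end val

end

end Pool.Agent.Lib.MP_1a91b9_ntT.S4
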