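import Pool.Agent.Lib.MP_1a91b9_ntT.S4.Family
import Pool.Agent.Lib.MP_1a91b9_ntT.S4.EulerOne
import Pool.Agent.Lib.MP_1a91b9_ntT.S4.Dyadic
import Pool.Agent.Lib.MP_1a91b9_ntT.S1.Recip

/-!
# S4: the quadratic step
-/

set_option autoImplicit false

namespace Pool.Agent.Lib.MP_1a91b9_ntT.S4

open IsDedekindDomain NumberField Pool.Agent.Lib.MP_1a91b9_nt

universe u

theorem differentiable_euler {F : Type u} [Field F] [NumberField F]
    (S : Finset (HeightOneSpectrum (𝓞 F))) (f : HeightOneSpectrum (𝓞 F) → ℂ) :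
    Differentiable ℂ fun s : ℂ => ∏ v ∈ S, (1 - f v * (Ideal.absNorm v.asIdeal : ℂ) ^ (-s)) := by
  have h : ∀ v : HeightOneSpectrum (𝓞 F), Differentiable ℂ
      fun s : ℂ => (1 - f v * (Ideal.absNorm v.asIdeal : ℂ) ^ (-s)) := by
    intro v
    refine (differentiable_const _).sub ((differentiable_const _).mul ?_)
    refine differentiable_neg.const_cpow (Or.inl ?_)
    have := Ideal.absNorm_ne_zero_iff_mem_nonZeroDivisors.mpr
      (mem_nonZeroDivisors_iff_ne_zero.mpr v.ne_bot)
    exact_mod_cast this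
  exact Differentiable.fun_finsetProd fun v _ => h v

/-- extensions of `K` are totally complex -/
theorem totallyComplex_of_K {F : Type*} [Field F] [NumberField F] [Algebra K F] :
    IsTotallyComplex F := by
  refine ⟨fun w => ?_⟩
  rw [← InfinitePlace.not_isReal_iff_isComplex]
  intro hr
  let φ := InfinitePlace.embedding_of_isReal hr
  have h1 : (φ (algebraMap K F om)) ^ 2 + φ (algebraMap K F om) + 1 = 0 := by
    have h2 : om ^ 2 + om + 1 = 0 := congrArg (fun x : 𝓞 K => (x : K)) omO_eq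
    rw [← map_pow, ← map_pow, ← map_add, ← map_add, ← map_one φ, ← map_one (algebraMap K F),
      ← map_add, ← map_add, h2, map_zero, map_zero]
  nlinarith [sq_nonneg (2 * φ (algebraMap K F om) + 1)]

section
variable {F F' : Type u} [Field F] [NumberField F] [Field F'] [NumberField F'] [Algebra F F']
  [Algebra K F] [Algebra K F'] [IsScalarTower K F F']

theorem step_main (δ : 𝓞 F) (hδ : Adm F δ) (x : F') (hx : x ^ 2 = algebraMap F F' δ)
    (hn : ¬ ∃ y : F, algebraMap F F' y = x)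
    (hgen : ∀ z : F', ∃ a b : F, z = algebraMap F F' a + algebraMap F F' b * x)
    {Ω : ℂ} (hV : ValueProp Ω F) (hV' : ValueProp Ω F') (hU : UnitProp Ω F) :
    UnitProp Ω F' := by
  classical
  have hL : Module.finrank F F' = 2 := finrank_step _ x hx hn hgen
  obtain ⟨m, hm0, hm1, hm3, hm2, hmv⟩ := exists_bad δ hδ.odd
  have htc : IsTotallyComplex F := totallyComplex_of_K
  have hrec : Reciprocity δ (splitChar F') :=
    S1.reciprocity δ hδ.odd hδ.sq (splitChar F') (isChi_splitChar hL δ x hx hn)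
  obtain ⟨ψ, ψ1, ψmul, ψ0, ψpm, ψray, ψval⟩ := exists_rayChar hL δ x hx hn hrec m hm0 hm1 hm2
    (fun v hv => (hmv v).mpr (Or.inr hv))
  obtain ⟨ι, hι, J, G, hG, hJ, hGW, hfam⟩ := exists_family hV m hm0 hm1 hm3 hm2
  obtain ⟨L, hLd, hL1, hLW⟩ := hU
  obtain ⟨L', hLd', hL1'⟩ := exists_cont hV'
  -- the bad places
  have hBfin : {v : HeightOneSpectrum (𝓞 F) | m ≤ v.asIdeal}.Finite := by
    refine (Ideal.finite_factors hm0).subset fun v hv => ?_
    exact Ideal.dvd_iff_le.mpr hv
  set B := hBfin.toFinset with hBdef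
  have hB : ∀ v, v ∈ B ↔ m ≤ v.asIdeal := fun v => by
    rw [hBdef, Set.Finite.mem_toFinset]; rfl
  -- the dyadic places
  have h20 : Ideal.span {(2 : 𝓞 F)} ≠ 0 := by
    intro h
    have := Ideal.span_singleton_eq_bot.mp h
    norm_num at this
  have hDfin : {v : HeightOneSpectrum (𝓞 F) | (2 : 𝓞 F) ∈ v.asIdeal}.Finite := by
    refine (Ideal.finite_factors h20).subset fun v hv => ?_
    exact Ideal.dvd_span_singleton.mpr hv
  set D := hDfin.toFinset with hDdef
  have hD : ∀ v, v ∈ D ↔ (2 : 𝓞 F) ∈ v.asIdeal := fun v => by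
    rw [hDdef, Set.Finite.mem_toFinset]; rfl
  -- the two entire functions
  set G1 : ℂ → ℂ := fun s => ∑ i, (ψ (J i) : ℂ) * G i s with hG1
  set G0 : ℂ → ℂ := fun s => ∑ i, G i s with hG0
  have hG1d : Differentiable ℂ G1 :=
    Differentiable.fun_sum fun i _ => (differentiable_const _).mul (hG i)
  have hG0d : Differentiable ℂ G0 := Differentiable.fun_sum fun i _ => hG i
  have hψn : ∀ I, ‖(ψ I : ℂ)‖ ≤ 1 := by
    intro I
    by_cases hI : IsCoprime I m
    · rcases ψpm I hI with h | h <;> rw [h] <;> simp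
    · rw [ψ0 I hI]; simp
  have hG1L : ∀ s : ℂ, 2 < s.re → Lf (fun I => psibC F I * (ψ I : ℂ)) s = G1 s := fun s hs =>
    hfam (fun I => (ψ I : ℂ)) (fun I hI => by rw [ψ0 I hI, Int.cast_zero]) hψn
      (fun I I' h => by rw [ψray I I' h]) s hs
  have hG0L : ∀ s : ℂ, 2 < s.re → Lf (fun I => psibC F I * indC m I) s = G0 s := by
    intro s hs
    rw [hfam (indC m) (fun I hI => indC_of_not hI) (norm_indC_le m) (indC_ray m) s hs]
    refine Finset.sum_congr rfl fun i _ => ?_
    rw [indC_of (hJ i), one_mul]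
  -- identities of entire functions
  have id1 : G0 = fun s => L s * ∏ v ∈ B, (1 - psibC F v.asIdeal *
      (Ideal.absNorm v.asIdeal : ℂ) ^ (-s)) := by
    refine entire_eq hG0d (hLd.mul (differentiable_euler B _)) fun s hs => ?_
    rw [← hG0L s hs, Lf_indC m B hB s hs, hL1 s hs]
  have id2 : (fun s => L' s * ∏ v ∈ D, (1 - psibC F v.asIdeal * (splitChar F' v : ℂ) *
        (Ideal.absNorm v.asIdeal : ℂ) ^ (-s))) =
      fun s => (L s * G1 s) * ∏ v ∈ D, (1 - psibC F v.asIdeal * (ψ v.asIdeal : ℂ) *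
        (Ideal.absNorm v.asIdeal : ℂ) ^ (-s)) := by
    refine entire_eq (hLd'.mul (differentiable_euler D _))
      ((hLd.mul hG1d).mul (differentiable_euler D _)) fun s hs => ?_
    rw [hL1' s hs, step_Lf hL s hs, hL1 s hs, ← hG1L s hs, mul_assoc, mul_assoc,
      Lf_rayChar hL δ x hx m (fun v hv => (hmv v).mp hv) ψ ψ1 ψmul ψ0 ψpm ψval D hD s hs]
  refine ⟨L', hLd', hL1', fun W hW => ?_⟩
  set n := Module.finrank K F with hn_def
  have hn2 : Module.finrank K F' = n + n := by
    rw [← Module.finrank_mul_finrank K F F', hL]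
    ring
  -- value of `G0`
  have v0 : W.valuation (G0 1 / Ω ^ n) = 1 := by
    rw [id1]
    change W.valuation (L 1 * _ / Ω ^ n) = 1
    rw [mul_div_right_comm, map_mul, hLW W hW, one_mul, map_prod]
    refine Finset.prod_eq_one fun v hv => ?_
    rw [hB, hmv] at hv
    by_cases h3 : (3 : 𝓞 F) ∈ v.asIdeal
    · rw [psibC_three v h3, zero_mul, sub_zero, map_one]
    · have ho : OddAt v δ := hv.resolve_left h3
      exact val_euler_odd W hW v h3 (odd_coprime_two δ hδ.odd v ho) (hδ.bad v h3 ho)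
  -- value of `G1`
  have v1 : W.valuation (G1 1 / Ω ^ n) = 1 := by
    have e : G1 1 / Ω ^ n = G0 1 / Ω ^ n + ∑ i, ((ψ (J i) : ℂ) - 1) * (G i 1 / Ω ^ n) := by
      rw [hG1, hG0]
      simp only [Finset.sum_div, ← Finset.sum_add_distrib]
      refine Finset.sum_congr rfl fun i _ => ?_
      ring
    rw [e]
    refine val_unit_add W v0 ?_
    refine Valuation.map_sum_lt _ one_ne_zero fun i _ => ?_
    rw [map_mul]
    have h1 : W.valuation ((ψ (J i) : ℂ) - 1) < 1 := by
      rcases ψpm _ (hJ i) with h | h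
      · rw [h, Int.cast_one, sub_self, map_zero]; exact zero_lt_one
      · rw [h]
        have e : (((-1 : ℤ) : ℂ) - 1) = -2 := by push_cast; norm_num
        rw [e, Valuation.map_neg]
        exact val_two W hW
    exact mul_lt_one_of_lt_of_le h1 (hGW i W hW)
  -- the dyadic factors
  have id3 := congrFun id2 1
  change L' 1 * _ = (L 1 * G1 1) * _ at id3
  have id4 := congrArg W.valuation id3
  rw [map_mul, map_mul W.valuation (L 1 * G1 1), map_prod, map_prod] at id4
  have hprod : ∀ X : HeightOneSpectrum (𝓞 F) → ℤ, (∀ v ∈ D, X v = 1 ∨ X v = -1) →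
      ∏ v ∈ D, W.valuation (1 - psibC F v.asIdeal * (X v : ℂ) *
        (Ideal.absNorm v.asIdeal : ℂ) ^ (-1 : ℂ)) =
      ∏ v ∈ D, (W.valuation (psiC F v.asIdeal))⁻¹ := by
    intro X hX
    refine Finset.prod_congr rfl fun v hv => ?_
    exact val_euler_dyadic W hW v ((hD v).mp hv) (X v) (hX v hv)
  obtain ⟨a, b, hab⟩ := hδ.sq
  rw [hprod (fun v => splitChar F' v) (fun v hv => by
      refine splitChar_dyadic hL δ a b hab x hx hgen v ?_
      intro h
      obtain ⟨c, d, hcd⟩ := hδ.odd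
      apply v.isPrime.ne_top
      rw [Ideal.eq_top_iff_one, ← hcd]
      exact Ideal.add_mem _ (Ideal.mul_mem_left _ _ h) (Ideal.mul_mem_left _ _ ((hD v).mp hv))),
    hprod (fun v => ψ v.asIdeal) (fun v hv => by
      refine ψpm _ ?_
      by_contra h
      rw [← le_iff_not_coprime] at h
      refine coprime_not_le hm2 v h ?_
      rw [Ideal.span_singleton_le_iff_mem]
      exact (hD v).mp hv)] at id4
  have hne : ∏ v ∈ D, (W.valuation (psiC F v.asIdeal))⁻¹ ≠ 0 := by
    refine Finset.prod_ne_zero_iff.mpr fun v hv => inv_ne_zero ?_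
    rw [Valuation.ne_zero_iff]
    refine psiC_ne_zero v ?_
    intro h3
    apply v.isPrime.ne_top
    rw [Ideal.eq_top_iff_one]
    have e : (1 : 𝓞 F) = 3 - 2 := by norm_num
    rw [e]
    exact Ideal.sub_mem _ h3 ((hD v).mp hv)
  have id5 : W.valuation (L' 1) = W.valuation (L 1 * G1 1) := mul_right_cancel₀ hne id4
  rw [hn2, pow_add, map_div₀, id5, ← map_div₀, mul_div_mul_comm, map_mul, hLW W hW, v1, one_mul]

end

end Pool.Agent.Lib.MP_1a91b9_ntT.S4
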