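import Pool.Agent.Lib.MP_1a91b9_ntT.S4.RayChar
import Pool.Agent.Lib.MP_1a91b9_ntT.S4.UnfoldL

/-!
# S4: the comparisons of L-series used in the quadratic step
-/

set_option autoImplicit false

namespace Pool.Agent.Lib.MP_1a91b9_ntT.S4

open IsDedekindDomain NumberField Pool.Agent.Lib.MP_1a91b9_nt

universe u

section
variable {F : Type u} [Field F] [NumberField F]

open Classical in
/-- the trivial character modulo `m` -/
noncomputable def indC (m I : Ideal (𝓞 F)) : ℂ := if IsCoprime I m then 1 else 0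

omit [NumberField F] in
theorem indC_of {m I : Ideal (𝓞 F)} (h : IsCoprime I m) : indC m I = 1 := if_pos h

omit [NumberField F] in
theorem indC_of_not {m I : Ideal (𝓞 F)} (h : ¬ IsCoprime I m) : indC m I = 0 := if_neg h

omit [NumberField F] in
theorem indC_one (m : Ideal (𝓞 F)) : indC m 1 = 1 := indC_of isCoprime_one_left

omit [NumberField F] in
theorem indC_mul (m I J : Ideal (𝓞 F)) : indC m (I * J) = indC m I * indC m J := by
  by_cases hI : IsCoprime I m
  · by_cases hJ : IsCoprime J m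
    · rw [indC_of hI, indC_of hJ, indC_of (hI.mul_left hJ), one_mul]
    · rw [indC_of_not hJ, mul_zero, indC_of_not]
      exact fun h => hJ h.of_mul_left_right
  · rw [indC_of_not hI, zero_mul, indC_of_not]
    exact fun h => hI h.of_mul_left_left

omit [NumberField F] in
theorem norm_indC_le (m I : Ideal (𝓞 F)) : ‖indC m I‖ ≤ 1 := by
  by_cases hI : IsCoprime I m
  · rw [indC_of hI, norm_one]
  · rw [indC_of_not hI, norm_zero]; exact zero_le_one

theorem indC_ray (m I J : Ideal (𝓞 F)) (h : RayEq m I J) : indC m I = indC m J := by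
  by_cases hI : IsCoprime I m
  · rw [indC_of hI, indC_of (h.coprime hI)]
  · rw [indC_of_not hI, indC_of_not fun hJ => hI (h.symm.coprime hJ)]

variable [Algebra K F]

theorem norm_psibC_mul_le (X : Ideal (𝓞 F) → ℂ) (I : Ideal (𝓞 F)) (hX : ‖X I‖ ≤ 1) :
    ‖psibC F I * X I‖ ≤ (Ideal.absNorm I : ℝ) ^ (1 / 2 : ℝ) := by
  rw [norm_mul]
  calc ‖psibC F I‖ * ‖X I‖ ≤ (Ideal.absNorm I : ℝ) ^ (1 / 2 : ℝ) * 1 :=
        mul_le_mul (norm_psibC_le I) hX (norm_nonneg _) (by positivity)
    _ = _ := mul_one _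

/-- `L(ψbar 1_m, s)` -/
theorem Lf_indC (m : Ideal (𝓞 F)) (B : Finset (HeightOneSpectrum (𝓞 F)))
    (hB : ∀ v, v ∈ B ↔ m ≤ v.asIdeal) (s : ℂ) (hs : 2 < s.re) :
    Lf (fun I => psibC F I * indC m I) s =
      Lf (psibC F) s * ∏ v ∈ B, (1 - psibC F v.asIdeal * (Ideal.absNorm v.asIdeal : ℂ) ^ (-s)) := by
  have h := compare_Lf (fun I => psibC F I * indC m I) (psibC F)
    (by rw [psibC_one, indC_one, mul_one])
    (fun I J => by
      rw [psibC_mul, indC_mul]; ring)
    (fun I => norm_psibC_mul_le _ I (norm_indC_le m I)) (psibC_one F) (psibC_mul F) norm_psibC_le B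
    (fun v hv => by
      have h1 : IsCoprime v.asIdeal m := by
        by_contra h2
        exact hv ((hB v).mpr ((le_iff_not_coprime m v).mpr h2))
      change psibC F v.asIdeal * indC m v.asIdeal = _
      rw [indC_of h1, mul_one]) s hs
  rw [← h]
  have e : ∏ v ∈ B, (1 - psibC F v.asIdeal * indC m v.asIdeal *
      (Ideal.absNorm v.asIdeal : ℂ) ^ (-s)) = 1 := by
    refine Finset.prod_eq_one fun v hv => ?_
    rw [indC_of_not ((le_iff_not_coprime m v).mp ((hB v).mp hv)), mul_zero, zero_mul, sub_zero]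
  rw [e, mul_one]

/-- removing the places above `3` changes nothing -/
theorem psibC_three (v : HeightOneSpectrum (𝓞 F)) (h3 : (3 : 𝓞 F) ∈ v.asIdeal) :
    psibC F v.asIdeal = 0 := by
  rw [psibC, psiC, psi_place_three v h3]
  simp

end

section
variable {F F' : Type u} [Field F] [NumberField F] [Field F'] [NumberField F'] [Algebra F F']
  [Algebra K F]

/-- the comparison at the dyadic places -/
theorem Lf_rayChar (hL : Module.finrank F F' = 2) (δ : 𝓞 F) (x : F')
    (hx : x ^ 2 = algebraMap F F' δ) (m : Ideal (𝓞 F))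
    (hmv : ∀ v : HeightOneSpectrum (𝓞 F), m ≤ v.asIdeal → (3 : 𝓞 F) ∈ v.asIdeal ∨ OddAt v δ)
    (ψ : Ideal (𝓞 F) → ℤ) (h1 : ψ 1 = 1) (hmul : ∀ I J, ψ (I * J) = ψ I * ψ J)
    (h0 : ∀ I, ¬ IsCoprime I m → ψ I = 0) (hpm : ∀ I, IsCoprime I m → ψ I = 1 ∨ ψ I = -1)
    (hval : ∀ J, IsCoprime J m → IsCoprime J (Ideal.span {(2 : 𝓞 F)}) →
        ψ J = chiI (splitChar F') J) (D : Finset (HeightOneSpectrum (𝓞 F)))
    (hD : ∀ v, v ∈ D ↔ (2 : 𝓞 F) ∈ v.asIdeal) (s : ℂ) (hs : 2 < s.re) :
    Lf (psibChi (F := F) F') s * ∏ v ∈ D, (1 - psibC F v.asIdeal * (splitChar F' v : ℂ) *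
        (Ideal.absNorm v.asIdeal : ℂ) ^ (-s)) =
      Lf (fun I => psibC F I * (ψ I : ℂ)) s * ∏ v ∈ D, (1 - psibC F v.asIdeal * (ψ v.asIdeal : ℂ) *
        (Ideal.absNorm v.asIdeal : ℂ) ^ (-s)) := by
  have hcases : ∀ I, ψ I = 0 ∨ ψ I = 1 ∨ ψ I = -1 := by
    intro I
    by_cases hI : IsCoprime I m
    · exact Or.inr (hpm I hI)
    · exact Or.inl (h0 I hI)
  have h := compare_Lf (psibChi (F := F) F') (fun I => psibC F I * (ψ I : ℂ)) psibChi_one
    psibChi_mul norm_psibChi_le
    (by rw [psibC_one, h1, Int.cast_one, mul_one])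
    (fun I J => by
      rw [psibC_mul, hmul, Int.cast_mul]; ring)
    (fun I => norm_mul_sign_le I _ (hcases I)) D
    (fun v hv => by
      have h2 : (2 : 𝓞 F) ∉ v.asIdeal := fun h => hv ((hD v).mpr h)
      have h2' : IsCoprime v.asIdeal (Ideal.span {(2 : 𝓞 F)}) := by
        by_contra h
        rw [← le_iff_not_coprime, Ideal.span_singleton_le_iff_mem] at h
        exact h2 h
      change psibC F v.asIdeal * (chiI (splitChar F') v.asIdeal : ℂ) = _
      by_cases hc : IsCoprime v.asIdeal m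
      · rw [hval _ hc h2']
      · rw [h0 _ hc, Int.cast_zero, mul_zero, chiI_place]
        rcases hmv v ((le_iff_not_coprime m v).mpr hc) with h3 | h3
        · rw [psibC_three v h3, zero_mul]
        · rw [splitChar_of_odd hL δ x hx v h3, Int.cast_zero, mul_zero]) s hs
  have e : ∀ v : HeightOneSpectrum (𝓞 F), psibChi (F := F) F' v.asIdeal =
      psibC F v.asIdeal * (splitChar F' v : ℂ) := fun v => by rw [psibChi, chiI_place]
  simp only [e] at h
  exact h

end

end Pool.Agent.Lib.MP_1a91b9_ntT.S4
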