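import Mathlib

/-!
# S4: two-adic places of `ℂ`, entire functions
-/

set_option autoImplicit false

namespace Pool.Agent.Lib.MP_1a91b9_ntT.S4

theorem entire_eq {f g : ℂ → ℂ} (hf : Differentiable ℂ f) (hg : Differentiable ℂ g)
    (h : ∀ s : ℂ, 2 < s.re → f s = g s) : f = g := by
  have hf' : AnalyticOnNhd ℂ f Set.univ := fun z _ => hf.analyticAt z
  have hg' : AnalyticOnNhd ℂ g Set.univ := fun z _ => hg.analyticAt z
  refine hf'.eq_of_eventuallyEq hg' (z₀ := 3) ?_
  have hopen : IsOpen {s : ℂ | 2 < s.re} := isOpen_lt continuous_const Complex.continuous_re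
  filter_upwards [hopen.mem_nhds (show (3 : ℂ) ∈ {s : ℂ | 2 < s.re} by
    change (2 : ℝ) < ((3 : ℂ)).re
    norm_num)] with s hs
  exact h s hs

section
variable (W : ValuationSubring ℂ)

/-- algebraic integers are integral at every place -/
theorem val_integral {x : ℂ} (hx : IsIntegral ℤ x) : W.valuation x ≤ 1 := by
  rw [ValuationSubring.valuation_le_one_iff]
  have h1 : IsIntegral W x := hx.tower_top
  obtain ⟨y, hy⟩ := IsIntegrallyClosed.isIntegral_iff.mp h1
  rw [← hy]
  exact y.2

theorem val_two (hW : (2 : ℂ)⁻¹ ∉ W) : W.valuation (2 : ℂ) < 1 := by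
  have h : (2 : ℂ) ∈ W.nonunits := by
    rw [ValuationSubring.mem_nonunits_iff_or]
    exact Or.inr hW
  exact h

theorem val_unit_add {x y : ℂ} (hx : W.valuation x = 1) (hy : W.valuation y < 1) :
    W.valuation (x + y) = 1 := by
  rw [Valuation.map_add_eq_of_lt_left _ (by rw [hx]; exact hy), hx]

theorem val_odd (hW : (2 : ℂ)⁻¹ ∉ W) (n : ℕ) (hn : Odd n) : W.valuation (n : ℂ) = 1 := by
  obtain ⟨k, rfl⟩ := hn
  push_cast
  rw [add_comm]
  refine val_unit_add W (map_one _) ?_
  rw [map_mul]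
  have h1 : W.valuation (k : ℂ) ≤ 1 := val_integral W (isIntegral_natCast (R := ℤ) k)
  calc W.valuation (2 : ℂ) * W.valuation (k : ℂ) ≤ W.valuation (2 : ℂ) * 1 :=
        mul_le_mul_right h1 _
    _ < 1 := by rw [mul_one]; exact val_two W hW

/-- a factor of an odd integer is a unit -/
theorem val_eq_one_of_mul {x y : ℂ} (hx : W.valuation x ≤ 1) (hy : W.valuation y ≤ 1)
    (hxy : W.valuation (x * y) = 1) : W.valuation x = 1 := by
  refine le_antisymm hx ?_
  rw [← hxy, map_mul]
  calc W.valuation x * W.valuation y ≤ W.valuation x * 1 := mul_le_mul_right hy _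
    _ = W.valuation x := mul_one _

end

end Pool.Agent.Lib.MP_1a91b9_ntT.S4
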