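import Pool.Agent.Lib.MP_1a91b9_ntT.Base

/-!
# S4/S6: sets of representatives and the norm to `ℂ`
-/

set_option autoImplicit false

namespace Pool.Agent.Lib.MP_1a91b9_ntT.S4

open NumberField

/-- `R` is a set of representatives of `t + m b` modulo the units congruent to `1` modulo `m`. -/
structure IsRep {F : Type*} [Field F] (m b : Ideal (𝓞 F)) (t : 𝓞 F) (R : Set (𝓞 F)) : Prop where
  mem : ∀ r ∈ R, r - t ∈ m * b
  ex : ∀ z : 𝓞 F, z - t ∈ m * b → ∃ u : (𝓞 F)ˣ, (u : 𝓞 F) - 1 ∈ m ∧ ∃ r ∈ R, z = u * r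
  uniq : ∀ r ∈ R, ∀ r' ∈ R, ∀ u : (𝓞 F)ˣ, (u : 𝓞 F) - 1 ∈ m → r' = u * r → r = r'

/-- The relative norm to `K`, as a complex number. -/
noncomputable def Nm {F : Type*} [Field F] [NumberField F] [Algebra K F] (z : F) : ℂ :=
  embK (Algebra.norm K z)

end Pool.Agent.Lib.MP_1a91b9_ntT.S4
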