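import Pool.Agent.Lib.MP_1a91b9_ntT.S4.Chit
import Pool.Agent.Lib.MP_1a91b9_ntT.S4.IsRep

/-!
# S4: unfolding a sum over the ideals coprime to `m`
-/

set_option autoImplicit false

namespace Pool.Agent.Lib.MP_1a91b9_ntT.S4

open NumberField

universe u

section
variable {F : Type u} [Field F] [NumberField F]

/-- the elements generating `b` modulo `m b` -/
def GenMod (m b : Ideal (𝓞 F)) : Type u := {t : 𝓞 F // Ideal.span {t} ⊔ m * b = b}

/-- equivalence up to units modulo `m b` -/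
def genSetoid (m b : Ideal (𝓞 F)) : Setoid (GenMod m b) where
  r t t' := ∃ u : (𝓞 F)ˣ, t'.1 - u * t.1 ∈ m * b
  iseqv := by
    refine ⟨fun t => ⟨1, by simp⟩, ?_, ?_⟩
    · rintro t t' ⟨u, hu⟩
      refine ⟨u⁻¹, ?_⟩
      have e : t.1 - (u⁻¹ : (𝓞 F)ˣ) * t'.1 = -(((u⁻¹ : (𝓞 F)ˣ) : 𝓞 F) * (t'.1 - u * t.1)) := by
        have h1 : ((u⁻¹ : (𝓞 F)ˣ) : 𝓞 F) * u = 1 := Units.inv_mul u
        linear_combination (-t.1) * h1
      rw [e]
      exact Ideal.neg_mem_iff _ |>.mpr (Ideal.mul_mem_left _ _ hu)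
    · rintro t t' t'' ⟨u, hu⟩ ⟨u', hu'⟩
      refine ⟨u' * u, ?_⟩
      have e : t''.1 - ((u' * u : (𝓞 F)ˣ) : 𝓞 F) * t.1 = (t''.1 - u' * t'.1) +
          u' * (t'.1 - u * t.1) := by
        push_cast
        ring
      rw [e]
      exact Ideal.add_mem _ hu' (Ideal.mul_mem_left _ _ hu)

theorem finite_genMod (m b : Ideal (𝓞 F)) (hm : m ≠ 0) (hb : b ≠ 0) :
    Finite (Quotient (genSetoid m b)) := by
  have hmb : m * b ≠ ⊥ := mul_ne_zero hm hb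
  have hfin : Finite (𝓞 F ⧸ m * b) := (m * b).finiteQuotientOfFreeOfNeBot hmb
  refine Finite.of_injective (β := 𝓞 F ⧸ m * b)
    (fun q => Ideal.Quotient.mk (m * b) (Quotient.out q).1) ?_
  intro q q' h
  rw [Ideal.Quotient.eq] at h
  rw [← Quotient.out_eq q, ← Quotient.out_eq q']
  apply Quotient.sound
  refine ⟨1, ?_⟩
  rw [Units.val_one, one_mul, ← neg_sub]
  exact Ideal.neg_mem_iff _ |>.mpr h

theorem unfold_index (m c : Ideal (𝓞 F)) (hm0 : m ≠ 0) (hm1 : m ≠ 1) (hc0 : c ≠ 0) :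
    ∃ (ι : Type u) (_ : Fintype ι) (b : ι → Ideal (𝓞 F)) (t : ι → 𝓞 F) (J : ι → Ideal (𝓞 F)),
      (∀ i, b i ≠ 0 ∧ IsCoprime (b i) (c * m) ∧ t i ∈ b i ∧ t i ∉ m * b i ∧ t i ≠ 0 ∧
        J i * b i = Ideal.span {t i} ∧ IsCoprime (J i) m) ∧
      ∀ R : ι → Set (𝓞 F), (∀ i, IsRep m (b i) (t i) (R i)) →
        ∃ e : (Σ i, R i) → Ideal (𝓞 F), Function.Injective e ∧
          (∀ x, IsCoprime (e x) m ∧ e x * b x.1 = Ideal.span {(x.2 : 𝓞 F)} ∧
            RayEq m (e x) (J x.1)) ∧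
          ∀ I, IsCoprime I m → ∃ x, e x = I := by
  classical
  -- ideal representatives of the inverse classes
  have hcm : c * m ≠ 0 := mul_ne_zero hc0 hm0
  have hcl : ∀ C : ClassGroup (𝓞 F), ∃ b : Ideal (𝓞 F), ∃ hb : b ≠ 0, IsCoprime b (c * m) ∧
      ClassGroup.mk0 ⟨b, mem_nonZeroDivisors_iff_ne_zero.mpr hb⟩ = C⁻¹ := by
    intro C
    obtain ⟨I, hI⟩ := ClassGroup.mk0_surjective C
    have hI0 : (I : Ideal (𝓞 F)) ≠ 0 := nonZeroDivisors.coe_ne_zero I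
    obtain ⟨b, z, hb, hz, h1, h2⟩ := exists_inverse_coprime (I : Ideal (𝓞 F)) (c * m) hI0 hcm
    refine ⟨b, hb, h2, ?_⟩
    rw [← hI, eq_comm, inv_eq_iff_mul_eq_one, ← map_mul]
    refine (ClassGroup.mk0_eq_one_iff _).mpr ?_
    refine ⟨⟨z, ?_⟩⟩
    exact h1
  choose b hb0 hbc hbC using hcl
  let ι : Type u := Σ C : ClassGroup (𝓞 F), Quotient (genSetoid m (b C))
  have hfinq : ∀ C, Finite (Quotient (genSetoid m (b C))) := fun C => finite_genMod m _ hm0 (hb0 C)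
  have hfι : Finite ι := inferInstance
  have hft : Fintype ι := Fintype.ofFinite ι
  let t : ι → 𝓞 F := fun i => (Quotient.out i.2).1
  have ht : ∀ i : ι, Ideal.span {t i} ⊔ m * b i.1 = b i.1 := fun i => (Quotient.out i.2).2
  have htb : ∀ i : ι, t i ∈ b i.1 := by
    intro i
    have h1 : Ideal.span {t i} ≤ b i.1 := by
      conv_rhs => rw [← ht i]
      exact le_sup_left
    exact h1 (Ideal.mem_span_singleton_self _)
  have htn : ∀ i : ι, t i ∉ m * b i.1 := by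
    intro i h
    have h1 := ht i
    rw [sup_eq_right.mpr ((Ideal.span_singleton_le_iff_mem _).mpr h)] at h1
    have h2 : m * b i.1 = 1 * b i.1 := by rw [h1, one_mul]
    exact hm1 (mul_right_cancel₀ (hb0 i.1) h2)
  have ht0 : ∀ i : ι, t i ≠ 0 := by
    intro i h
    apply htn i
    rw [h]
    exact Ideal.zero_mem _
  have hJ : ∀ i : ι, ∃ J : Ideal (𝓞 F), J * b i.1 = Ideal.span {t i} := by
    intro i
    obtain ⟨J, hJ⟩ := Ideal.dvd_span_singleton.mpr (htb i)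
    exact ⟨J, by rw [hJ, mul_comm]⟩
  choose J hJ using hJ
  refine ⟨ι, hft, fun i => b i.1, t, J, ?_, ?_⟩
  · intro i
    refine ⟨hb0 _, hbc _, htb i, htn i, ht0 i, hJ i, ?_⟩
    rw [coprime_cofactor (hb0 i.1) (hJ i)]
    exact ht i
  intro R hR
  -- the cofactor of an element of `R i`
  have hx : ∀ x : (Σ i : ι, R i), ∃ I : Ideal (𝓞 F), I * b x.1.1 = Ideal.span {(x.2 : 𝓞 F)} := by
    intro x
    have h1 : (x.2 : 𝓞 F) ∈ b x.1.1 := by
      have h2 := (hR x.1).mem x.2 x.2.2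
      have h3 : m * b x.1.1 ≤ b x.1.1 := Ideal.mul_le_right
      have e : (x.2 : 𝓞 F) = (x.2 - t x.1) + t x.1 := by ring
      rw [e]
      exact Ideal.add_mem _ (h3 h2) (htb x.1)
    obtain ⟨I, hI⟩ := Ideal.dvd_span_singleton.mpr h1
    exact ⟨I, by rw [hI, mul_comm]⟩
  choose e he using hx
  have hxb : ∀ x : (Σ i : ι, R i), Ideal.span {(x.2 : 𝓞 F)} ⊔ m * b x.1.1 = b x.1.1 := by
    intro x
    have h2 := (hR x.1).mem x.2 x.2.2
    have key : ∀ y z : 𝓞 F, y - z ∈ m * b x.1.1 →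
        Ideal.span {y} ⊔ m * b x.1.1 ≤ Ideal.span {z} ⊔ m * b x.1.1 := by
      intro y z hyz
      refine sup_le ?_ le_sup_right
      rw [Ideal.span_singleton_le_iff_mem]
      have a1 : z ∈ Ideal.span {z} ⊔ m * b x.1.1 :=
        (le_sup_left : Ideal.span {z} ≤ _) (Ideal.mem_span_singleton_self z)
      have a2 : y - z ∈ Ideal.span {z} ⊔ m * b x.1.1 := (le_sup_right : m * b x.1.1 ≤ _) hyz
      have a3 := Ideal.add_mem _ a2 a1
      rwa [sub_add_cancel] at a3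
    have h3 := key _ _ h2
    have h4 := key (t x.1) (x.2 : 𝓞 F) (by
      rw [← neg_sub]
      exact Ideal.neg_mem_iff _ |>.mpr h2)
    exact le_antisymm (h3.trans (ht x.1).le) ((ht x.1).ge.trans h4)
  have hxm : ∀ x : (Σ i : ι, R i), IsCoprime (e x) m := by
    intro x
    rw [coprime_cofactor (hb0 x.1.1) (he x)]
    exact hxb x
  have hx0 : ∀ x : (Σ i : ι, R i), (x.2 : 𝓞 F) ≠ 0 := by
    intro x h
    have h1 := hxb x
    rw [h, Ideal.span_singleton_zero, bot_sup_eq] at h1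
    have h2 : m * b x.1.1 = 1 * b x.1.1 := by rw [h1, one_mul]
    exact hm1 (mul_right_cancel₀ (hb0 x.1.1) h2)
  refine ⟨e, ?_, ?_, ?_⟩
  · -- injectivity
    rintro ⟨⟨C, q⟩, ⟨r, hr⟩⟩ ⟨⟨C', q'⟩, ⟨r', hr'⟩⟩ hee
    have h1 : e ⟨⟨C, q⟩, ⟨r, hr⟩⟩ * b C = Ideal.span {r} := he ⟨⟨C, q⟩, ⟨r, hr⟩⟩
    have h2 : e ⟨⟨C, q⟩, ⟨r, hr⟩⟩ * b C' = Ideal.span {r'} := by
      rw [hee]; exact he ⟨⟨C', q'⟩, ⟨r', hr'⟩⟩
    set I := e ⟨⟨C, q⟩, ⟨r, hr⟩⟩ with hI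
    have hr0 : r ≠ 0 := hx0 ⟨⟨C, q⟩, ⟨r, hr⟩⟩
    have hr0' : r' ≠ 0 := hx0 ⟨⟨C', q'⟩, ⟨r', hr'⟩⟩
    have hI0 : I ≠ 0 := by
      rintro h
      rw [h, zero_mul] at h1
      exact hr0 (Ideal.span_singleton_eq_bot.mp h1.symm)
    -- the classes agree
    have hclass : ∀ (D : ClassGroup (𝓞 F)) (y : 𝓞 F), I * b D = Ideal.span {y} →
        ClassGroup.mk0 ⟨I, mem_nonZeroDivisors_iff_ne_zero.mpr hI0⟩ = D := by
      intro D y hy
      have h3 : ClassGroup.mk0 (⟨I, mem_nonZeroDivisors_iff_ne_zero.mpr hI0⟩ *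
          ⟨b D, mem_nonZeroDivisors_iff_ne_zero.mpr (hb0 D)⟩) = 1 := by
        refine (ClassGroup.mk0_eq_one_iff _).mpr ?_
        exact ⟨⟨y, hy⟩⟩
      rw [map_mul, hbC D, mul_inv_eq_one] at h3
      exact h3
    have hCC : C = C' := (hclass C r h1).symm.trans (hclass C' r' h2)
    subst hCC
    -- the elements differ by a unit
    have h3 : Ideal.span {r} = Ideal.span {r'} := h1.symm.trans h2
    rw [Ideal.span_singleton_eq_span_singleton] at h3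
    obtain ⟨u, hu⟩ := h3
    have hu' : r' = u * r := by rw [mul_comm]; exact hu.symm
    have hrt : r - t ⟨C, q⟩ ∈ m * b C := (hR ⟨C, q⟩).mem r hr
    have hrt' : r' - t ⟨C, q'⟩ ∈ m * b C := (hR ⟨C, q'⟩).mem r' hr'
    have hqq : q = q' := by
      rw [← Quotient.out_eq q, ← Quotient.out_eq q']
      apply Quotient.sound
      refine ⟨u, ?_⟩
      change t ⟨C, q'⟩ - u * t ⟨C, q⟩ ∈ m * b C
      have e1 : t ⟨C, q'⟩ - u * t ⟨C, q⟩ = -(r' - t ⟨C, q'⟩) + u * (r - t ⟨C, q⟩) := by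
        rw [hu']; ring
      rw [e1]
      exact Ideal.add_mem _ (Ideal.neg_mem_iff _ |>.mpr hrt') (Ideal.mul_mem_left _ _ hrt)
    subst hqq
    have hum : (u : 𝓞 F) - 1 ∈ m := by
      have h4 : ((u : 𝓞 F) - 1) * t ⟨C, q⟩ ∈ m * b C := by
        have e1 : ((u : 𝓞 F) - 1) * t ⟨C, q⟩ = -(u * (r - t ⟨C, q⟩)) + (r' - t ⟨C, q⟩) := by
          rw [hu']; ring
        rw [e1]
        exact Ideal.add_mem _ (Ideal.neg_mem_iff _ |>.mpr (Ideal.mul_mem_left _ _ hrt)) hrt'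
      have h5 : Ideal.span {(u : 𝓞 F) - 1} * b C ≤ m * b C := by
        conv_lhs => rw [← ht ⟨C, q⟩]
        rw [Ideal.mul_sup, Ideal.span_singleton_mul_span_singleton]
        exact sup_le ((Ideal.span_singleton_le_iff_mem _).mpr h4) Ideal.mul_le_right
      have h6 : m * b C ∣ Ideal.span {(u : 𝓞 F) - 1} * b C := Ideal.dvd_iff_le.mpr h5
      have h7 : m ∣ Ideal.span {(u : 𝓞 F) - 1} := (mul_dvd_mul_iff_right (hb0 C)).mp h6
      exact (Ideal.span_singleton_le_iff_mem _).mp (Ideal.dvd_iff_le.mp h7)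
    have hrr : r = r' := (hR ⟨C, q⟩).uniq r hr r' hr' u hum hu'
    subst hrr
    rfl
  · intro x
    refine ⟨hxm x, he x, ⟨b x.1.1, x.2, t x.1, hb0 _, hx0 x, ht0 _, he x, hJ x.1, ?_⟩⟩
    exact (hR x.1).mem x.2 x.2.2
  · -- surjectivity
    intro I hI
    have hI0 : I ≠ 0 := ne_zero_of_coprime hm1 hI
    set C := ClassGroup.mk0 ⟨I, mem_nonZeroDivisors_iff_ne_zero.mpr hI0⟩ with hC
    have hprin : ∃ z : 𝓞 F, I * b C = Ideal.span {z} := by
      have h3 : ClassGroup.mk0 (⟨I, mem_nonZeroDivisors_iff_ne_zero.mpr hI0⟩ *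
          ⟨b C, mem_nonZeroDivisors_iff_ne_zero.mpr (hb0 C)⟩) = 1 := by
        rw [map_mul, hbC C, mul_inv_eq_one]
      have h4 := (ClassGroup.mk0_eq_one_iff _).mp h3
      obtain ⟨⟨z, hz⟩⟩ := h4
      exact ⟨z, hz⟩
    obtain ⟨z, hz⟩ := hprin
    have hzg : Ideal.span {z} ⊔ m * b C = b C := (coprime_cofactor (hb0 C) hz).mp hI
    let g : GenMod m (b C) := ⟨z, hzg⟩
    let q : Quotient (genSetoid m (b C)) := Quotient.mk _ g
    have hrel : (genSetoid m (b C)) g (Quotient.out q) := (genSetoid m (b C)).symm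
      (Quotient.exact (Quotient.out_eq q))
    obtain ⟨u, hu⟩ := hrel
    have hu' : (u : 𝓞 F) * z - t ⟨C, q⟩ ∈ m * b C := by
      rw [← neg_sub]
      exact Ideal.neg_mem_iff _ |>.mpr hu
    obtain ⟨v, hv, r, hr, hvr⟩ := (hR ⟨C, q⟩).ex _ hu'
    refine ⟨⟨⟨C, q⟩, ⟨r, hr⟩⟩, ?_⟩
    have h5 : e ⟨⟨C, q⟩, ⟨r, hr⟩⟩ * b C = Ideal.span {r} := he ⟨⟨C, q⟩, ⟨r, hr⟩⟩
    have h6 : Ideal.span {r} = Ideal.span {z} := by
      rw [Ideal.span_singleton_eq_span_singleton]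
      refine ⟨u⁻¹ * v, ?_⟩
      have h7 : ((u⁻¹ : (𝓞 F)ˣ) : 𝓞 F) * u = 1 := Units.inv_mul u
      push_cast
      linear_combination (-((u⁻¹ : (𝓞 F)ˣ) : 𝓞 F)) * hvr + z * h7
    have h8 : e ⟨⟨C, q⟩, ⟨r, hr⟩⟩ * b C = I * b C := by rw [h5, h6, hz]
    exact mul_right_cancel₀ (hb0 C) h8

end

end Pool.Agent.Lib.MP_1a91b9_ntT.S4
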