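import Pool.Agent.Lib.MP_1a91b9_ntT.S4.Ray

/-!
# S4: extension of a character from the ideals coprime to `c` to the ideals coprime to `m`
-/

set_option autoImplicit false

namespace Pool.Agent.Lib.MP_1a91b9_ntT.S4

section
variable {R : Type*} [CommRing R] [IsDedekindDomain R]

theorem ne_zero_of_coprime {I m : Ideal R} (hm1 : m ≠ 1) (h : IsCoprime I m) : I ≠ 0 := by
  rintro rfl
  rw [isCoprime_zero_left, Ideal.isUnit_iff, ← Ideal.one_eq_top] at h
  exact hm1 h

theorem exists_chit (m c : Ideal R) (hm0 : m ≠ 0) (hc0 : c ≠ 0) (hmc : IsCoprime m c)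
    (hm1 : m ≠ 1) (χ : Ideal R → ℤ) (h1 : χ 1 = 1) (hmul : ∀ I J, χ (I * J) = χ I * χ J)
    (hpm : ∀ J, IsCoprime J m → IsCoprime J c → χ J = 1 ∨ χ J = -1)
    (hray : ∀ J J', RayEq m J J' → IsCoprime J m → IsCoprime J c → IsCoprime J' c → χ J = χ J') :
    ∃ ψ : Ideal R → ℤ, ψ 1 = 1 ∧ (∀ I J, ψ (I * J) = ψ I * ψ J) ∧
      (∀ I, ¬ IsCoprime I m → ψ I = 0) ∧ (∀ I, IsCoprime I m → ψ I = 1 ∨ ψ I = -1) ∧
      (∀ I J, RayEq m I J → ψ I = ψ J) ∧ (∀ J, IsCoprime J m → IsCoprime J c → ψ J = χ J) := by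
  classical
  have hex : ∀ I : Ideal R, IsCoprime I m → ∃ J, RayEq m I J ∧ IsCoprime J c := fun I hI =>
    exists_rayEq_coprime m c I hm0 hc0 (ne_zero_of_coprime hm1 hI) hmc
  choose f hf hfc using hex
  set ψ : Ideal R → ℤ := fun I => if h : IsCoprime I m then χ (f I h) else 0 with hψ
  have hψ1 : ∀ I (h : IsCoprime I m), ψ I = χ (f I h) := fun I h => by rw [hψ]; exact dif_pos h
  have hψ0 : ∀ I, ¬ IsCoprime I m → ψ I = 0 := fun I h => by rw [hψ]; exact dif_neg h
  have hfm : ∀ I (h : IsCoprime I m), IsCoprime (f I h) m := fun I h => (hf I h).coprime h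
  -- the value at any representative
  have hval : ∀ I J, IsCoprime I m → RayEq m I J → IsCoprime J c → ψ I = χ J := by
    intro I J hI hIJ hJ
    rw [hψ1 I hI]
    exact hray _ _ ((hf I hI).symm.trans hIJ) (hfm I hI) (hfc I hI) hJ
  refine ⟨ψ, ?_, ?_, hψ0, ?_, ?_, ?_⟩
  · have h2 := hval 1 1 isCoprime_one_left (RayEq.refl m one_ne_zero) isCoprime_one_left
    rw [h2, h1]
  · intro I J
    by_cases hI : IsCoprime I m
    · by_cases hJ : IsCoprime J m
      · have h2 := hval (I * J) (f I hI * f J hJ) (hI.mul_left hJ) ((hf I hI).mul (hf J hJ))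
          ((hfc I hI).mul_left (hfc J hJ))
        rw [h2, hmul, hψ1 I hI, hψ1 J hJ]
      · rw [hψ0 J hJ, mul_zero, hψ0]
        intro h
        exact hJ (IsCoprime.of_mul_left_right h)
    · rw [hψ0 I hI, zero_mul, hψ0]
      intro h
      exact hI (IsCoprime.of_mul_left_left h)
  · intro I hI
    rw [hψ1 I hI]
    exact hpm _ (hfm I hI) (hfc I hI)
  · intro I J hIJ
    by_cases hI : IsCoprime I m
    · have hJ := hIJ.coprime hI
      rw [hψ1 J hJ]
      exact hval I _ hI (hIJ.trans (hf J hJ)) (hfc J hJ)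
    · rw [hψ0 I hI, hψ0]
      intro hJ
      exact hI (hIJ.symm.coprime hJ)
  · intro J hJ hJc
    exact hval J J hJ (RayEq.refl m (ne_zero_of_coprime hm1 hJ)) hJc

end

end Pool.Agent.Lib.MP_1a91b9_ntT.S4
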