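import Pool.Agent.Lib.MP_1a91b9_ntT.S4.SplitChi
import Pool.Agent.Lib.MP_1a91b9_ntT.S4.Chit

/-!
# S4: the bad ideal and the ray class character
-/

set_option autoImplicit false

namespace Pool.Agent.Lib.MP_1a91b9_ntT.S4

open IsDedekindDomain NumberField Pool.Agent.Lib.MP_1a91b9_nt

universe u

section
variable {F : Type u} [Field F] [NumberField F]

theorem three_not_unit : ¬ IsUnit (3 : 𝓞 F) := by
  intro h
  have h1 : Ideal.absNorm (Ideal.span {((3 : ℕ) : 𝓞 F)}) = 1 := by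
    rw [Nat.cast_ofNat, Ideal.span_singleton_eq_top.mpr h, Ideal.absNorm_top]
  rw [Ideal.absNorm_span_natCast, RingOfIntegers.rank] at h1
  have h2 : Module.finrank ℚ F ≠ 0 := Module.finrank_pos.ne'
  have h3 := Nat.one_lt_pow h2 (by norm_num : 1 < 3)
  omega

theorem le_iff_not_coprime (m : Ideal (𝓞 F)) (v : HeightOneSpectrum (𝓞 F)) :
    m ≤ v.asIdeal ↔ ¬ IsCoprime v.asIdeal m := by
  rw [Ideal.isCoprime_iff_sup_eq]
  constructor
  · intro h1 h2
    rw [sup_eq_left.mpr h1] at h2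
    exact v.isPrime.ne_top h2
  · intro h
    by_contra h1
    apply h
    refine v.isMaximal.1.2 _ (lt_of_le_of_ne le_sup_left ?_)
    intro h2
    apply h1
    rw [h2]
    exact le_sup_right

omit [NumberField F] in
theorem odd_coprime_two (δ : 𝓞 F) (hodd : IsCoprime δ 2) (v : HeightOneSpectrum (𝓞 F))
    (h : OddAt v δ) : (2 : 𝓞 F) ∉ v.asIdeal := by
  obtain ⟨k, h1, h2⟩ := h
  intro h3
  obtain ⟨x, y, hxy⟩ := hodd
  have h4 : δ ∈ v.asIdeal := Ideal.pow_le_self (by omega) h1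
  apply v.isPrime.ne_top
  rw [Ideal.eq_top_iff_one, ← hxy]
  exact Ideal.add_mem _ (Ideal.mul_mem_left _ _ h4) (Ideal.mul_mem_left _ _ h3)

theorem finite_odd (δ : 𝓞 F) (hδ : δ ≠ 0) : {v : HeightOneSpectrum (𝓞 F) | OddAt v δ}.Finite := by
  refine (Ideal.finite_factors (I := Ideal.span {δ}) ?_).subset ?_
  · intro h
    exact hδ (Ideal.span_singleton_eq_bot.mp h)
  · rintro v ⟨k, h1, h2⟩
    rw [Set.mem_ofPred_eq, Ideal.dvd_span_singleton]
    exact Ideal.pow_le_self (by omega) h1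

/-- the bad ideal -/
theorem exists_bad (δ : 𝓞 F) (hodd : IsCoprime δ 2) :
    ∃ m : Ideal (𝓞 F), m ≠ 0 ∧ m ≠ 1 ∧ m ≤ Ideal.span {3} ∧ IsCoprime m (Ideal.span {2}) ∧
      ∀ v : HeightOneSpectrum (𝓞 F), m ≤ v.asIdeal ↔ (3 : 𝓞 F) ∈ v.asIdeal ∨ OddAt v δ := by
  classical
  have hδ : δ ≠ 0 := by
    rintro rfl
    rw [isCoprime_zero_left] at hodd
    have h1 : Ideal.absNorm (Ideal.span {((2 : ℕ) : 𝓞 F)}) = 1 := by
      rw [Nat.cast_ofNat, Ideal.span_singleton_eq_top.mpr hodd, Ideal.absNorm_top]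
    rw [Ideal.absNorm_span_natCast, RingOfIntegers.rank] at h1
    have h2 : Module.finrank ℚ F ≠ 0 := Module.finrank_pos.ne'
    have h3 := Nat.one_lt_pow h2 (by norm_num : 1 < 2)
    omega
  set S := (finite_odd δ hδ).toFinset with hS
  have hSm : ∀ v, v ∈ S ↔ OddAt v δ := fun v => by rw [hS, Set.Finite.mem_toFinset]; rfl
  have h3 : Ideal.span {(3 : 𝓞 F)} ≠ 0 := by
    intro h
    have := Ideal.span_singleton_eq_bot.mp h
    norm_num at this
  have hprod : ∏ v ∈ S, v.asIdeal ≠ 0 := Finset.prod_ne_zero_iff.mpr fun v _ => v.ne_bot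
  refine ⟨Ideal.span {3} * ∏ v ∈ S, v.asIdeal, mul_ne_zero h3 hprod, ?_, Ideal.mul_le_left,
    ?_, ?_⟩
  · intro h
    have h4 : (1 : Ideal (𝓞 F)) ≤ Ideal.span {3} := by rw [← h]; exact Ideal.mul_le_left
    rw [Ideal.one_eq_top, top_le_iff, Ideal.span_singleton_eq_top] at h4
    exact three_not_unit h4
  · refine IsCoprime.mul_left ?_ ?_
    · rw [Ideal.isCoprime_span_singleton_iff]
      exact ⟨1, -1, by norm_num⟩
    · refine IsCoprime.prod_left fun v hv => ?_
      by_contra h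
      rw [← le_iff_not_coprime, Ideal.span_singleton_le_iff_mem] at h
      exact odd_coprime_two δ hodd v ((hSm v).mp hv) h
  · intro v
    rw [← Ideal.dvd_iff_le, v.prime.dvd_mul, Ideal.dvd_span_singleton, v.prime.dvd_finsetProd_iff]
    refine or_congr_right ?_
    constructor
    · rintro ⟨w, hw, hvw⟩
      have : v = w := by
        apply HeightOneSpectrum.ext
        have := Ideal.dvd_iff_le.mp hvw
        exact (w.isMaximal.eq_of_le v.isPrime.ne_top this).symm
      rw [this]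
      exact (hSm w).mp hw
    · intro h
      exact ⟨v, (hSm v).mpr h, dvd_rfl⟩

end

end Pool.Agent.Lib.MP_1a91b9_ntT.S4
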