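import Pool.Agent.Lib.MP_1a91b9_ntT.S4.Psi

/-!
# S4: the character `ψ` on ideals
-/

set_option autoImplicit false

namespace Pool.Agent.Lib.MP_1a91b9_ntT.S4

open NumberField IsDedekindDomain Polynomial Pool.Agent.Lib.MP_1a91b9_nt

open Classical in
/-- `ψ` on ideals of `𝓞 K`: the generator congruent to `1` modulo `3` if there is one, `0`
otherwise. -/
noncomputable def psiK (I : Ideal (𝓞 K)) : 𝓞 K :=
  if h : ∃ a : 𝓞 K, (3 : 𝓞 K) ∣ a - 1 ∧ Ideal.span {a} = I then h.choose else 0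

/-- `ψ_F` on ideals of `𝓞 F`. -/
noncomputable def psi (F : Type*) [Field F] [NumberField F] [Algebra K F] (I : Ideal (𝓞 F)) : 𝓞 K :=
  psiK (Ideal.relNorm (𝓞 K) I)

/-- the complex value of `ψ_F` -/
noncomputable def psiC (F : Type*) [Field F] [NumberField F] [Algebra K F] (I : Ideal (𝓞 F)) : ℂ :=
  embK (psi F I : K)

/-- the complex value of the conjugate of `ψ_F` -/
noncomputable def psibC (F : Type*) [Field F] [NumberField F] [Algebra K F] (I : Ideal (𝓞 F)) : ℂ :=
  (starRingEnd ℂ) (psiC F I)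

/-- a unit congruent to `1` modulo `3` is `1` -/
theorem unit_eq_one (u : (𝓞 K)ˣ) (h : (3 : 𝓞 K) ∣ (u : 𝓞 K) - 1) : u = 1 := by
  have h1 := IsCyclotomicExtension.Rat.Three.eq_one_or_neg_one_of_unit_of_congruent om_spec u (by
    refine ⟨1, ?_⟩
    have e : (om_spec.toInteger - 1) ^ 2 = -3 * om_spec.toInteger := by
      have := omO_eq
      change om_spec.toInteger ^ 2 + om_spec.toInteger + 1 = 0 at this
      linear_combination this
    rw [e, Int.cast_one]
    obtain ⟨c, hc⟩ := h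
    refine ⟨-om_spec.toInteger ^ 2 * c, ?_⟩
    have h3 : om_spec.toInteger ^ 3 = 1 := om_spec.toInteger_cube_eq_one
    rw [hc]
    linear_combination (-3 * c) * h3)
  rcases h1 with h1 | h1
  · exact h1
  · exfalso
    rw [h1] at h
    have h2 : (3 : 𝓞 K) ∣ 2 := by
      have e : ((-1 : (𝓞 K)ˣ) : 𝓞 K) - 1 = -2 := by push_cast; ring
      rw [e, dvd_neg] at h
      exact h
    have h4 : (3 : 𝓞 K) ∣ 1 := by
      have e : (1 : 𝓞 K) = 3 - 2 := by norm_num
      rw [e]
      exact dvd_sub dvd_rfl h2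
    have h5 := Ideal.absNorm_dvd_absNorm_of_le
      ((Ideal.span_singleton_le_span_singleton).mpr h4)
    rw [Ideal.span_singleton_one, Ideal.absNorm_top] at h5
    have e3 := u4_absNorm_p (K := K) 3
    rw [Nat.cast_ofNat] at e3
    rw [e3] at h5
    omega

theorem psiK_unique (a b : 𝓞 K) (ha : (3 : 𝓞 K) ∣ a - 1) (hb : (3 : 𝓞 K) ∣ b - 1)
    (h : Ideal.span {a} = Ideal.span {b}) : a = b := by
  rw [Ideal.span_singleton_eq_span_singleton] at h
  obtain ⟨u, hu⟩ := h
  have h1 : (3 : 𝓞 K) ∣ (u : 𝓞 K) - 1 := by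
    have e : (u : 𝓞 K) - 1 = (b - 1) - (a - 1) * u := by rw [← hu]; ring
    rw [e]
    exact dvd_sub hb (Dvd.dvd.mul_right ha _)
  rw [unit_eq_one u h1, Units.val_one, mul_one] at hu
  exact hu

theorem psiK_span (a : 𝓞 K) (ha : (3 : 𝓞 K) ∣ a - 1) : psiK (Ideal.span {a}) = a := by
  have h : ∃ b : 𝓞 K, (3 : 𝓞 K) ∣ b - 1 ∧ Ideal.span {b} = Ideal.span {a} := ⟨a, ha, rfl⟩
  rw [psiK, dif_pos h]
  exact psiK_unique _ _ h.choose_spec.1 ha h.choose_spec.2

/-- the existence of the generator -/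
theorem exists_gen (I : Ideal (𝓞 K)) (hI : IsCoprime I (Ideal.span {3})) :
    ∃ a : 𝓞 K, (3 : 𝓞 K) ∣ a - 1 ∧ Ideal.span {a} = I := by
  have hpid : IsPrincipalIdealRing (𝓞 K) := IsCyclotomicExtension.Rat.three_pid K
  obtain ⟨g, hg⟩ := (IsPrincipalIdealRing.principal I).principal
  have hg' : I = Ideal.span {g} := hg
  subst hg'
  set η : 𝓞 K := om_spec.toInteger with hη
  have hη2 : η ^ 2 + η + 1 = 0 := omO_eq
  have hη3 : η ^ 3 = 1 := by linear_combination (η - 1) * hη2
  -- `3` in terms of `λ ^ 2`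
  have hlam : ∀ x : 𝓞 K, (η - 1) ^ 2 ∣ x → (3 : 𝓞 K) ∣ x := by
    rintro x ⟨c, rfl⟩
    exact ⟨-η * c, by linear_combination c * hη2⟩
  have h3lam : (η - 1) ∣ (3 : 𝓞 K) := ⟨-(η + 2), by linear_combination hη2⟩
  obtain ⟨u, v, huv⟩ := (Ideal.isCoprime_span_singleton_iff _ _).mp hI
  have hnd : ¬ (η - 1) ∣ g := by
    intro h
    have h1 : (η - 1) ∣ u * g + v * 3 :=
      dvd_add (Dvd.dvd.mul_left h _) (Dvd.dvd.mul_left h3lam _)
    rw [huv] at h1
    have h2 : (3 : 𝓞 K) ∣ 1 := by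
      refine hlam 1 ?_
      obtain ⟨c, hc⟩ := h1
      exact ⟨c ^ 2, by rw [← mul_pow, ← hc, one_pow]⟩
    have h5 := Ideal.absNorm_dvd_absNorm_of_le
      ((Ideal.span_singleton_le_span_singleton).mpr h2)
    rw [Ideal.span_singleton_one, Ideal.absNorm_top] at h5
    have e3 := u4_absNorm_p (K := K) 3
    rw [Nat.cast_ofNat] at e3
    rw [e3] at h5
    omega
  -- the general step: `g ≡ 1` modulo `λ`
  have key : ∀ x : 𝓞 K, (η - 1) ∣ x - 1 → ∃ a : 𝓞 K, (3 : 𝓞 K) ∣ a - 1 ∧
      Ideal.span {a} = Ideal.span {x} := by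
    rintro x ⟨h, hh⟩
    rcases IsCyclotomicExtension.Rat.Three.lambda_dvd_or_dvd_sub_one_or_dvd_add_one om_spec h with
      h1 | h1 | h1
    · refine ⟨x, hlam _ ?_, rfl⟩
      obtain ⟨c, hc⟩ := h1
      exact ⟨c, by rw [hh, hc]; ring⟩
    · obtain ⟨c, hc⟩ := h1
      have hc' : h = 1 + (η - 1) * c := by linear_combination hc
      refine ⟨η ^ 2 * x, hlam _ ?_, ?_⟩
      · refine ⟨η ^ 2 * c, ?_⟩
        have hx : x = 1 + (η - 1) * (1 + (η - 1) * c) := by
          rw [← hc']; linear_combination hh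
        rw [hx]
        linear_combination hη3
      · rw [Ideal.span_singleton_eq_span_singleton]
        exact ⟨⟨η, η ^ 2, by rw [← hη3]; ring, by rw [← hη3]; ring⟩, by
          change η ^ 2 * x * η = x
          linear_combination x * hη3⟩
    · obtain ⟨c, hc⟩ := h1
      have hc' : h = -1 + (η - 1) * c := by linear_combination hc
      refine ⟨η * x, hlam _ ?_, ?_⟩
      · refine ⟨η * c - 1, ?_⟩
        have hx : x = 1 + (η - 1) * (-1 + (η - 1) * c) := by
          rw [← hc']; linear_combination hh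
        rw [hx]
        ring
      · rw [Ideal.span_singleton_eq_span_singleton]
        exact ⟨⟨η ^ 2, η, by rw [← hη3]; ring, by rw [← hη3]; ring⟩, by
          change η * x * η ^ 2 = x
          linear_combination x * hη3⟩
  rcases IsCyclotomicExtension.Rat.Three.lambda_dvd_or_dvd_sub_one_or_dvd_add_one om_spec g with
    h1 | h1 | h1
  · exact absurd h1 hnd
  · exact key g h1
  · obtain ⟨a, ha, hag⟩ := key (-g) (by
      have e : -g - 1 = -(g + 1) := by ring
      rw [e, dvd_neg]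
      exact h1)
    exact ⟨a, ha, by rw [hag, Ideal.span_singleton_neg]⟩

theorem psiK_of_coprime (I : Ideal (𝓞 K)) (hI : IsCoprime I (Ideal.span {3})) :
    (3 : 𝓞 K) ∣ psiK I - 1 ∧ Ideal.span {psiK I} = I := by
  have h := exists_gen I hI
  rw [psiK, dif_pos h]
  exact h.choose_spec

theorem psiK_of_not_coprime (I : Ideal (𝓞 K)) (hI : ¬ IsCoprime I (Ideal.span {3})) :
    psiK I = 0 := by
  rw [psiK, dif_neg]
  rintro ⟨a, ⟨c, hc⟩, rfl⟩
  apply hI
  rw [Ideal.isCoprime_span_singleton_iff]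
  exact ⟨1, -c, by linear_combination hc⟩

theorem psiK_one : psiK 1 = 1 := by
  have h := psiK_span 1 (by simp)
  rwa [Ideal.span_singleton_one, ← Ideal.one_eq_top] at h

theorem psiK_mul (I J : Ideal (𝓞 K)) : psiK (I * J) = psiK I * psiK J := by
  by_cases hI : IsCoprime I (Ideal.span {3})
  · by_cases hJ : IsCoprime J (Ideal.span {3})
    · obtain ⟨h1, h2⟩ := psiK_of_coprime I hI
      obtain ⟨h3, h4⟩ := psiK_of_coprime J hJ
      have h5 : (3 : 𝓞 K) ∣ psiK I * psiK J - 1 := by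
        have e : psiK I * psiK J - 1 = (psiK I - 1) * psiK J + (psiK J - 1) := by ring
        rw [e]
        exact dvd_add (Dvd.dvd.mul_right h1 _) h3
      have h6 := psiK_span _ h5
      rw [← Ideal.span_singleton_mul_span_singleton, h2, h4] at h6
      exact h6
    · rw [psiK_of_not_coprime J hJ, mul_zero, psiK_of_not_coprime]
      intro h
      exact hJ (IsCoprime.of_mul_left_right h)
  · rw [psiK_of_not_coprime I hI, zero_mul, psiK_of_not_coprime]
    intro h
    exact hI (IsCoprime.of_mul_left_left h)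

end Pool.Agent.Lib.MP_1a91b9_ntT.S4
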