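import Pool.Agent.Lib.MP_1a91b9_ntT.S4.PsiProps
import Pool.Agent.Lib.MP_1a91b9_ntT.S4.IsRep

/-!
# S4: `ψ_F` on principal ideals, and norms
-/

set_option autoImplicit false

namespace Pool.Agent.Lib.MP_1a91b9_ntT.S4

open NumberField IsDedekindDomain Pool.Agent.Lib.MP_1a91b9_nt

section
variable {F : Type*} [Field F] [NumberField F] [Algebra K F]

instance pid_K : IsPrincipalIdealRing (𝓞 K) := IsCyclotomicExtension.Rat.three_pid K

/-- the relative norm of integers -/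
noncomputable def nK (z : 𝓞 F) : 𝓞 K := Algebra.intNorm (𝓞 K) (𝓞 F) z

theorem nK_coe (z : 𝓞 F) : ((nK z : 𝓞 K) : K) = Algebra.norm K (z : F) := by
  exact Algebra.algebraMap_intNorm (A := 𝓞 K) (K := K) (L := F) (B := 𝓞 F) z

theorem embK_nK (z : 𝓞 F) : embK ((nK z : 𝓞 K) : K) = Nm (z : F) := by
  rw [Nm, nK_coe]

theorem nK_mul (x y : 𝓞 F) : nK (x * y) = nK x * nK y := map_mul _ _ _

theorem nK_one : nK (1 : 𝓞 F) = 1 := map_one _

theorem nK_ne_zero {z : 𝓞 F} (hz : z ≠ 0) : nK z ≠ 0 := by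
  intro h
  have h1 := congrArg (fun x : 𝓞 K => (x : K)) h
  simp only [nK_coe] at h1
  have h2 : Algebra.norm K (z : F) = 0 := by rw [h1]; rfl
  rw [Algebra.norm_eq_zero_iff] at h2
  apply hz
  apply RingOfIntegers.coe_injective
  rw [map_zero]
  exact h2

theorem relNorm_span (z : 𝓞 F) :
    Ideal.relNorm (𝓞 K) (Ideal.span {z}) = Ideal.span {nK z} :=
  Ideal.relNorm_singleton (𝓞 K) z

theorem intNorm_eq (z : 𝓞 F) : nK z = Algebra.norm (𝓞 K) z := by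
  have hfree : Module.Free (𝓞 K) (𝓞 F) := Module.free_of_finite_type_torsion_free'
  exact congrFun (congrArg DFunLike.coe (Algebra.intNorm_eq_norm (A := 𝓞 K) (B := 𝓞 F))) z

/-- congruence of norms -/
theorem nK_congr (c : 𝓞 K) (r t : 𝓞 F) (h : algebraMap (𝓞 K) (𝓞 F) c ∣ r - t) :
    c ∣ nK r - nK t := by
  have hfree : Module.Free (𝓞 K) (𝓞 F) := Module.free_of_finite_type_torsion_free'
  obtain ⟨s, hs⟩ := h
  have hr : r = t + c • s := by
    rw [Algebra.smul_def, ← hs]; ring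
  set B := Module.Free.chooseBasis (𝓞 K) (𝓞 F)
  rw [intNorm_eq, intNorm_eq, Algebra.norm_eq_matrix_det B, Algebra.norm_eq_matrix_det B]
  -- reduce modulo `c`
  set q := Ideal.Quotient.mk (Ideal.span {c})
  rw [← Ideal.mem_span_singleton, ← Ideal.Quotient.eq]
  rw [RingHom.map_det, RingHom.map_det]
  congr 1
  ext i j
  rw [hr, map_add, map_smul]
  simp only [RingHom.mapMatrix_apply, Matrix.map_apply, Matrix.add_apply, Matrix.smul_apply,
    map_add, smul_eq_mul, map_mul]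
  have hc : (Ideal.Quotient.mk (Ideal.span {c})) c = 0 := by
    rw [Ideal.Quotient.eq_zero_iff_mem]
    exact Ideal.mem_span_singleton_self c
  rw [hc, zero_mul, add_zero]

/-- `ψ_F` of principal ideals in a class modulo `3` -/
theorem psi_span (t : 𝓞 F) (ht : IsCoprime (Ideal.span {t}) (Ideal.span {(3 : 𝓞 F)})) :
    ∃ ε : (𝓞 K)ˣ, ∀ r : 𝓞 F, (3 : 𝓞 F) ∣ r - t → psi F (Ideal.span {r}) = ε * nK r := by
  have hc : IsCoprime (Ideal.span {nK t}) (Ideal.span {(3 : 𝓞 K)}) := by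
    rw [Ideal.isCoprime_span_singleton_iff] at ht ⊢
    obtain ⟨x, y, hxy⟩ := ht
    have h1 := nK_congr (F := F) 3 (x * t) 1 ⟨-y, by rw [map_ofNat]; linear_combination hxy⟩
    rw [nK_mul, nK_one] at h1
    obtain ⟨w, hw⟩ := h1
    exact ⟨nK x, -w, by linear_combination hw⟩
  obtain ⟨γ, h3, h4⟩ := exists_gen _ hc
  rw [Ideal.span_singleton_eq_span_singleton] at h4
  obtain ⟨u, hu⟩ := h4
  refine ⟨u⁻¹, fun r hr => ?_⟩
  have h5 := nK_congr (F := F) 3 r t (by rw [map_ofNat]; exact hr)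
  have huu : ((u⁻¹ : (𝓞 K)ˣ) : 𝓞 K) * u = 1 := Units.inv_mul u
  have h6 : (3 : 𝓞 K) ∣ ((u⁻¹ : (𝓞 K)ˣ) : 𝓞 K) * nK r - 1 := by
    have e : ((u⁻¹ : (𝓞 K)ˣ) : 𝓞 K) * nK r - 1 = ((u⁻¹ : (𝓞 K)ˣ) : 𝓞 K) * (nK r - nK t) + (γ - 1) := by
      rw [← hu]
      linear_combination γ * huu
    rw [e]
    exact dvd_add (Dvd.dvd.mul_left h5 _) h3
  rw [psi, relNorm_span]
  have h7 : Ideal.span {nK r} = Ideal.span {((u⁻¹ : (𝓞 K)ˣ) : 𝓞 K) * nK r} := by
    rw [Ideal.span_singleton_eq_span_singleton]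
    exact ⟨u⁻¹, by rw [mul_comm]⟩
  rw [h7, psiK_span _ h6]

end

end Pool.Agent.Lib.MP_1a91b9_ntT.S4
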