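import Pool.Agent.Lib.MP_1a91b9_ntT.S4.PsiProps

/-!
# S4: `ψ_F` and the complex conjugation
-/

set_option autoImplicit false

namespace Pool.Agent.Lib.MP_1a91b9_ntT.S4

open NumberField IsDedekindDomain Pool.Agent.Lib.MP_1a91b9_nt
open scoped Pointwise

universe u

theorem om_eq : om ^ 2 + om + 1 = 0 := by
  have h := congrArg (fun x : 𝓞 K => (x : K)) omO_eq
  exact h

/-- conjugation of `K` -/
theorem exists_tau : ∃ τ : Gal(K/ℚ), τ om = -1 - om := by
  have hgal : IsGalois ℚ K := IsCyclotomicExtension.isGalois {3} ℚ K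
  by_contra hcon
  push Not at hcon
  have h1 : ∀ τ : Gal(K/ℚ), τ om = om := by
    intro τ
    have h2 : (τ om) ^ 2 + τ om + 1 = 0 := by
      rw [← map_pow, ← map_add, ← map_one τ, ← map_add, om_eq, map_zero]
    have h4 : (τ om - om) * (τ om + 1 + om) = 0 := by linear_combination h2 - om_eq
    rcases mul_eq_zero.mp h4 with h | h
    · exact sub_eq_zero.mp h
    · exact absurd (by linear_combination h) (hcon τ)
  obtain ⟨x, hx⟩ := (IsGalois.mem_range_algebraMap_iff_fixed om).mpr h1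
  have h6 := om_eq
  rw [← hx] at h6
  have h5 : x ^ 2 + x + 1 = 0 := by
    apply (algebraMap ℚ K).injective
    rw [map_add, map_add, map_pow, map_one, map_zero]
    exact h6
  nlinarith [sq_nonneg (2 * x + 1)]

/-- conjugation of `K` -/
noncomputable def tau : Gal(K/ℚ) := exists_tau.choose

theorem tau_om : tau om = -1 - om := exists_tau.choose_spec

/-- two embeddings of `K` which agree at `om` are equal -/
theorem embedding_ext {L : Type*} [Field L] [CharZero L] (f g : K →+* L) (h : f om = g om) :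
    f = g := by
  let f' : K →ₐ[ℚ] L := f.toRatAlgHom
  let g' : K →ₐ[ℚ] L := g.toRatAlgHom
  have h1 : f' = g' := (om_spec.powerBasis ℚ).algHom_ext (by
    rw [IsPrimitiveRoot.powerBasis_gen]
    exact h)
  exact congrArg AlgHom.toRingHom h1

theorem embK_tau (x : K) : embK (tau x) = (starRingEnd ℂ) (embK x) := by
  have h := embedding_ext (embK.toRingHom.comp tau.toRingEquiv.toRingHom)
    ((starRingEnd ℂ).comp embK.toRingHom) (by
      change embK (tau om) = (starRingEnd ℂ) (embK om)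
      rw [tau_om, map_sub, map_neg, map_one, embK_om, conj_zt])
  exact congrArg (fun f => f x) h

/-- conjugation of `𝓞 K` -/
noncomputable def cO : 𝓞 K ≃+* 𝓞 K := RingOfIntegers.mapRingEquiv tau.toRingEquiv

theorem cO_coe (x : 𝓞 K) : ((cO x : 𝓞 K) : K) = tau (x : K) := rfl

theorem psiK_map (I : Ideal (𝓞 K)) : psiK (I.map cO.toRingHom) = cO (psiK I) := by
  by_cases hI : IsCoprime I (Ideal.span {3})
  · obtain ⟨⟨d, hd⟩, h2⟩ := psiK_of_coprime I hI
    have h3 : Ideal.map cO.toRingHom I = Ideal.span {cO (psiK I)} := by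
      conv_lhs => rw [← h2]
      rw [Ideal.map_span, Set.image_singleton]
      rfl
    rw [h3]
    refine psiK_span _ ⟨cO d, ?_⟩
    rw [← map_one cO, ← map_sub, hd, map_mul, map_ofNat]
  · rw [psiK_of_not_coprime I hI, map_zero]
    apply psiK_of_not_coprime
    intro h
    apply hI
    obtain ⟨x, hx, y, hy, hxy⟩ := Ideal.isCoprime_iff_exists.mp h
    rw [Ideal.isCoprime_iff_exists]
    refine ⟨cO.symm x, ?_, cO.symm y, ?_, ?_⟩
    · have h1 : I.map cO.toRingHom = I.comap cO.symm.toRingHom := Ideal.map_comap_of_equiv cO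
      rw [h1] at hx
      exact hx
    · rw [Ideal.mem_span_singleton] at hy ⊢
      obtain ⟨c, hc⟩ := hy
      exact ⟨cO.symm c, by rw [hc, map_mul, map_ofNat]⟩
    · rw [← map_add, hxy, map_one]

section
variable {N F : Type u} [Field N] [NumberField N] [Field F] [NumberField F] [Algebra N F]
  [Algebra K F]

omit [NumberField N] in
/-- conjugation on places -/
theorem psi_conj (σ : Gal(F/N)) (hσ : σ (algebraMap K F om) = algebraMap K F (-1 - om))
    (w w' : HeightOneSpectrum (𝓞 F)) (hw : w'.asIdeal = σ • w.asIdeal) (hn : nrm w' = nrm w) :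
    psi F w'.asIdeal = cO (psi F w.asIdeal) := by
  have h1 : σ.toRingEquiv.toRingHom.comp (algebraMap K F) =
      (algebraMap K F).comp tau.toRingEquiv.toRingHom := embedding_ext _ _ (by
    change σ (algebraMap K F om) = algebraMap K F (tau om)
    rw [hσ, tau_om])
  have h2 : ∀ x : 𝓞 K, σ • (algebraMap (𝓞 K) (𝓞 F) x) = algebraMap (𝓞 K) (𝓞 F) (cO x) := by
    intro x
    apply RingOfIntegers.ext
    exact congrArg (fun f => f (x : K)) h1
  set P : Ideal (𝓞 K) := w.asIdeal.under (𝓞 K) with hP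
  set P' : Ideal (𝓞 K) := w'.asIdeal.under (𝓞 K) with hP'
  have hmap : P' = P.map cO.toRingHom := by
    have h3 : P.map cO.toRingHom = P.comap cO.symm.toRingHom := Ideal.map_comap_of_equiv cO
    rw [h3]
    ext x
    have h4 : x ∈ P' ↔ algebraMap (𝓞 K) (𝓞 F) x ∈ w'.asIdeal := Iff.rfl
    have h5 : x ∈ P.comap cO.symm.toRingHom ↔
        algebraMap (𝓞 K) (𝓞 F) (cO.symm x) ∈ w.asIdeal := Iff.rfl
    rw [h4, h5, hw, Ideal.mem_pointwise_smul_iff_inv_smul_mem]
    have h6 : σ⁻¹ • (algebraMap (𝓞 K) (𝓞 F) x) = algebraMap (𝓞 K) (𝓞 F) (cO.symm x) := by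
      rw [inv_smul_eq_iff, h2, cO.apply_symm_apply]
    rw [h6]
  have hPb : P ≠ ⊥ := Ideal.under_ne_bot _ w.ne_bot
  have hPb' : P' ≠ ⊥ := Ideal.under_ne_bot _ w'.ne_bot
  have hPp : P.IsPrime := inferInstance
  have hPp' : P'.IsPrime := inferInstance
  have hPmax : P.IsMaximal := Ideal.IsPrime.isMaximal inferInstance hPb
  have hPmax' : P'.IsMaximal := Ideal.IsPrime.isMaximal inferInstance hPb'
  have hlo : w.asIdeal.LiesOver P := ⟨rfl⟩
  have hlo' : w'.asIdeal.LiesOver P' := ⟨rfl⟩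
  have hvmax : w.asIdeal.IsMaximal := w.isMaximal
  have hvmax' : w'.asIdeal.IsMaximal := w'.isMaximal
  have hrel : Ideal.relNorm (𝓞 K) w.asIdeal = P ^ w.asIdeal.inertiaDeg (𝓞 K) :=
    Ideal.relNorm_eq_pow_of_isMaximal w.asIdeal P
  have hrel' : Ideal.relNorm (𝓞 K) w'.asIdeal = P' ^ w'.asIdeal.inertiaDeg (𝓞 K) :=
    Ideal.relNorm_eq_pow_of_isMaximal w'.asIdeal P'
  have hN : Ideal.absNorm P' = Ideal.absNorm P := by
    rw [hmap, Ideal.absNorm_apply, Ideal.absNorm_apply, Submodule.cardQuot_apply,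
      Submodule.cardQuot_apply]
    exact Nat.card_congr (Ideal.quotientEquiv P (P.map cO.toRingHom) cO rfl).symm.toEquiv
  have hf : w'.asIdeal.inertiaDeg (𝓞 K) = w.asIdeal.inertiaDeg (𝓞 K) := by
    have e1 : nrm w = Ideal.absNorm P ^ w.asIdeal.inertiaDeg (𝓞 K) := by
      rw [nrm_eq, Ideal.absNorm_pow_inertiaDeg P w.asIdeal]
    have e2 : nrm w' = Ideal.absNorm P' ^ w'.asIdeal.inertiaDeg (𝓞 K) := by
      rw [nrm_eq, Ideal.absNorm_pow_inertiaDeg P' w'.asIdeal]
    rw [e1, e2, hN] at hn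
    have hP2 : 2 ≤ Ideal.absNorm P := by
      have h0 : Ideal.absNorm P ≠ 0 := Ideal.absNorm_ne_zero_iff_mem_nonZeroDivisors.mpr
        (mem_nonZeroDivisors_iff_ne_zero.mpr hPb)
      have h1 : Ideal.absNorm P ≠ 1 := by
        rw [Ne, Ideal.absNorm_eq_one_iff]
        exact hPmax.ne_top
      omega
    exact Nat.pow_right_injective hP2 hn
  rw [psi, psi, hrel, hrel', hf, hmap, ← Ideal.map_pow, psiK_map]

/-- the complex form -/
theorem psiC_conj (σ : Gal(F/N)) (hσ : σ (algebraMap K F om) = algebraMap K F (-1 - om))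
    (w w' : HeightOneSpectrum (𝓞 F)) (hw : w'.asIdeal = σ • w.asIdeal) (hn : nrm w' = nrm w) :
    psiC F w'.asIdeal = psibC F w.asIdeal := by
  rw [psiC, psi_conj σ hσ w w' hw hn, cO_coe, embK_tau]
  rfl

end

end Pool.Agent.Lib.MP_1a91b9_ntT.S4
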