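import Pool.Agent.Lib.MP_1a91b9_ntT.S4.FactorB

/-!
# S4: the splitting characters in a biquadratic extension `F' = N(√-3, √δ)`
-/

set_option autoImplicit false

namespace Pool.Agent.Lib.MP_1a91b9_ntT.S4

open NumberField IsDedekindDomain Polynomial Pool.Agent.Lib.MP_1a91b9_nt

universe u

section
variable {F F' : Type u} [Field F] [NumberField F] [Field F'] [NumberField F'] [Algebra F F']

theorem two_le_nrm' (v : HeightOneSpectrum (𝓞 F)) : 2 ≤ nrm v := by
  have := finite_residue v
  exact Finite.one_lt_card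

/-- the three values of the splitting character -/
theorem splitChar_spec (hL : Module.finrank F F' = 2) (v : HeightOneSpectrum (𝓞 F)) :
    (splitChar F' v = 1 ∧ Fintype.card (Over F' v) = 2 ∧ ∀ w : Over F' v, nrm w.1 = nrm v) ∨
    (splitChar F' v = -1 ∧ Fintype.card (Over F' v) = 1 ∧
      ∀ w : Over F' v, nrm w.1 = nrm v ^ 2) ∨
    (splitChar F' v = 0 ∧ Fintype.card (Over F' v) = 1 ∧ ∀ w : Over F' v, nrm w.1 = nrm v) := by
  rcases quad_cases hL v with ⟨h1, h2⟩ | ⟨h1, h2⟩ | ⟨h1, h2⟩
  · left
    exact ⟨by rw [splitChar, if_pos h1], h1, fun w => (h2 w).2⟩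
  · right; left
    refine ⟨?_, h1, fun w => (h2 w).2⟩
    rw [splitChar, if_neg (by omega), if_pos fun w => (h2 w).1]
  · right; right
    refine ⟨?_, h1, fun w => (h2 w).2⟩
    rw [splitChar, if_neg (by omega), if_neg]
    intro h
    have hne : Nonempty (Over F' v) := by
      rw [← Fintype.card_pos_iff]
      omega
    obtain ⟨w⟩ := hne
    have := h w
    rw [(h2 w).1] at this
    omega

end

section
variable {N F F' : Type u} [Field N] [NumberField N] [Field F] [NumberField F] [Field F']
  [NumberField F'] [Algebra N F] [Algebra F F'] [Algebra N F'] [IsScalarTower N F F']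

theorem under_tower (w' : HeightOneSpectrum (𝓞 F')) :
    (w'.asIdeal.under (𝓞 F)).under (𝓞 N) = w'.asIdeal.under (𝓞 N) := by
  have hst : IsScalarTower (𝓞 N) (𝓞 F) (𝓞 F') := inferInstance
  rw [Ideal.under_under]

variable (F) in
/-- the place below -/
noncomputable def below (v : HeightOneSpectrum (𝓞 N)) (w' : Over F' v) : Over F v :=
  ⟨w'.1.under (𝓞 F), by
    change (w'.1.asIdeal.under (𝓞 F)).under (𝓞 N) = _
    rw [under_tower (N := N) (F := F)]
    exact w'.2⟩

theorem card_over_tower (v : HeightOneSpectrum (𝓞 N)) :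
    Fintype.card (Over F' v) = ∑ w : Over F v, Fintype.card (Over F' w.1) := by
  classical
  rw [← Fintype.card_sigma]
  refine Fintype.card_congr ?_
  exact
    { toFun := fun w' => ⟨below F v w', ⟨w'.1, rfl⟩⟩
      invFun := fun x => ⟨x.2.1, by
        rw [← under_tower (N := N) (F := F), x.2.2]
        exact x.1.2⟩
      left_inv := fun w' => rfl
      right_inv := by
        rintro ⟨⟨w, hw⟩, ⟨w', hw'⟩⟩
        have e : w'.under (𝓞 F) = w := HeightOneSpectrum.ext hw'
        subst e
        rfl }

end

section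
variable {N M F F' : Type u} [Field N] [NumberField N] [Field M] [NumberField M] [Field F]
  [NumberField F] [Field F'] [NumberField F'] [Algebra N F] [Algebra F F'] [Algebra N F']
  [IsScalarTower N F F'] [Algebra N M] [Algebra M F'] [IsScalarTower N M F']

theorem splitChar_compat (hF : Module.finrank N F = 2) (hM : Module.finrank N M = 2)
    (hFF : Module.finrank F F' = 2) (hMF : Module.finrank M F' = 2) (ζ : F)
    (hζ : ζ ^ 2 + ζ + 1 = 0) (hn : ∀ x : N, algebraMap N F x ≠ ζ)
    (hnM : ∀ x : M, algebraMap M F' x ≠ algebraMap F F' ζ) (v : HeightOneSpectrum (𝓞 N))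
    (h3 : (3 : 𝓞 N) ∉ v.asIdeal) :
    (3 ∣ nrm v - 1 ∧ ∀ w : Over F v, splitChar F' w.1 = splitChar M v) ∨
    (¬ 3 ∣ nrm v - 1 ∧ ∀ w : Over F v, splitChar F' w.1 = splitChar M v ^ 2) := by
  classical
  have hζ' : (algebraMap F F' ζ) ^ 2 + algebraMap F F' ζ + 1 = 0 := by
    rw [← map_pow, ← map_add, ← map_one (algebraMap F F'), ← map_add, hζ, map_zero]
  have h3M : ∀ w : Over M v, (3 : 𝓞 M) ∉ w.1.asIdeal := by
    intro w hmem
    apply h3
    rw [← w.2]
    change algebraMap (𝓞 N) (𝓞 M) 3 ∈ w.1.asIdeal
    rw [map_ofNat]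
    exact hmem
  have hq2 := two_le_nrm' v
  have hqq : nrm v ^ 2 ≠ nrm v := by nlinarith
  have t1 := card_over_tower (F := F) (F' := F') v
  have t2 := card_over_tower (F := M) (F' := F') v
  have hle : ∀ w : Over F v, Fintype.card (Over F' w.1) ≤ 2 := by
    intro w
    rcases splitChar_spec hFF w.1 with h | h | h <;> omega
  have hge : ∀ w : Over F v, 1 ≤ Fintype.card (Over F' w.1) := by
    intro w
    rcases splitChar_spec hFF w.1 with h | h | h <;> omega
  have hex : ∀ w : Over F v, ∃ w' : Over F' v, w'.1.asIdeal.under (𝓞 F) = w.1.asIdeal := by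
    intro w
    have hne : Nonempty (Over F' w.1) := by
      rw [← Fintype.card_pos_iff]
      have := hge w
      omega
    obtain ⟨w'⟩ := hne
    refine ⟨⟨w'.1, ?_⟩, w'.2⟩
    rw [← under_tower (N := N) (F := F), w'.2]
    exact w.2
  rcases u4_split hF ζ hζ hn v h3 with ⟨g1, g2, g3⟩ | ⟨g1, g2, g3⟩
  · left
    refine ⟨g1, ?_⟩
    have g3' : Fintype.card (Over F v) = 2 := by rw [← Nat.card_eq_fintype_card]; exact g3
    -- all places of `M` above `v` split in `F'`
    have hdiv : ∀ w : Over M v, 3 ∣ nrm w.1 - 1 := by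
      intro w
      have hn2 : nrm w.1 = nrm v ∨ nrm w.1 = nrm v ^ 2 := by
        rcases splitChar_spec hM v with h | h | h
        · exact Or.inl (h.2.2 w)
        · exact Or.inr (h.2.2 w)
        · exact Or.inl (h.2.2 w)
      rcases hn2 with h | h
      · rw [h]; exact g1
      · rw [h]
        have e : nrm v ^ 2 - 1 = (nrm v - 1) * (nrm v + 1) := by
          rw [Nat.sub_mul, one_mul, Nat.mul_add, mul_one]
          have : nrm v ^ 2 = nrm v * nrm v := by ring
          omega
        rw [e]
        exact Dvd.dvd.mul_right g1 _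
    have hM2 : ∀ w : Over M v, Fintype.card (Over F' w.1) = 2 ∧
        ∀ w' : Over F' w.1, nrm w'.1 = nrm w.1 := by
      intro w
      rcases u4_split hMF _ hζ' hnM w.1 (h3M w) with ⟨k1, k2, k3⟩ | ⟨k1, k2, k3⟩
      · refine ⟨?_, fun w' => k2 w'.1 w'.2⟩
        rw [← Nat.card_eq_fintype_card]; exact k3
      · exact absurd (hdiv w) k1
    have tot : Fintype.card (Over F' v) = 2 * Fintype.card (Over M v) := by
      rw [t2, Finset.sum_congr rfl (fun w _ => (hM2 w).1), Finset.sum_const, Finset.card_univ,
        smul_eq_mul, mul_comm]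
    intro w
    rcases splitChar_spec hM v with ⟨a1, a2, a3⟩ | ⟨a1, a2, a3⟩ | ⟨a1, a2, a3⟩
    · have hs : ∑ w : Over F v, Fintype.card (Over F' w.1) = ∑ _w : Over F v, 2 := by
        rw [← t1, tot, a2, Finset.sum_const, Finset.card_univ, g3', smul_eq_mul]
      have := (Finset.sum_eq_sum_iff_of_le (fun w _ => hle w)).mp hs w (Finset.mem_univ w)
      rw [a1]
      rcases splitChar_spec hFF w.1 with h | h | h
      · exact h.1
      · omega
      · omega
    · obtain ⟨w', hw'⟩ := hex w
      have e1 : nrm w'.1 = nrm v ^ 2 := by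
        rw [(hM2 (below M v w')).2 ⟨w'.1, rfl⟩, a3]
      rw [a1]
      rcases splitChar_spec hFF w.1 with h | h | h
      · have := h.2.2 ⟨w'.1, hw'⟩
        rw [g2 w.1 w.2] at this
        exact absurd (e1.symm.trans this) hqq
      · exact h.1
      · have := h.2.2 ⟨w'.1, hw'⟩
        rw [g2 w.1 w.2] at this
        exact absurd (e1.symm.trans this) hqq
    · have hs : ∑ _w : Over F v, 1 = ∑ w : Over F v, Fintype.card (Over F' w.1) := by
        rw [← t1, tot, a2, Finset.sum_const, Finset.card_univ, g3', smul_eq_mul]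
      have hc := (Finset.sum_eq_sum_iff_of_le (fun w _ => hge w)).mp hs w (Finset.mem_univ w)
      obtain ⟨w', hw'⟩ := hex w
      have e1 : nrm w'.1 = nrm v := by
        rw [(hM2 (below M v w')).2 ⟨w'.1, rfl⟩, a3]
      rw [a1]
      rcases splitChar_spec hFF w.1 with h | h | h
      · omega
      · have := h.2.2 ⟨w'.1, hw'⟩
        rw [g2 w.1 w.2, e1] at this
        exact absurd this.symm hqq
      · exact h.1
  · right
    refine ⟨g1, ?_⟩
    have g3' : Fintype.card (Over F v) = 1 := by rw [← Nat.card_eq_fintype_card]; exact g3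
    have hone : ∀ w : Over F v, ∑ w : Over F v, Fintype.card (Over F' w.1) =
        Fintype.card (Over F' w.1) := by
      intro w
      have hsub : Subsingleton (Over F v) := Fintype.card_le_one_iff_subsingleton.mp g3'.le
      rw [Fintype.sum_subsingleton _ w]
    intro w
    rcases splitChar_spec hM v with ⟨a1, a2, a3⟩ | ⟨a1, a2, a3⟩ | ⟨a1, a2, a3⟩
    · have hM2 : ∀ w : Over M v, Fintype.card (Over F' w.1) = 1 := by
        intro w
        rcases u4_split hMF _ hζ' hnM w.1 (h3M w) with ⟨k1, k2, k3⟩ | ⟨k1, k2, k3⟩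
        · rw [a3 w] at k1
          exact absurd k1 g1
        · rw [← Nat.card_eq_fintype_card]; exact k3
      have tot : Fintype.card (Over F' v) = 2 := by
        rw [t2, Finset.sum_congr rfl (fun w _ => hM2 w), Finset.sum_const, Finset.card_univ,
          smul_eq_mul, mul_one, a2]
      have hc : Fintype.card (Over F' w.1) = 2 := by rw [← hone w, ← t1, tot]
      rw [a1, one_pow]
      rcases splitChar_spec hFF w.1 with h | h | h
      · exact h.1
      · omega
      · omega
    · have hM2 : ∀ w : Over M v, Fintype.card (Over F' w.1) = 2 := by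
        intro w
        rcases u4_split hMF _ hζ' hnM w.1 (h3M w) with ⟨k1, k2, k3⟩ | ⟨k1, k2, k3⟩
        · rw [← Nat.card_eq_fintype_card]; exact k3
        · exfalso
          apply k1
          rw [a3 w]
          -- `q` is prime to `3`
          have hq3 : ¬ 3 ∣ nrm v := by
            intro h
            apply h3
            have hmem : ((nrm v : ℕ) : 𝓞 N) ∈ v.asIdeal := by
              rw [nrm_eq]
              exact Ideal.absNorm_mem v.asIdeal
            -- `3 ∣ q = p ^ n` gives `p = 3`
            have hmax := v.isMaximal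
            let _ : Field (𝓞 N ⧸ v.asIdeal) := Ideal.Quotient.field _
            have hfin : Finite (𝓞 N ⧸ v.asIdeal) := Ideal.finiteQuotientOfFreeOfNeBot _ v.ne_bot
            have := Fintype.ofFinite (𝓞 N ⧸ v.asIdeal)
            have hcard : nrm v = Nat.card (𝓞 N ⧸ v.asIdeal) := by rw [nrm_eq]; rfl
            have h3q : (3 : 𝓞 N ⧸ v.asIdeal) = 0 := by
              obtain ⟨p, hp⟩ := CharP.exists (𝓞 N ⧸ v.asIdeal)
              obtain ⟨n, hn1, hn2⟩ := FiniteField.card (𝓞 N ⧸ v.asIdeal) p
              rw [Nat.card_eq_fintype_card, hn2] at hcard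
              rw [hcard] at h
              have h3p : 3 ∣ p := Nat.prime_three.dvd_of_dvd_pow h
              have hp3 : p = 3 := ((Nat.prime_dvd_prime_iff_eq Nat.prime_three hn1).mp h3p).symm
              subst hp3
              exact_mod_cast CharP.cast_eq_zero (𝓞 N ⧸ v.asIdeal) 3
            rw [← Ideal.Quotient.eq_zero_iff_mem, map_ofNat]
            exact h3q
          have e : nrm v ^ 2 - 1 = (nrm v - 1) * (nrm v + 1) := by
            rw [Nat.sub_mul, one_mul, Nat.mul_add, mul_one]
            have : nrm v ^ 2 = nrm v * nrm v := by ring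
            omega
          rw [e]
          refine Dvd.dvd.mul_left ?_ _
          omega
      have tot : Fintype.card (Over F' v) = 2 := by
        rw [t2, Finset.sum_congr rfl (fun w _ => hM2 w), Finset.sum_const, Finset.card_univ,
          smul_eq_mul, a2, one_mul]
      have hc : Fintype.card (Over F' w.1) = 2 := by rw [← hone w, ← t1, tot]
      rw [a1]
      rcases splitChar_spec hFF w.1 with h | h | h
      · rw [h.1]; norm_num
      · omega
      · omega
    · have hM2 : ∀ w : Over M v, Fintype.card (Over F' w.1) = 1 ∧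
          ∀ w' : Over F' w.1, nrm w'.1 = nrm v ^ 2 := by
        intro w
        rcases u4_split hMF _ hζ' hnM w.1 (h3M w) with ⟨k1, k2, k3⟩ | ⟨k1, k2, k3⟩
        · rw [a3 w] at k1
          exact absurd k1 g1
        · refine ⟨by rw [← Nat.card_eq_fintype_card]; exact k3, fun w' => ?_⟩
          rw [k2 w'.1 w'.2, a3 w]
      have tot : Fintype.card (Over F' v) = 1 := by
        rw [t2, Finset.sum_congr rfl (fun w _ => (hM2 w).1), Finset.sum_const, Finset.card_univ,
          smul_eq_mul, a2, one_mul]
      have hc : Fintype.card (Over F' w.1) = 1 := by rw [← hone w, ← t1, tot]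
      obtain ⟨w', hw'⟩ := hex w
      have e1 : nrm w'.1 = nrm v ^ 2 := (hM2 (below M v w')).2 ⟨w'.1, rfl⟩
      rw [a1]
      rcases splitChar_spec hFF w.1 with h | h | h
      · omega
      · have := h.2.2 ⟨w'.1, hw'⟩
        rw [g2 w.1 w.2, e1] at this
        have h5 : 2 ≤ nrm v ^ 2 := by nlinarith
        have h6 : (nrm v ^ 2) ^ 2 ≠ nrm v ^ 2 := by nlinarith
        exact absurd this.symm h6
      · rw [h.1]; norm_num

end

end Pool.Agent.Lib.MP_1a91b9_ntT.S4
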