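import Mathlib

/-!
# S4: ideals of `ℤ[ω]`
-/

set_option autoImplicit false

namespace Pool.Agent.Lib.MP_1a91b9_ntT.S4

open NumberField Polynomial

section
variable {K : Type*} [Field K] [NumberField K] [IsCyclotomicExtension {3} ℚ K]

theorem u4_finrank : Module.finrank ℚ K = 2 := by
  rw [IsCyclotomicExtension.Rat.finrank 3 K]
  rfl

/-- complex conjugation on `ℤ[ω]` -/
theorem u4_conj (ω : 𝓞 K) (hω : ω ^ 2 + ω + 1 = 0) : ∃ σ : 𝓞 K ≃+* 𝓞 K, σ ω = -1 - ω := by
  have hgal : IsGalois ℚ K := IsCyclotomicExtension.isGalois {3} ℚ K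
  have hω' : (ω : K) ^ 2 + (ω : K) + 1 = 0 := by
    have := congrArg (algebraMap (𝓞 K) K) hω
    rw [map_add, map_add, map_pow, map_one, map_zero] at this
    exact this
  by_contra hcon
  push Not at hcon
  have h1 : ∀ τ : Gal(K/ℚ), τ (ω : K) = ω := by
    intro τ
    have h2 : (τ (ω : K)) ^ 2 + τ (ω : K) + 1 = 0 := by
      rw [← map_pow, ← map_add, ← map_one τ, ← map_add, hω', map_zero]
    have h4 : (τ (ω : K) - ω) * (τ (ω : K) + 1 + ω) = 0 := by linear_combination h2 - hω'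
    rcases mul_eq_zero.mp h4 with h | h
    · exact sub_eq_zero.mp h
    · exfalso
      apply hcon (RingOfIntegers.mapRingEquiv τ.toRingEquiv)
      apply RingOfIntegers.ext
      have e : ((RingOfIntegers.mapRingEquiv τ.toRingEquiv ω : 𝓞 K) : K) = τ (ω : K) := rfl
      rw [e]
      have e2 : ((-1 - ω : 𝓞 K) : K) = -1 - (ω : K) := by
        change algebraMap (𝓞 K) K (-1 - ω) = -1 - algebraMap (𝓞 K) K ω
        rw [map_sub, map_neg, map_one]
      rw [e2]
      linear_combination h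
  obtain ⟨x, hx⟩ := (IsGalois.mem_range_algebraMap_iff_fixed (ω : K)).mpr h1
  rw [← hx] at hω'
  have h5 : x ^ 2 + x + 1 = 0 := by
    apply (algebraMap ℚ K).injective
    rw [map_add, map_add, map_pow, map_one, map_zero]
    exact hω'
  nlinarith [sq_nonneg (2 * x + 1)]

theorem u4_absNorm_p (p : ℕ) : Ideal.absNorm (Ideal.span {(p : 𝓞 K)}) = p ^ 2 := by
  rw [Ideal.absNorm_span_natCast, RingOfIntegers.rank, u4_finrank]

/-- In residue characteristic `2` mod `3` there is one prime. -/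
theorem u4_prime_two (p : ℕ) [Fact p.Prime] (hp : p % 3 = 2) (ω : 𝓞 K) (hω : ω ^ 2 + ω + 1 = 0)
    (P : Ideal (𝓞 K)) [P.IsPrime] (hP : (p : 𝓞 K) ∈ P) : P = Ideal.span {(p : 𝓞 K)} := by
  have hp0 : (p : 𝓞 K) ≠ 0 := Nat.cast_ne_zero.mpr (Fact.out : p.Prime).ne_zero
  have hPb : P ≠ ⊥ := by
    rintro rfl
    exact hp0 (by simpa using hP)
  have hmax : P.IsMaximal := Ideal.IsPrime.isMaximal inferInstance hPb
  have hle : Ideal.span {(p : 𝓞 K)} ≤ P := (Ideal.span_singleton_le_iff_mem _).mpr hP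
  have hdvd : Ideal.absNorm P ∣ p ^ 2 := by
    rw [← u4_absNorm_p (K := K) p]
    exact Ideal.absNorm_dvd_absNorm_of_le hle
  obtain ⟨j, hj, hPj⟩ := (Nat.dvd_prime_pow (Fact.out : p.Prime)).mp hdvd
  -- `3 ∣ absNorm P - 1`
  have h3 : 3 ∣ Ideal.absNorm P - 1 := by
    classical
    let _ : Field (𝓞 K ⧸ P) := Ideal.Quotient.field _
    have hfin : Finite (𝓞 K ⧸ P) := P.finiteQuotientOfFreeOfNeBot hPb
    have := Fintype.ofFinite (𝓞 K ⧸ P)
    have hcard : Fintype.card (𝓞 K ⧸ P) = Ideal.absNorm P := by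
      rw [Ideal.absNorm_apply, Submodule.cardQuot_apply, Nat.card_eq_fintype_card]
    set y : 𝓞 K ⧸ P := Ideal.Quotient.mk P ω with hy
    have h1 : y ^ 2 + y + 1 = 0 := by
      rw [hy, ← map_pow, ← map_add, ← map_one (Ideal.Quotient.mk P), ← map_add, hω, map_zero]
    have h13 : y ^ 3 = 1 := by linear_combination (y - 1) * h1
    have hy0 : y ≠ 0 := by
      intro h
      rw [h] at h13
      rw [zero_pow (by norm_num)] at h13
      exact zero_ne_one h13
    have hy1 : y ≠ 1 := by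
      intro h
      rw [h] at h1
      have h3 : (3 : 𝓞 K) ∈ P := by
        rw [← Ideal.Quotient.eq_zero_iff_mem, map_ofNat]
        linear_combination h1
      have hcop : Nat.Coprime p 3 := by
        rw [Nat.coprime_primes (Fact.out : p.Prime) Nat.prime_three]
        rintro rfl
        omega
      have hone : (1 : 𝓞 K) ∈ P := by
        have hb := Nat.gcd_eq_gcd_ab p 3
        rw [hcop.gcd_eq_one] at hb
        have hb' : (1 : 𝓞 K) = (p : 𝓞 K) * (p.gcdA 3 : 𝓞 K) + 3 * (p.gcdB 3 : 𝓞 K) := by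
          exact_mod_cast congrArg (Int.cast : ℤ → 𝓞 K) hb
        rw [hb']
        exact P.add_mem (P.mul_mem_right _ hP) (P.mul_mem_right _ h3)
      exact hmax.ne_top ((Ideal.eq_top_iff_one _).mpr hone)
    have hord : orderOf (Units.mk0 y hy0) = 3 := by
      refine orderOf_eq_prime (p := 3) ?_ ?_
      · ext
        simpa using h13
      · intro h
        apply hy1
        have := congrArg Units.val h
        simpa using this
    rw [← hcard, ← Fintype.card_units, ← hord]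
    exact orderOf_dvd_card
  have hne1 : Ideal.absNorm P ≠ 1 := by
    rw [Ne, Ideal.absNorm_eq_one_iff]
    exact hmax.ne_top
  have hj2 : j = 2 := by
    interval_cases j
    · rw [pow_zero] at hPj
      exact absurd hPj hne1
    · rw [pow_one] at hPj
      rw [hPj] at h3
      omega
    · rfl
  rw [hj2] at hPj
  symm
  have hdvdI : P ∣ Ideal.span {(p : 𝓞 K)} := Ideal.dvd_iff_le.mpr hle
  obtain ⟨I, hI⟩ := hdvdI
  have hnI : Ideal.absNorm I = 1 := by
    have := congrArg Ideal.absNorm hI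
    rw [map_mul, u4_absNorm_p, hPj] at this
    have hpos : 0 < p ^ 2 := pow_pos (Fact.out : p.Prime).pos 2
    exact (Nat.eq_of_mul_eq_mul_left hpos (by rw [mul_one]; exact this)).symm
  rw [Ideal.absNorm_eq_one_iff] at hnI
  rw [hI, hnI, Ideal.mul_top]

/-- Two different primes above `p`: their intersection is `(p)`. -/
theorem u4_two_primes (p : ℕ) [Fact p.Prime] (P Q : Ideal (𝓞 K)) [P.IsPrime] [Q.IsPrime]
    (hP : (p : 𝓞 K) ∈ P) (hQ : (p : 𝓞 K) ∈ Q) (hne : P ≠ Q) (x : 𝓞 K) (hxP : x ∈ P)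
    (hxQ : x ∈ Q) : (p : 𝓞 K) ∣ x := by
  have hp0 : (p : 𝓞 K) ≠ 0 := Nat.cast_ne_zero.mpr (Fact.out : p.Prime).ne_zero
  have hbot : ∀ I : Ideal (𝓞 K), (p : 𝓞 K) ∈ I → I ≠ ⊥ := by
    rintro _ hI rfl
    exact hp0 (by simpa using hI)
  have hPm : P.IsMaximal := Ideal.IsPrime.isMaximal inferInstance (hbot P hP)
  have hQm : Q.IsMaximal := Ideal.IsPrime.isMaximal inferInstance (hbot Q hQ)
  have hcop : IsCoprime P Q := Ideal.isCoprime_of_isMaximal hne
  have hinf : P ⊓ Q = P * Q := Ideal.inf_eq_mul_of_isCoprime hcop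
  have hle : Ideal.span {(p : 𝓞 K)} ≤ P * Q := by
    rw [← hinf]
    exact (Ideal.span_singleton_le_iff_mem _).mpr ⟨hP, hQ⟩
  obtain ⟨I, hI⟩ := Ideal.dvd_iff_le.mpr hle
  have hnorm : ∀ R : Ideal (𝓞 K), R.IsMaximal → (p : 𝓞 K) ∈ R → p ≤ Ideal.absNorm R := by
    intro R hR hpR
    have hdvd : Ideal.absNorm R ∣ p ^ 2 := by
      rw [← u4_absNorm_p (K := K) p]
      exact Ideal.absNorm_dvd_absNorm_of_le ((Ideal.span_singleton_le_iff_mem _).mpr hpR)
    obtain ⟨j, hj, hRj⟩ := (Nat.dvd_prime_pow (Fact.out : p.Prime)).mp hdvd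
    have hne1 : Ideal.absNorm R ≠ 1 := by
      rw [Ne, Ideal.absNorm_eq_one_iff]
      exact hR.ne_top
    have hj0 : j ≠ 0 := by
      rintro rfl
      exact hne1 (by rw [hRj, pow_zero])
    rw [hRj]
    exact Nat.le_self_pow hj0 p
  have h1 := hnorm P hPm hP
  have h2 := hnorm Q hQm hQ
  have h3 := congrArg Ideal.absNorm hI
  rw [map_mul, map_mul, u4_absNorm_p] at h3
  have hppos := (Fact.out : p.Prime).pos
  have hIpos : 0 < Ideal.absNorm I := by
    rcases Nat.eq_zero_or_pos (Ideal.absNorm I) with h | h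
    · rw [h, mul_zero] at h3
      exact absurd h3 (pow_pos hppos 2).ne'
    · exact h
  have h4 : p * p ≤ Ideal.absNorm P * Ideal.absNorm Q := Nat.mul_le_mul h1 h2
  have hI1 : Ideal.absNorm I = 1 := by
    by_contra hcon
    have h5 : 2 ≤ Ideal.absNorm I := by omega
    have h6 : p * p * 2 ≤ Ideal.absNorm P * Ideal.absNorm Q * Ideal.absNorm I :=
      Nat.mul_le_mul h4 h5
    rw [← h3, pow_two] at h6
    have h7 : 0 < p * p := Nat.mul_pos hppos hppos
    omega
  rw [Ideal.absNorm_eq_one_iff] at hI1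
  rw [hI1, Ideal.mul_top] at hI
  rw [← Ideal.mem_span_singleton, hI, ← hinf]
  exact ⟨hxP, hxQ⟩

end

end Pool.Agent.Lib.MP_1a91b9_ntT.S4
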