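import Pool.Agent.Lib.MP_1a91b9_ntT.S4.StepMain

/-!
# S4: the L-series of `ψbar_F χ` for the character of an admissible quadratic extension
-/

set_option autoImplicit false

namespace Pool.Agent.Lib.MP_1a91b9_ntT.S4

open IsDedekindDomain NumberField Pool.Agent.Lib.MP_1a91b9_nt

universe u

/-- The L-series of `ψbar_F χ` continues to `re s > 1/2` and its normalised value at `1` is a
two-adic unit. -/
def TwistProp (Ω : ℂ) (F F' : Type u) [Field F] [NumberField F] [Algebra K F] [Field F']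
    [NumberField F'] [Algebra F F'] : Prop :=
  ∃ H : ℂ → ℂ, DifferentiableOn ℂ H {s : ℂ | 1 / 2 < s.re} ∧
    (∀ s : ℂ, 2 < s.re → H s = Lf (psibChi (F := F) F') s) ∧
    ∀ W : ValuationSubring ℂ, (2 : ℂ)⁻¹ ∉ W → W.valuation (H 1 / Ω ^ (Module.finrank K F)) = 1

section
variable {F F' : Type u} [Field F] [NumberField F] [Field F'] [NumberField F'] [Algebra F F']
  [Algebra K F]

theorem euler_chi_ne_zero (x : ℤ) (hx : x = 0 ∨ x = 1 ∨ x = -1)
    (v : HeightOneSpectrum (𝓞 F)) (s : ℂ) (hs : 1 / 2 < s.re) :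
    1 - psibC F v.asIdeal * (x : ℂ) * (Ideal.absNorm v.asIdeal : ℂ) ^ (-s) ≠ 0 :=
  euler_ne_zero (fun I => psibC F I * (x : ℂ)) (fun I => norm_mul_sign_le I x hx) v s hs

theorem twist_main (δ : 𝓞 F) (hδ : Adm F δ) (x : F') (hx : x ^ 2 = algebraMap F F' δ)
    (hn : ¬ ∃ y : F, algebraMap F F' y = x)
    (hgen : ∀ z : F', ∃ a b : F, z = algebraMap F F' a + algebraMap F F' b * x)
    {Ω : ℂ} (hV : ValueProp Ω F) (hU : UnitProp Ω F) : TwistProp Ω F F' := by
  classical
  have hL : Module.finrank F F' = 2 := finrank_step _ x hx hn hgen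
  obtain ⟨m, hm0, hm1, hm3, hm2, hmv⟩ := exists_bad δ hδ.odd
  have htc : IsTotallyComplex F := totallyComplex_of_K
  have hrec : Reciprocity δ (splitChar F') :=
    S1.reciprocity δ hδ.odd hδ.sq (splitChar F') (isChi_splitChar hL δ x hx hn)
  obtain ⟨ψ, ψ1, ψmul, ψ0, ψpm, ψray, ψval⟩ := exists_rayChar hL δ x hx hn hrec m hm0 hm1 hm2
    (fun v hv => (hmv v).mpr (Or.inr hv))
  obtain ⟨ι, hι, J, G, hG, hJ, hGW, hfam⟩ := exists_family hV m hm0 hm1 hm3 hm2
  obtain ⟨L, hLd, hL1, hLW⟩ := hU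
  -- the bad places
  have hBfin : {v : HeightOneSpectrum (𝓞 F) | m ≤ v.asIdeal}.Finite := by
    refine (Ideal.finite_factors hm0).subset fun v hv => ?_
    exact Ideal.dvd_iff_le.mpr hv
  set B := hBfin.toFinset with hBdef
  have hB : ∀ v, v ∈ B ↔ m ≤ v.asIdeal := fun v => by
    rw [hBdef, Set.Finite.mem_toFinset]; rfl
  -- the dyadic places
  have h20 : Ideal.span {(2 : 𝓞 F)} ≠ 0 := by
    intro h
    have := Ideal.span_singleton_eq_bot.mp h
    norm_num at this
  have hDfin : {v : HeightOneSpectrum (𝓞 F) | (2 : 𝓞 F) ∈ v.asIdeal}.Finite := by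
    refine (Ideal.finite_factors h20).subset fun v hv => ?_
    exact Ideal.dvd_span_singleton.mpr hv
  set D := hDfin.toFinset with hDdef
  have hD : ∀ v, v ∈ D ↔ (2 : 𝓞 F) ∈ v.asIdeal := fun v => by
    rw [hDdef, Set.Finite.mem_toFinset]; rfl
  -- the two entire functions
  set G1 : ℂ → ℂ := fun s => ∑ i, (ψ (J i) : ℂ) * G i s with hG1
  set G0 : ℂ → ℂ := fun s => ∑ i, G i s with hG0
  have hG1d : Differentiable ℂ G1 :=
    Differentiable.fun_sum fun i _ => (differentiable_const _).mul (hG i)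
  have hG0d : Differentiable ℂ G0 := Differentiable.fun_sum fun i _ => hG i
  have hψn : ∀ I, ‖(ψ I : ℂ)‖ ≤ 1 := by
    intro I
    by_cases hI : IsCoprime I m
    · rcases ψpm I hI with h | h <;> rw [h] <;> simp
    · rw [ψ0 I hI]; simp
  have hψc : ∀ I, ψ I = 0 ∨ ψ I = 1 ∨ ψ I = -1 := by
    intro I
    by_cases hI : IsCoprime I m
    · exact Or.inr (ψpm I hI)
    · exact Or.inl (ψ0 I hI)
  have hG1L : ∀ s : ℂ, 2 < s.re → Lf (fun I => psibC F I * (ψ I : ℂ)) s = G1 s := fun s hs =>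
    hfam (fun I => (ψ I : ℂ)) (fun I hI => by rw [ψ0 I hI, Int.cast_zero]) hψn
      (fun I I' h => by rw [ψray I I' h]) s hs
  have hG0L : ∀ s : ℂ, 2 < s.re → Lf (fun I => psibC F I * indC m I) s = G0 s := by
    intro s hs
    rw [hfam (indC m) (fun I hI => indC_of_not hI) (norm_indC_le m) (indC_ray m) s hs]
    refine Finset.sum_congr rfl fun i _ => ?_
    rw [indC_of (hJ i), one_mul]
  -- identity of entire functions
  have id1 : G0 = fun s => L s * ∏ v ∈ B, (1 - psibC F v.asIdeal *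
      (Ideal.absNorm v.asIdeal : ℂ) ^ (-s)) := by
    refine entire_eq hG0d (hLd.mul (differentiable_euler B _)) fun s hs => ?_
    rw [← hG0L s hs, Lf_indC m B hB s hs, hL1 s hs]
  -- the denominator does not vanish
  have hden : ∀ s : ℂ, 1 / 2 < s.re → ∏ v ∈ D, (1 - psibC F v.asIdeal * (splitChar F' v : ℂ) *
        (Ideal.absNorm v.asIdeal : ℂ) ^ (-s)) ≠ 0 := fun s hs =>
    Finset.prod_ne_zero_iff.mpr fun v _ => euler_chi_ne_zero _ (splitChar_cases v) v s hs
  refine ⟨fun s => G1 s * (∏ v ∈ D, (1 - psibC F v.asIdeal * (ψ v.asIdeal : ℂ) *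
        (Ideal.absNorm v.asIdeal : ℂ) ^ (-s))) / ∏ v ∈ D, (1 - psibC F v.asIdeal *
        (splitChar F' v : ℂ) * (Ideal.absNorm v.asIdeal : ℂ) ^ (-s)), ?_, fun s hs => ?_,
      fun W hW => ?_⟩
  · refine DifferentiableOn.div ?_ ?_ fun s hs => hden s hs
    · exact (hG1d.mul (differentiable_euler D fun v => psibC F v.asIdeal * (ψ v.asIdeal : ℂ)))
        |>.differentiableOn
    · exact (differentiable_euler D fun v => psibC F v.asIdeal * (splitChar F' v : ℂ))
        |>.differentiableOn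
  · change G1 s * _ / _ = _
    rw [div_eq_iff (hden s (by linarith)), ← hG1L s hs,
      Lf_rayChar hL δ x hx m (fun v hv => (hmv v).mp hv) ψ ψ1 ψmul ψ0 ψpm ψval D hD s hs]
  set n := Module.finrank K F with hn_def
  -- value of `G0`
  have v0 : W.valuation (G0 1 / Ω ^ n) = 1 := by
    rw [id1]
    change W.valuation (L 1 * _ / Ω ^ n) = 1
    rw [mul_div_right_comm, map_mul, hLW W hW, one_mul, map_prod]
    refine Finset.prod_eq_one fun v hv => ?_
    rw [hB, hmv] at hv
    by_cases h3 : (3 : 𝓞 F) ∈ v.asIdeal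
    · rw [psibC_three v h3, zero_mul, sub_zero, map_one]
    · have ho : OddAt v δ := hv.resolve_left h3
      exact val_euler_odd W hW v h3 (odd_coprime_two δ hδ.odd v ho) (hδ.bad v h3 ho)
  -- value of `G1`
  have v1 : W.valuation (G1 1 / Ω ^ n) = 1 := by
    have e : G1 1 / Ω ^ n = G0 1 / Ω ^ n + ∑ i, ((ψ (J i) : ℂ) - 1) * (G i 1 / Ω ^ n) := by
      rw [hG1, hG0]
      simp only [Finset.sum_div, ← Finset.sum_add_distrib]
      refine Finset.sum_congr rfl fun i _ => ?_
      ring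
    rw [e]
    refine val_unit_add W v0 ?_
    refine Valuation.map_sum_lt _ one_ne_zero fun i _ => ?_
    rw [map_mul]
    have h1 : W.valuation ((ψ (J i) : ℂ) - 1) < 1 := by
      rcases ψpm _ (hJ i) with h | h
      · rw [h, Int.cast_one, sub_self, map_zero]; exact zero_lt_one
      · rw [h]
        have e : (((-1 : ℤ) : ℂ) - 1) = -2 := by push_cast; norm_num
        rw [e, Valuation.map_neg]
        exact val_two W hW
    exact mul_lt_one_of_lt_of_le h1 (hGW i W hW)
  -- the dyadic factors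
  have hprod : ∀ X : HeightOneSpectrum (𝓞 F) → ℤ, (∀ v ∈ D, X v = 1 ∨ X v = -1) →
      ∏ v ∈ D, W.valuation (1 - psibC F v.asIdeal * (X v : ℂ) *
        (Ideal.absNorm v.asIdeal : ℂ) ^ (-1 : ℂ)) =
      ∏ v ∈ D, (W.valuation (psiC F v.asIdeal))⁻¹ := by
    intro X hX
    refine Finset.prod_congr rfl fun v hv => ?_
    exact val_euler_dyadic W hW v ((hD v).mp hv) (X v) (hX v hv)
  obtain ⟨a, b, hab⟩ := hδ.sq
  change W.valuation (G1 1 * _ / _ / Ω ^ n) = 1
  rw [div_right_comm, mul_div_right_comm, map_div₀, map_mul, v1, one_mul, map_prod, map_prod,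
    hprod (fun v => splitChar F' v) (fun v hv => by
      refine splitChar_dyadic hL δ a b hab x hx hgen v ?_
      intro h
      obtain ⟨c, d, hcd⟩ := hδ.odd
      apply v.isPrime.ne_top
      rw [Ideal.eq_top_iff_one, ← hcd]
      exact Ideal.add_mem _ (Ideal.mul_mem_left _ _ h) (Ideal.mul_mem_left _ _ ((hD v).mp hv))),
    hprod (fun v => ψ v.asIdeal) (fun v hv => by
      refine ψpm _ ?_
      by_contra h
      rw [← le_iff_not_coprime] at h
      refine coprime_not_le hm2 v h ?_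
      rw [Ideal.span_singleton_le_iff_mem]
      exact (hD v).mp hv)]
  have hne : ∏ v ∈ D, (W.valuation (psiC F v.asIdeal))⁻¹ ≠ 0 := by
    refine Finset.prod_ne_zero_iff.mpr fun v hv => inv_ne_zero ?_
    rw [Valuation.ne_zero_iff]
    refine psiC_ne_zero v ?_
    intro h3
    apply v.isPrime.ne_top
    rw [Ideal.eq_top_iff_one]
    have e : (1 : 𝓞 F) = 3 - 2 := by norm_num
    rw [e]
    exact Ideal.sub_mem _ h3 ((hD v).mp hv)
  exact div_self hne

end

end Pool.Agent.Lib.MP_1a91b9_ntT.S4
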