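import Pool.Agent.Lib.MP_1a91b9_ntT.S4.StepMain
import Pool.Agent.Lib.MP_1a91b9_ntT.S4.BaseCase

/-!
# S4: the induction along the tower and the L-series of `E` over `F`
-/

set_option autoImplicit false

namespace Pool.Agent.Lib.MP_1a91b9_ntT.S4

open IsDedekindDomain NumberField Pool.Agent.Lib.MP_1a91b9_nt

universe u

/-- The normalised values of the L-series of `ψbar_F` are two-adic units along the tower. -/
theorem tower_unit {Ω : ℂ}
    (hval : ∀ (F : Type u) [Field F] [NumberField F] [Algebra K F], TowerK F → ValueProp Ω F)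
    (hbase : ∀ (F : Type u) [Field F] [NumberField F] [Algebra K F],
      Function.Bijective (algebraMap K F) → BaseVal Ω F)
    (F : Type u) [Field F] [NumberField F] [Algebra K F] (h : TowerK F) : UnitProp Ω F := by
  induction h with
  | base F h => exact base_main h (hbase F h)
  | step F F' δ hδ x hx hn hgen h ih =>
    exact step_main δ hδ x hx hn hgen (hval F h)
      (hval F' (TowerK.step F F' δ hδ x hx hn hgen h)) ih

section
variable {F : Type u} [Field F] [NumberField F] [Algebra K F]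

theorem UnitProp.ne_zero {Ω : ℂ} {L : ℂ} {n : ℕ} {W : ValuationSubring ℂ}
    (h : W.valuation (L / Ω ^ n) = 1) : L ≠ 0 := by
  rintro rfl
  rw [zero_div, map_zero] at h
  exact zero_ne_one h

theorem Lf_conj (s : ℂ) : Lf (psiC F) s = (starRingEnd ℂ) (Lf (psibC F) ((starRingEnd ℂ) s)) := by
  rw [Lf, Lf, Complex.conj_tsum]
  refine tsum_congr fun I => ?_
  rw [map_mul, psibC, Complex.conj_conj]
  congr 1
  rw [← map_neg, Complex.cpow_conj _ _ (by
    rw [Complex.natCast_arg]
    exact Real.pi_pos.ne), Complex.conj_natCast, Complex.conj_conj]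

theorem differentiable_conj_conj {f : ℂ → ℂ} (hf : Differentiable ℂ f) :
    Differentiable ℂ fun s => (starRingEnd ℂ) (f ((starRingEnd ℂ) s)) := by
  intro s
  have h := DifferentiableAt.conj_conj (hf ((starRingEnd ℂ) s))
  rw [Complex.conj_conj] at h
  exact h

/-- Theorem A, analytic part. -/
theorem main_A {Ω : ℂ} (h3 : NoCube3 F) (hU : UnitProp Ω F)
    (hW : ∃ W : ValuationSubring ℂ, (2 : ℂ)⁻¹ ∉ W) :
    ∃ g : ℂ → ℂ, Differentiable ℂ g ∧ (∀ s : ℂ, 2 < s.re → g s = (E F).LSeries s) ∧ g 1 ≠ 0 := by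
  obtain ⟨L, hL, hL1, hLW⟩ := hU
  obtain ⟨W, hW⟩ := hW
  have hne := UnitProp.ne_zero (hLW W hW)
  refine ⟨fun s => (starRingEnd ℂ) (L ((starRingEnd ℂ) s)) * L s,
    (differentiable_conj_conj hL).mul hL, fun s hs => ?_, ?_⟩
  · change (starRingEnd ℂ) (L ((starRingEnd ℂ) s)) * L s = _
    rw [LSeries_E h3 s hs, hL1 s hs, hL1 _ (by rw [Complex.conj_re]; exact hs), ← Lf_conj]
  · change (starRingEnd ℂ) (L ((starRingEnd ℂ) 1)) * L 1 ≠ 0
    rw [map_one]
    exact mul_ne_zero ((map_ne_zero _).mpr hne) hne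

end

end Pool.Agent.Lib.MP_1a91b9_ntT.S4
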