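import Pool.Agent.Lib.MP_1a91b9_ntT.S4.Biquad
import Pool.Agent.Lib.MP_1a91b9_ntT.S4.Twist
import Pool.Agent.Lib.MP_1a91b9_ntT.S4.MainA

/-!
# S4: the L-series of the quadratic twists of `E`
-/

set_option autoImplicit false

namespace Pool.Agent.Lib.MP_1a91b9_ntT.S4

open NumberField IsDedekindDomain Polynomial WeierstrassCurve Pool.Agent.Lib.MP_1a91b9_nt

universe u

/-- the Frobenius trace of `E` at `v` -/
noncomputable def aE {N : Type*} [Field N] [NumberField N] (v : HeightOneSpectrum (𝓞 N)) : ℤ :=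
  (nrm v : ℤ) + 1 - Nat.card (fermatCubic
    (IsLocalRing.ResidueField (v.adicCompletionIntegers N))).toAffine.Point

/-- The local polynomials of `W` are those of the twist of `E` by the character of `M/N`. -/
def TwistLoc {N : Type u} [Field N] [NumberField N] (M : Type u) [Field M] [NumberField M]
    [Algebra N M] (W : WeierstrassCurve N) : Prop :=
  ∀ v : HeightOneSpectrum (𝓞 N), ((3 : 𝓞 N) ∈ v.asIdeal → locPoly W v = 1) ∧
    ((3 : 𝓞 N) ∉ v.asIdeal → locPoly W v = 1 - Polynomial.C (splitChar M v * aE v) * X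
      + Polynomial.C (splitChar M v ^ 2 * (nrm v : ℤ)) * X ^ 2)

theorem aeval_shape' (a b : ℤ) (z : ℂ) :
    aeval z (1 - Polynomial.C a * X + Polynomial.C b * X ^ 2 : ℤ[X]) =
      1 - (a : ℂ) * z + (b : ℂ) * z ^ 2 := by
  simp

section A
variable {F F' : Type u} [Field F] [NumberField F] [Field F'] [NumberField F'] [Algebra F F']
  [Algebra K F]

theorem aE_eq (v : HeightOneSpectrum (𝓞 F)) (h3 : (3 : 𝓞 F) ∉ v.asIdeal) :
    ((aE v : ℤ) : ℂ) = psiC F v.asIdeal + psibC F v.asIdeal := by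
  have h1 := (psi_place v h3).2 1
  have h2 := (psi_place v h3).1
  have h4 : locPoly (E F) v = 1 - Polynomial.C (aE v) * X + Polynomial.C (nrm v : ℤ) * X ^ 2 :=
    locPoly_model v h3
  rw [h4, aeval_shape', Int.cast_natCast, ← h2] at h1
  linear_combination -h1

theorem fac_twist (W : WeierstrassCurve F) (hT : TwistLoc F' W) (v : HeightOneSpectrum (𝓞 F))
    (s : ℂ) : fac W v s =
      (1 - psiC F v.asIdeal * (splitChar F' v : ℂ) * (Ideal.absNorm v.asIdeal : ℂ) ^ (-s))⁻¹ *
      (1 - psibC F v.asIdeal * (splitChar F' v : ℂ) * (Ideal.absNorm v.asIdeal : ℂ) ^ (-s))⁻¹ := by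
  rw [fac, nrm_eq]
  by_cases h3 : (3 : 𝓞 F) ∈ v.asIdeal
  · rw [(hT v).1 h3, psibC, psiC, psi_place_three v h3]
    simp
  · rw [(hT v).2 h3, ← mul_inv]
    congr 1
    have h2 := (psi_place v h3).1
    rw [aeval_shape', Int.cast_mul, Int.cast_mul, Int.cast_pow, Int.cast_natCast, aE_eq v h3,
      ← h2]
    ring

variable (F') in
/-- `ψ_F χ` for the splitting character of `F'/F` -/
noncomputable def psiChi (I : Ideal (𝓞 F)) : ℂ := psiC F I * (chiI (splitChar F') I : ℂ)

theorem psiChi_one : psiChi F' (1 : Ideal (𝓞 F)) = 1 := by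
  rw [psiChi, psiC_one, chiI_one, Int.cast_one, mul_one]

theorem psiChi_mul (I J : Ideal (𝓞 F)) :
    psiChi F' (I * J) = psiChi F' I * psiChi F' J := by
  rw [psiChi, psiC_mul, chiI_mul, psiChi, psiChi, Int.cast_mul]
  ring

theorem psibChi_eq (I : Ideal (𝓞 F)) : psibChi F' I = (starRingEnd ℂ) (psiChi F' I) := by
  rw [psibChi, psiChi, map_mul, psibC]
  congr 1
  simp

theorem norm_psiChi_le (I : Ideal (𝓞 F)) :
    ‖psiChi F' I‖ ≤ (Ideal.absNorm I : ℝ) ^ (1 / 2 : ℝ) := by
  have h := norm_psibChi_le (F' := F') I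
  rw [psibChi_eq, RCLike.norm_conj] at h
  exact h

theorem Lf_conj_chi (s : ℂ) : Lf (psiChi (F := F) F') s =
    (starRingEnd ℂ) (Lf (psibChi (F := F) F') ((starRingEnd ℂ) s)) := by
  rw [Lf, Lf, Complex.conj_tsum]
  refine tsum_congr fun I => ?_
  rw [map_mul, psibChi_eq, Complex.conj_conj]
  congr 1
  rw [← map_neg, Complex.cpow_conj _ _ (by
    rw [Complex.natCast_arg]
    exact Real.pi_pos.ne), Complex.conj_natCast, Complex.conj_conj]

/-- The L-series of a twist over a field which contains `K`. -/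
theorem LSeries_twist_A (W : WeierstrassCurve F) (hT : TwistLoc F' W) (s : ℂ) (hs : 2 < s.re) :
    W.LSeries s = Lf (psiChi (F := F) F') s * Lf (psibChi (F := F) F') s := by
  have hp := (hasProd_Lf (psiChi (F := F) F') psiChi_one psiChi_mul (1 / 2) (by norm_num)
    norm_psiChi_le s (by linarith)).2
  have hq := (hasProd_Lf (psibChi (F := F) F') psibChi_one psibChi_mul (1 / 2) (by norm_num)
    norm_psibChi_le s (by linarith)).2
  have he := hasProd_fac W hs
  refine he.unique ?_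
  have e : (fun v : HeightOneSpectrum (𝓞 F) => fac W v s) = fun v =>
      (1 - psiChi (F := F) F' v.asIdeal * (Ideal.absNorm v.asIdeal : ℂ) ^ (-s))⁻¹ *
      (1 - psibChi (F := F) F' v.asIdeal * (Ideal.absNorm v.asIdeal : ℂ) ^ (-s))⁻¹ := by
    funext v
    rw [fac_twist W hT v s, psiChi, psibChi, chiI_place]
  rw [e]
  exact hp.mul hq

theorem differentiableOn_conj_conj {f : ℂ → ℂ} (hf : DifferentiableOn ℂ f {s : ℂ | 1 / 2 < s.re}) :
    DifferentiableOn ℂ (fun s => (starRingEnd ℂ) (f ((starRingEnd ℂ) s)))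
      {s : ℂ | 1 / 2 < s.re} := by
  have hopen : IsOpen {s : ℂ | 1 / 2 < s.re} := isOpen_lt continuous_const Complex.continuous_re
  intro s hs
  have hs' : (starRingEnd ℂ) s ∈ {s : ℂ | 1 / 2 < s.re} := by
    change 1 / 2 < ((starRingEnd ℂ) s).re
    rw [Complex.conj_re]
    exact hs
  have h := DifferentiableAt.conj_conj ((hf _ hs').differentiableAt (hopen.mem_nhds hs'))
  rw [Complex.conj_conj] at h
  exact h.differentiableWithinAt

/-- The analytic statement for the twist over a field which contains `K`. -/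
theorem main_twist_A {Ω : ℂ} (W : WeierstrassCurve F) (hT : TwistLoc F' W)
    (hU : TwistProp Ω F F') (hW : ∃ V : ValuationSubring ℂ, (2 : ℂ)⁻¹ ∉ V) :
    ∃ g : ℂ → ℂ, DifferentiableOn ℂ g {s : ℂ | 1 / 2 < s.re} ∧
      (∀ s : ℂ, 2 < s.re → g s = W.LSeries s) ∧ g 1 ≠ 0 := by
  obtain ⟨H, hH, hH1, hHW⟩ := hU
  obtain ⟨V, hV⟩ := hW
  have hne := UnitProp.ne_zero (hHW V hV)
  refine ⟨fun s => (starRingEnd ℂ) (H ((starRingEnd ℂ) s)) * H s,
    (differentiableOn_conj_conj hH).mul hH, fun s hs => ?_, ?_⟩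
  · change (starRingEnd ℂ) (H ((starRingEnd ℂ) s)) * H s = _
    rw [LSeries_twist_A W hT s hs, hH1 s hs, hH1 _ (by rw [Complex.conj_re]; exact hs),
      ← Lf_conj_chi]
  · change (starRingEnd ℂ) (H ((starRingEnd ℂ) 1)) * H 1 ≠ 0
    rw [map_one]
    exact mul_ne_zero ((_root_.map_ne_zero _).mpr hne) hne

end A

section B
variable {N M F F' : Type u} [Field N] [NumberField N] [Field M] [NumberField M] [Field F]
  [NumberField F] [Field F'] [NumberField F'] [Algebra N F] [Algebra F F'] [Algebra N F']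
  [IsScalarTower N F F'] [Algebra N M] [Algebra M F'] [IsScalarTower N M F'] [Algebra K F]

/-- the Euler factor of a twist over a field without `√-3` -/
theorem euler_twist_B (hF : Module.finrank N F = 2) (hM : Module.finrank N M = 2)
    (hFF : Module.finrank F F' = 2) (hMF : Module.finrank M F' = 2)
    (hn : ∀ x : N, algebraMap N F x ≠ algebraMap K F om)
    (hnM : ∀ x : M, algebraMap M F' x ≠ algebraMap F F' (algebraMap K F om))
    (h : NoCube3 N) (W : WeierstrassCurve N) (hT : TwistLoc M W)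
    (v : HeightOneSpectrum (𝓞 N)) (s : ℂ) :
    ∏ w : Over F v, (1 - psibC F w.1.asIdeal * (splitChar F' w.1 : ℂ) *
      (Ideal.absNorm w.1.asIdeal : ℂ) ^ (-s))⁻¹ = fac W v s := by
  have hζ : (algebraMap K F om) ^ 2 + algebraMap K F om + 1 = 0 := by
    rw [← map_pow, ← map_add, ← map_one (algebraMap K F), ← map_add, om_eq, map_zero]
  rw [fac]
  by_cases h3 : (3 : 𝓞 N) ∈ v.asIdeal
  · rw [(hT v).1 h3, map_one, inv_one]
    refine Finset.prod_eq_one fun w _ => ?_
    have h3w : (3 : 𝓞 F) ∈ w.1.asIdeal := by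
      have : (3 : 𝓞 N) ∈ w.1.asIdeal.under (𝓞 N) := by rw [w.2]; exact h3
      change algebraMap (𝓞 N) (𝓞 F) 3 ∈ w.1.asIdeal at this
      rwa [map_ofNat] at this
    rw [psibC, psiC, psi_place_three w.1 h3w]
    simp
  have hloc := (hT v).2 h3
  have hmod : locPoly (E N) v = 1 - Polynomial.C (aE v) * X + Polynomial.C (nrm v : ℤ) * X ^ 2 :=
    locPoly_model v h3
  have hq2 := two_le_nrm' v
  have hq0 : (nrm v : ℂ) ≠ 0 := by
    have : nrm v ≠ 0 := by omega
    exact_mod_cast this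
  have hcomp := splitChar_compat hF hM hFF hMF (algebraMap K F om) hζ hn hnM v h3
  rcases splitChar_spec hM v with ⟨a1, _, _⟩ | ⟨a1, _, _⟩ | ⟨a1, _, _⟩
  · -- split
    have hw : ∀ w : Over F v, splitChar F' w.1 = 1 := by
      intro w
      rcases hcomp with ⟨_, g⟩ | ⟨_, g⟩
      · rw [g w, a1]
      · rw [g w, a1, one_pow]
    have e1 : locPoly W v = locPoly (E N) v := by
      rw [hloc, hmod, a1, one_mul, one_pow, one_mul]
    have e2 := euler_B hF hn h v s
    rw [fac] at e2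
    rw [e1, ← e2]
    refine Finset.prod_congr rfl fun w _ => ?_
    rw [hw w, Int.cast_one, mul_one]
  · -- inert
    obtain ⟨t, ht⟩ : ∃ t : ℂ, (nrm v : ℂ) ^ (-t) = -(nrm v : ℂ) ^ (-s) := by
      have hlog : Complex.log (nrm v : ℂ) ≠ 0 := by
        rw [← Complex.natCast_log]
        have : (0 : ℝ) < Real.log (nrm v : ℝ) := Real.log_pos (by exact_mod_cast hq2)
        exact_mod_cast this.ne'
      refine ⟨s - Real.pi * Complex.I / Complex.log (nrm v : ℂ), ?_⟩
      rw [neg_sub, sub_eq_add_neg, Complex.cpow_add _ _ hq0]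
      have e3 : (nrm v : ℂ) ^ (Real.pi * Complex.I / Complex.log (nrm v : ℂ)) = -1 := by
        rw [Complex.cpow_def_of_ne_zero hq0, mul_div_cancel₀ _ hlog, Complex.exp_pi_mul_I]
      rw [e3]
      ring
    have e2 := euler_B hF hn h v t
    rw [fac, hmod, ht] at e2
    rw [hloc, a1]
    have e4 : (aeval ((nrm v : ℂ) ^ (-s))) (1 - Polynomial.C (-1 * aE v) * X +
        Polynomial.C ((-1) ^ 2 * (nrm v : ℤ)) * X ^ 2 : ℤ[X]) =
        (aeval (-(nrm v : ℂ) ^ (-s))) (1 - Polynomial.C (aE v) * X +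
        Polynomial.C (nrm v : ℤ) * X ^ 2 : ℤ[X]) := by
      rw [aeval_shape', aeval_shape']
      push_cast
      ring
    rw [e4, ← e2]
    refine Finset.prod_congr rfl fun w _ => ?_
    rcases u4_split hF (algebraMap K F om) hζ hn v h3 with ⟨k1, k2, _⟩ | ⟨k1, k2, _⟩
    · have hw : splitChar F' w.1 = -1 := by
        rcases hcomp with ⟨_, g⟩ | ⟨g', _⟩
        · rw [g w, a1]
        · exact absurd k1 g'
      have e5 := k2 w.1 w.2
      rw [nrm_eq w.1] at e5
      rw [hw, e5, ht, Int.cast_neg, Int.cast_one]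
      congr 1
      ring
    · have hw : splitChar F' w.1 = 1 := by
        rcases hcomp with ⟨g', _⟩ | ⟨_, g⟩
        · exact absurd g' k1
        · rw [g w, a1]; norm_num
      have e5 := k2 w.1 w.2
      rw [nrm_eq w.1] at e5
      have e6 : ∀ r : ℂ, ((nrm v ^ 2 : ℕ) : ℂ) ^ (-r) = (nrm v : ℂ) ^ (-r) * (nrm v : ℂ) ^ (-r) := by
        intro r
        rw [pow_two, Nat.cast_mul, Complex.natCast_mul_natCast_cpow]
      rw [hw, e5, e6, e6, ht, Int.cast_one]
      congr 1
      ring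
  · -- ramified
    have hw : ∀ w : Over F v, splitChar F' w.1 = 0 := by
      intro w
      rcases hcomp with ⟨_, g⟩ | ⟨_, g⟩
      · rw [g w, a1]
      · rw [g w, a1]; norm_num
    rw [hloc, a1]
    have e1 : (aeval ((nrm v : ℂ) ^ (-s))) (1 - Polynomial.C (0 * aE v) * X +
        Polynomial.C (0 ^ 2 * (nrm v : ℤ)) * X ^ 2 : ℤ[X]) = 1 := by
      simp
    rw [e1, inv_one]
    refine Finset.prod_eq_one fun w _ => ?_
    rw [hw w, Int.cast_zero, mul_zero, zero_mul, sub_zero, inv_one]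

/-- The L-series of a twist over a field without `√-3`. -/
theorem LSeries_twist_B (hF : Module.finrank N F = 2) (hM : Module.finrank N M = 2)
    (hFF : Module.finrank F F' = 2) (hMF : Module.finrank M F' = 2)
    (hn : ∀ x : N, algebraMap N F x ≠ algebraMap K F om)
    (hnM : ∀ x : M, algebraMap M F' x ≠ algebraMap F F' (algebraMap K F om))
    (h : NoCube3 N) (W : WeierstrassCurve N) (hT : TwistLoc M W) (s : ℂ) (hs : 2 < s.re) :
    W.LSeries s = Lf (psibChi (F := F) F') s := by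
  have h1 := (hasProd_Lf (psibChi (F := F) F') psibChi_one psibChi_mul (1 / 2) (by norm_num)
    norm_psibChi_le s (by linarith)).2
  have h2 := hasProd_over (F := N) (F' := F) _ _ h1
  have he := hasProd_fac W hs
  refine he.unique ?_
  have e : (fun v : HeightOneSpectrum (𝓞 N) => fac W v s) = fun v => ∏ w : Over F v,
      (1 - psibChi (F := F) F' w.1.asIdeal * (Ideal.absNorm w.1.asIdeal : ℂ) ^ (-s))⁻¹ := by
    funext v
    rw [← euler_twist_B hF hM hFF hMF hn hnM h W hT v s]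
    refine Finset.prod_congr rfl fun w _ => ?_
    rw [psibChi, chiI_place]
  rw [e]
  exact h2

/-- The analytic statement for the twist over a field without `√-3`. -/
theorem main_twist_B (hF : Module.finrank N F = 2) (hM : Module.finrank N M = 2)
    (hFF : Module.finrank F F' = 2) (hMF : Module.finrank M F' = 2)
    (hn : ∀ x : N, algebraMap N F x ≠ algebraMap K F om)
    (hnM : ∀ x : M, algebraMap M F' x ≠ algebraMap F F' (algebraMap K F om))
    (h : NoCube3 N) (W : WeierstrassCurve N) (hT : TwistLoc M W) {Ω : ℂ}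
    (hU : TwistProp Ω F F') (hW : ∃ V : ValuationSubring ℂ, (2 : ℂ)⁻¹ ∉ V) :
    ∃ g : ℂ → ℂ, DifferentiableOn ℂ g {s : ℂ | 1 / 2 < s.re} ∧
      (∀ s : ℂ, 2 < s.re → g s = W.LSeries s) ∧ g 1 ≠ 0 := by
  obtain ⟨H, hH, hH1, hHW⟩ := hU
  obtain ⟨V, hV⟩ := hW
  exact ⟨H, hH, fun s hs => by
    rw [hH1 s hs, LSeries_twist_B hF hM hFF hMF hn hnM h W hT s hs], UnitProp.ne_zero (hHW V hV)⟩

end B

end Pool.Agent.Lib.MP_1a91b9_ntT.S4
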