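import Pool.Agent.Lib.MP_1a91b9_nt.VarChange
import Pool.Agent.Lib.MP_1a91b9_ntT.S4.Add

/-!
# S4: the number of points of `y^2 + y = x^3` over a finite field, by Jacobi sums
-/

set_option autoImplicit false

namespace Pool.Agent.Lib.MP_1a91b9_ntT.S4

open WeierstrassCurve Pool.Agent.Lib.MP_1a91b9_nt

theorem u4_card_point {k : Type*} [Field k] [Fintype k] [DecidableEq k] (h3 : (3 : k) ≠ 0) :
    Nat.card (fermatCubic k).toAffine.Point =
      1 + ∑ y : k, (Finset.univ.filter fun x : k => x ^ 3 = y ^ 2 + y).card := by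
  classical
  have hns : ∀ p : k × k, (fermatCubic k).toAffine.Nonsingular p.1 p.2 ↔
      p.1 ^ 3 = p.2 ^ 2 + p.2 := by
    intro p
    have hell : (fermatCubic k).Δ ≠ 0 := by
      rw [fermatCubic_delta]
      have : (27 : k) = 3 ^ 3 := by norm_num
      rw [neg_ne_zero, this]
      exact pow_ne_zero 3 h3
    have hE : (fermatCubic k).IsElliptic := ⟨isUnit_iff_ne_zero.mpr hell⟩
    rw [← WeierstrassCurve.Affine.equation_iff_nonsingular,
      WeierstrassCurve.Affine.equation_iff]
    simp only [fermatCubic, WeierstrassCurve.toAffine]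
    constructor
    · intro h
      linear_combination -h
    · intro h
      linear_combination -h
  rw [Nat.card_congr (pointEquivOption _), Finite.card_option, add_comm]
  congr 1
  rw [Nat.card_eq_fintype_card, Fintype.card_subtype]
  have e1 : (Finset.univ.filter fun p : k × k => (fermatCubic k).toAffine.Nonsingular p.1 p.2) =
      Finset.univ.filter fun p : k × k => p.1 ^ 3 = p.2 ^ 2 + p.2 :=
    Finset.filter_congr fun p _ => hns p
  rw [e1, Finset.card_eq_sum_card_fiberwise (f := Prod.snd) (t := Finset.univ)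
    (fun _ _ => Finset.mem_coe.mpr (Finset.mem_univ _))]
  refine Finset.sum_congr rfl fun y _ => ?_
  refine Finset.card_bij (fun p _ => p.1) ?_ ?_ ?_
  · rintro ⟨a, b⟩ hp
    simp only [Finset.mem_filter, Finset.mem_univ, true_and] at hp ⊢
    obtain ⟨h1, rfl⟩ := hp
    exact h1
  · rintro ⟨a, b⟩ hp ⟨a', b'⟩ hp' h
    simp only [Finset.mem_filter, Finset.mem_univ, true_and] at hp hp' h
    rw [Prod.mk.injEq]
    exact ⟨h, hp.2.trans hp'.2.symm⟩
  · intro a ha
    simp only [Finset.mem_filter, Finset.mem_univ, true_and] at ha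
    exact ⟨(a, y), by simpa using ha, rfl⟩

/-- If cubing is bijective there are `q + 1` points. -/
theorem card_fermatCubic_of_two {k : Type*} [Field k] [Finite k] (h3 : (3 : k) ≠ 0)
    (hq : ¬ 3 ∣ Nat.card k - 1) :
    Nat.card (fermatCubic k).toAffine.Point = Nat.card k + 1 := by
  classical
  have := Fintype.ofFinite k
  rw [Nat.card_eq_fintype_card (α := k)] at hq ⊢
  rw [u4_card_point h3, add_comm]
  congr 1
  have hcop : Nat.Coprime 3 (Fintype.card kˣ) := by
    rw [Fintype.card_units]
    exact (Nat.Prime.coprime_iff_not_dvd Nat.prime_three).mpr hq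
  have hinj : Function.Injective fun x : k => x ^ 3 := by
    intro x y hxy
    have hxy' : x ^ 3 = y ^ 3 := hxy
    by_cases hx : x = 0
    · subst hx
      rw [zero_pow (by norm_num)] at hxy'
      exact (pow_eq_zero_iff (by norm_num) |>.mp hxy'.symm).symm
    · have hy : y ≠ 0 := by
        rintro rfl
        rw [zero_pow (by norm_num)] at hxy'
        exact hx (pow_eq_zero_iff (by norm_num) |>.mp hxy')
      have h1 : (Units.mk0 x hx) ^ 3 = (Units.mk0 y hy) ^ 3 := by
        ext
        simpa using hxy'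
      have h2 := (powCoprime (G := kˣ) (n := 3) (by
        rw [Nat.card_eq_fintype_card]; exact hcop.symm)).injective (a₁ := Units.mk0 x hx)
          (a₂ := Units.mk0 y hy) h1
      simpa using congrArg Units.val h2
  have hbij := Finite.injective_iff_bijective.mp hinj
  have hone : ∀ y : k, (Finset.univ.filter fun x : k => x ^ 3 = y ^ 2 + y).card = 1 := by
    intro y
    obtain ⟨x, hx⟩ := hbij.2 (y ^ 2 + y)
    rw [Finset.card_eq_one]
    refine ⟨x, ?_⟩
    ext z
    simp only [Finset.mem_filter, Finset.mem_univ, true_and, Finset.mem_singleton]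
    constructor
    · intro hz
      exact hinj (hz.trans hx.symm)
    · rintro rfl
      exact hx
  simp [hone]

/-- the number of cube roots by a cubic character -/
theorem u4_cube_count {k : Type*} [Field k] [Fintype k] [DecidableEq k] (χ : MulChar k ℂ)
    (hχ : χ ≠ 1) (hχ3 : χ ^ 3 = 1) (hq : 3 ∣ Fintype.card k - 1) (a : k) :
    ((Finset.univ.filter fun x : k => x ^ 3 = a).card : ℂ) =
      1 + χ a + χ⁻¹ a := by
  have hinv : χ⁻¹ = χ ^ 2 := by
    rw [inv_eq_iff_mul_eq_one, ← pow_succ', hχ3]
  by_cases ha : a = 0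
  · subst ha
    have e : (Finset.univ.filter fun x : k => x ^ 3 = 0) = {0} := by
      ext x
      simp
    rw [e, MulChar.map_zero, MulChar.map_zero]
    simp
  -- the subgroup of cubes
  have hcyc : IsCyclic kˣ := inferInstance
  have hcardu : Fintype.card kˣ = Fintype.card k - 1 := Fintype.card_units k
  have h3dvd : 3 ∣ Nat.card kˣ := by rw [Nat.card_eq_fintype_card, hcardu]; exact hq
  obtain ⟨g, hg⟩ := IsCyclic.exists_generator (α := kˣ)
  have hord : orderOf g = Nat.card kˣ := orderOf_eq_card_of_forall_mem_zpowers hg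
  have hχg : χ (g : k) ≠ 1 := by
    intro h1
    apply hχ
    refine MulChar.ext fun u => ?_
    obtain ⟨n, rfl⟩ := hg u
    rw [MulChar.one_apply_coe]
    have : χ ((g ^ n : kˣ) : k) = ((χ.toUnitHom (g ^ n) : ℂˣ) : ℂ) := (MulChar.coe_toUnitHom χ _).symm
    change χ ((g ^ n : kˣ) : k) = 1
    rw [this, map_zpow]
    have h2 : χ.toUnitHom g = 1 := by
      ext
      rw [MulChar.coe_toUnitHom, h1, Units.val_one]
    rw [h2, one_zpow, Units.val_one]
  have hχ3' : ∀ x : k, x ≠ 0 → χ x ^ 3 = 1 := by
    intro x hx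
    rw [← MulChar.pow_apply' _ (by norm_num), hχ3, MulChar.one_apply (isUnit_iff_ne_zero.mpr hx)]
  have hval : 1 + χ a + χ⁻¹ a = 1 + χ a + χ a ^ 2 := by
    rw [hinv, MulChar.pow_apply' _ (by norm_num)]
  rw [hval]
  -- a primitive cube root of unity in `k`
  obtain ⟨m, hm⟩ := h3dvd
  set ω : kˣ := g ^ m with hω
  have hω3 : ω ^ 3 = 1 := by
    rw [hω, ← pow_mul, mul_comm, ← hm, ← hord, pow_orderOf_eq_one]
  have hm0 : 0 < m := by
    rcases Nat.eq_zero_or_pos m with h | h
    · subst h
      have := Nat.card_pos (α := kˣ)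
      omega
    · exact h
  have hω1 : ω ≠ 1 := by
    intro h1
    have := orderOf_dvd_of_pow_eq_one (x := g) (n := m) h1
    rw [hord, hm] at this
    have := Nat.le_of_dvd hm0 this
    omega
  by_cases hcube : ∃ b : k, b ^ 3 = a
  · obtain ⟨b, hb⟩ := hcube
    have hb0 : b ≠ 0 := by
      rintro rfl
      exact ha (by rw [← hb]; simp)
    have hχa : χ a = 1 := by rw [← hb, map_pow, hχ3' b hb0]
    rw [hχa]
    have e : (Finset.univ.filter fun x : k => x ^ 3 = a) =
        {b, (ω : k) * b, (ω : k) ^ 2 * b} := by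
      ext x
      simp only [Finset.mem_filter, Finset.mem_univ, true_and, Finset.mem_insert,
        Finset.mem_singleton]
      have hωk : (ω : k) ^ 3 = 1 := by rw [← Units.val_pow_eq_pow_val, hω3, Units.val_one]
      have hωk1 : (ω : k) ≠ 1 := fun h => hω1 (Units.ext h)
      have hω2 : (ω : k) ^ 2 + ω + 1 = 0 := by
        have : ((ω : k) - 1) * ((ω : k) ^ 2 + ω + 1) = 0 := by
          linear_combination hωk
        rcases mul_eq_zero.mp this with h | h
        · exact absurd (sub_eq_zero.mp h) hωk1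
        · exact h
      constructor
      · intro hx
        have : (x - b) * ((x - ω * b) * (x - ω ^ 2 * b)) = 0 := by
          have : (x - b) * ((x - ω * b) * (x - ω ^ 2 * b)) = x ^ 3 - b ^ 3 := by
            linear_combination (-(x ^ 2) * b + x * b ^ 2 * ω - x * b ^ 2 * ω + b ^ 2 * x * ω - 0 * x) * 0 + (b * x * (b - x)) * hω2 + (b ^ 2 * x - b ^ 3) * hωk
          rw [this, hx, hb, sub_self]
        rcases mul_eq_zero.mp this with h | h
        · exact Or.inl (sub_eq_zero.mp h)
        · rcases mul_eq_zero.mp h with h | h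
          · exact Or.inr (Or.inl (sub_eq_zero.mp h))
          · exact Or.inr (Or.inr (sub_eq_zero.mp h))
      · rintro (rfl | rfl | rfl)
        · exact hb
        · rw [mul_pow, hωk, one_mul, hb]
        · rw [mul_pow, ← pow_mul, mul_comm 2 3, pow_mul, hωk, one_pow, one_mul, hb]
    rw [e, Finset.card_insert_of_notMem, Finset.card_insert_of_notMem, Finset.card_singleton]
    · norm_num
    · rw [Finset.mem_singleton]
      intro h
      have h1 := mul_right_cancel₀ hb0 h
      rw [pow_two] at h1
      have h2 : ω * 1 = ω * ω := by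
        rw [mul_one]; exact Units.ext (by push_cast; exact h1)
      exact hω1 (mul_left_cancel h2).symm
    · simp only [Finset.mem_insert, Finset.mem_singleton, not_or]
      constructor
      · intro h
        have h1 : (1 : k) * b = ω * b := by rw [one_mul]; exact h
        exact hω1 (Units.ext (mul_right_cancel₀ hb0 h1).symm)
      · intro h
        have h1 : (1 : k) * b = ω ^ 2 * b := by rw [one_mul]; exact h
        have h2 := mul_right_cancel₀ hb0 h1
        have h3 : ω ^ 2 = 1 := Units.ext (by push_cast; exact h2.symm)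
        have h4 : ω ^ 3 = ω := by rw [pow_succ, h3, one_mul]
        rw [hω3] at h4
        exact hω1 h4.symm
  · -- not a cube
    have e : (Finset.univ.filter fun x : k => x ^ 3 = a) = ∅ := by
      rw [Finset.filter_eq_empty_iff]
      intro x _ hx
      exact hcube ⟨x, hx⟩
    rw [e, Finset.card_empty]
    have hχa : χ a ≠ 1 := by
      intro h1
      apply hcube
      obtain ⟨n, hn⟩ := hg (Units.mk0 a ha)
      have hn' : g ^ n = Units.mk0 a ha := hn
      have hxa : χ.toUnitHom (g ^ n) = 1 := by
        rw [hn']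
        ext
        rw [MulChar.coe_toUnitHom, Units.val_mk0, h1, Units.val_one]
      rw [map_zpow] at hxa
      have h3u : χ.toUnitHom g ^ 3 = 1 := by
        ext
        rw [Units.val_pow_eq_pow_val, MulChar.coe_toUnitHom, hχ3' _ g.ne_zero, Units.val_one]
      have hne : χ.toUnitHom g ≠ 1 := by
        intro h
        apply hχg
        rw [← MulChar.coe_toUnitHom, h, Units.val_one]
      have hord3 : orderOf (χ.toUnitHom g) = 3 := orderOf_eq_prime h3u hne
      have hdvd : (3 : ℤ) ∣ n := by
        have := orderOf_dvd_iff_zpow_eq_one.mpr hxa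
        rwa [hord3] at this
      obtain ⟨l, rfl⟩ := hdvd
      refine ⟨((g ^ l : kˣ) : k), ?_⟩
      rw [← Units.val_pow_eq_pow_val, ← zpow_natCast, ← zpow_mul, mul_comm l]
      have := congrArg Units.val hn'
      rw [Units.val_mk0] at this
      exact this
    have h1 : (χ a - 1) * (1 + χ a + χ a ^ 2) = 0 := by
      linear_combination hχ3' a ha
    rcases mul_eq_zero.mp h1 with h | h
    · exact absurd (sub_eq_zero.mp h) hχa
    · rw [h]; simp

/-- The count of points by the Jacobi sum. -/
theorem card_fermatCubic_of_one {k : Type*} [Field k] [Fintype k] (h3 : (3 : k) ≠ 0)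
    (χ : MulChar k ℂ) (hχ : χ ≠ 1) (hχ3 : χ ^ 3 = 1) (hq : 3 ∣ Fintype.card k - 1) :
    (Nat.card (fermatCubic k).toAffine.Point : ℂ) =
      Fintype.card k + 1 + jacobiSum χ χ + jacobiSum χ⁻¹ χ⁻¹ := by
  classical
  have hm1 : ∀ ψ : MulChar k ℂ, ψ ^ 3 = 1 → ψ (-1) = 1 := by
    intro ψ hψ
    have e : ψ (-1) = (ψ ^ 3) (-1) := by
      rw [MulChar.pow_apply' _ (by norm_num), ← map_pow]
      congr 1
      ring
    rw [e, hψ, MulChar.one_apply]
    exact isUnit_one.neg
  have hJ : ∀ ψ : MulChar k ℂ, ψ ^ 3 = 1 → ∑ y : k, ψ (y ^ 2 + y) = jacobiSum ψ ψ := by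
    intro ψ hψ
    rw [jacobiSum, ← Equiv.sum_comp (Equiv.neg k) (fun y => ψ (y ^ 2 + y))]
    refine Finset.sum_congr rfl fun y _ => ?_
    have e : (Equiv.neg k y) ^ 2 + (Equiv.neg k y) = (-1) * (y * (1 - y)) := by
      rw [Equiv.neg_apply]; ring
    rw [e, map_mul, hm1 ψ hψ, one_mul, map_mul]
  rw [u4_card_point h3]
  push_cast
  have hsum : ∑ y : k, ((Finset.univ.filter fun x : k => x ^ 3 = y ^ 2 + y).card : ℂ) =
      Fintype.card k + jacobiSum χ χ + jacobiSum χ⁻¹ χ⁻¹ := by
    rw [← hJ χ hχ3, ← hJ χ⁻¹ (by rw [inv_pow, hχ3, inv_one])]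
    simp_rw [u4_cube_count χ hχ hχ3 hq]
    rw [Finset.sum_add_distrib, Finset.sum_add_distrib]
    simp
  rw [hsum]
  ring

end Pool.Agent.Lib.MP_1a91b9_ntT.S4
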