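import Pool.Agent.Lib.MP_1a91b9_ntT.S4.Char
import Pool.Agent.Lib.MP_1a91b9_ntT.S4.Ideal

/-!
# S4: the cubic Jacobi sum as an element of `ℤ[ω]`
-/

set_option autoImplicit false

namespace Pool.Agent.Lib.MP_1a91b9_ntT.S4

open NumberField Finset

section
variable {K : Type*} [Field K] [NumberField K] [IsCyclotomicExtension {3} ℚ K]
  {k : Type*} [Field k] [Fintype k]

omit [NumberField K] [IsCyclotomicExtension {3} ℚ K] [Fintype k] in
theorem u4_inv_eq (χ : MulChar k (𝓞 K)) (h : χ ^ 3 = 1) : χ⁻¹ = χ ^ 2 := by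
  rw [inv_eq_iff_mul_eq_one, ← pow_succ', h]

omit [NumberField K] [IsCyclotomicExtension {3} ℚ K] in
/-- the conjugate Jacobi sum -/
theorem u4_jac_conj (ω : 𝓞 K) (hω : ω ^ 2 + ω + 1 = 0) (χ : MulChar k (𝓞 K))
    (hv : ∀ x : k, x ≠ 0 → χ x = 1 ∨ χ x = ω ∨ χ x = ω ^ 2)
    {B : Type*} [CommRing B] (σ τ : 𝓞 K →+* B) (hσ : σ ω = τ (-1 - ω)) :
    σ (jacobiSum χ χ) = τ (jacobiSum (χ ^ 2) (χ ^ 2)) := by
  have hω3 : ω ^ 3 = 1 := by linear_combination (ω - 1) * hω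
  have hσ' : σ ω = τ (ω ^ 2) := by
    rw [hσ]
    congr 1
    linear_combination -hω
  have hval : ∀ x : k, σ (χ x) = τ (χ x ^ 2) := by
    intro x
    by_cases hx : x = 0
    · subst hx
      rw [MulChar.map_zero, map_zero, zero_pow two_ne_zero, map_zero]
    · rcases hv x hx with h | h | h
      · rw [h, map_one, one_pow, map_one]
      · rw [h, hσ']
      · rw [h, map_pow, hσ', ← map_pow]
  rw [jacobiSum, jacobiSum, map_sum, map_sum]
  refine sum_congr rfl fun x _ => ?_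
  rw [map_mul, hval, hval, ← map_mul, MulChar.pow_apply' _ two_ne_zero,
    MulChar.pow_apply' _ two_ne_zero]

omit [IsCyclotomicExtension {3} ℚ K] in
/-- the product with the conjugate -/
theorem u4_jac_mul (p : ℕ) [Fact p.Prime] [CharP k p] (χ : MulChar k (𝓞 K)) (h3 : χ ^ 3 = 1)
    (h1 : χ ≠ 1) : jacobiSum χ χ * jacobiSum (χ ^ 2) (χ ^ 2) = (Fintype.card k : 𝓞 K) := by
  set i : 𝓞 K →+* K := algebraMap (𝓞 K) K with hi
  have hinj : Function.Injective i := RingOfIntegers.coe_injective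
  apply hinj
  set χ' := χ.ringHomComp i with hχ'
  have hχ'1 : χ' ≠ 1 := by
    rw [hχ', Ne, MulChar.ringHomComp_eq_one_iff hinj]
    exact h1
  have hχχ : χ' * χ' ≠ 1 := by
    intro h
    apply hχ'1
    have e : χ' ^ 3 = 1 := by rw [hχ', MulChar.ringHomComp_pow, h3, MulChar.ringHomComp_one]
    rw [pow_succ, pow_two, h, one_mul] at e
    exact e
  have hchar : ringChar K ≠ ringChar k := by
    have e1 : ringChar K = 0 := ringChar.eq_zero
    have e2 : ringChar k = p := ringChar.eq k p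
    rw [e1, e2]
    exact ((Fact.out : p.Prime).ne_zero).symm
  have h := jacobiSum_mul_jacobiSum_inv hchar hχ'1 hχ'1 hχχ
  have hinv : χ'⁻¹ = (χ ^ 2).ringHomComp i := by
    rw [← u4_inv_eq χ h3, hχ']
    exact MulChar.ringHomComp_inv _ _
  rw [hinv] at h
  rw [hχ', jacobiSum_ringHomComp, jacobiSum_ringHomComp] at h
  rw [map_mul, map_natCast]
  exact h

omit [IsCyclotomicExtension {3} ℚ K] in
/-- `J + 1` is divisible by `3` -/
theorem u4_jac_mod (ω : 𝓞 K) (hω : ω ^ 2 + ω + 1 = 0) (χ : MulChar k (𝓞 K)) (h3 : χ ^ 3 = 1)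
    (hq : 3 ∣ Fintype.card k - 1) : (3 : 𝓞 K) ∣ jacobiSum χ χ + 1 := by
  have hω3 : ω ^ 3 = 1 := by linear_combination (ω - 1) * hω
  have hω1 : ω ≠ 1 := by
    rintro rfl
    have : (3 : 𝓞 K) = 0 := by linear_combination hω
    exact (by norm_num : (3 : 𝓞 K) ≠ 0) this
  have hprim : IsPrimitiveRoot ω 3 := by
    refine IsPrimitiveRoot.mk_of_lt ω (by norm_num) hω3 ?_
    intro l hl hl3 h
    interval_cases l
    · rw [pow_one] at h
      exact hω1 h
    · apply hω1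
      have e : ω ^ 3 = ω := by rw [pow_succ, h, one_mul]
      rw [← e, hω3]
  obtain ⟨z, _, hz⟩ := exists_jacobiSum_eq_neg_one_add (by norm_num) h3 h3 hq hprim
  rw [hz]
  refine ⟨-(z * ω), ?_⟩
  linear_combination z * hω

/-- A prime of `ℤ[ω]` which contains `J` is the kernel of `ρ`. -/
theorem u4_jac_prime (p : ℕ) [Fact p.Prime] [CharP k p] (hp3 : p ≠ 3) (ω : 𝓞 K)
    (hω : ω ^ 2 + ω + 1 = 0) (ρ : 𝓞 K →+* k) (χ : MulChar k (𝓞 K)) (h3 : χ ^ 3 = 1)
    (h1 : χ ≠ 1) (hv : ∀ x : k, x ≠ 0 → χ x = 1 ∨ χ x = ω ∨ χ x = ω ^ 2) (m : ℕ)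
    (hq : Fintype.card k - 1 = 3 * m) (hχ : ∀ x, ρ (χ x) = x ^ m) (Q : Ideal (𝓞 K)) [Q.IsPrime]
    (hQ : jacobiSum χ χ ∈ Q) : Q = RingHom.ker ρ := by
  have hPprime : (RingHom.ker ρ).IsPrime := RingHom.ker_isPrime ρ
  have hpP : (p : 𝓞 K) ∈ RingHom.ker ρ := by
    rw [RingHom.mem_ker, map_natCast]
    exact CharP.cast_eq_zero k p
  have hpQ : (p : 𝓞 K) ∈ Q := by
    have h2 : (Fintype.card k : 𝓞 K) ∈ Q := by
      rw [← u4_jac_mul p χ h3 h1]
      exact Q.mul_mem_right _ hQ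
    obtain ⟨n, hn, hc⟩ := FiniteField.card k p
    rw [hc, Nat.cast_pow] at h2
    exact Ideal.IsPrime.mem_of_pow_mem inferInstance _ h2
  have hpne0 : p % 3 ≠ 0 := by
    intro h
    have := (Nat.prime_dvd_prime_iff_eq Nat.prime_three (Fact.out : p.Prime)).mp
      (Nat.dvd_of_mod_eq_zero h)
    exact hp3 this.symm
  have hcases : p % 3 = 1 ∨ p % 3 = 2 := by omega
  rcases hcases with hp | hp
  · by_contra hne
    have hdvd := u4_two_primes p Q (RingHom.ker ρ) hpQ hpP hne (jacobiSum χ χ) hQ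
      (by rw [RingHom.mem_ker]; exact u4_jacobi_zero ρ χ m hq hχ)
    obtain ⟨c, hc⟩ := hdvd
    obtain ⟨σ, hσ⟩ := u4_conj ω hω
    have hJ' := u4_jac_conj ω hω χ hv σ.toRingHom (RingHom.id _) (by simpa using hσ)
    apply u4_jacobi_ne_zero ρ χ m hq hχ p hp
    have hJ'' : jacobiSum (χ ^ 2) (χ ^ 2) = (p : 𝓞 K) * σ c := by
      have e : σ (jacobiSum χ χ) = jacobiSum (χ ^ 2) (χ ^ 2) := by simpa using hJ'
      rw [← e, hc, map_mul, map_natCast]
    rw [hJ'', map_mul, map_natCast, CharP.cast_eq_zero, zero_mul]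
  · rw [u4_prime_two p hp ω hω Q hpQ, u4_prime_two p hp ω hω (RingHom.ker ρ) hpP]

end

end Pool.Agent.Lib.MP_1a91b9_ntT.S4
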