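import Pool.Agent.Lib.MP_1a91b9_ntT.Base
import Pool.Agent.Lib.MP_1a91b9_ntT.S4.Jac
import Pool.Agent.Lib.MP_1a91b9_ntT.S4.Count
import Pool.Agent.Lib.MP_1a91b9_ntT.S4.Split
import Pool.Agent.Lib.MP_1a91b9_nt.LocDep

/-!
# S4: the local polynomial at a place of `F` not above `3`, by the character `ψ`
-/

set_option autoImplicit false

namespace Pool.Agent.Lib.MP_1a91b9_ntT.S4

open NumberField IsDedekindDomain Polynomial Pool.Agent.Lib.MP_1a91b9_nt

section
variable {F : Type*} [Field F] [NumberField F] [Algebra K F]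

theorem E_eq (F : Type*) [Field F] : E F = fermatCubic F := rfl

/-- the cube root of unity in `𝓞 K` -/
noncomputable def omO : 𝓞 K := om_spec.toInteger

theorem omO_eq : omO ^ 2 + omO + 1 = 0 := by
  have h1 : IsPrimitiveRoot omO 3 := om_spec.toInteger_isPrimitiveRoot
  have h3 : omO ^ 3 = 1 := h1.pow_eq_one
  have hne : omO - 1 ≠ 0 := by
    intro h
    have : omO ^ 1 = 1 := by rw [pow_one]; exact sub_eq_zero.mp h
    exact h1.pow_ne_one_of_pos_of_lt one_ne_zero (by norm_num) this
  have : (omO - 1) * (omO ^ 2 + omO + 1) = 0 := by linear_combination h3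
  exact (mul_eq_zero.mp this).resolve_left hne

theorem embK_omO : embK (omO : K) = zt := embK_om

theorem conj_zt : (starRingEnd ℂ) zt = -1 - zt := by
  have h1 : zt ^ 2 + zt + 1 = 0 := by
    have h2 := congrArg (fun x : 𝓞 K => embK (x : K)) omO_eq
    simp only [map_add, map_pow, map_one, map_zero, embK_omO] at h2
    exact h2
  have h0 : zt ≠ 0 := by
    intro h
    rw [h] at h1
    norm_num at h1
  have hn : ‖zt‖ = 1 := by
    have h3 : zt ^ 3 = 1 := by linear_combination (zt - 1) * h1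
    exact Complex.norm_eq_one_of_pow_eq_one h3 (by norm_num)
  have h4 : (starRingEnd ℂ) zt * zt = 1 := by
    rw [mul_comm, Complex.mul_conj, Complex.normSq_eq_norm_sq, hn]
    norm_num
  apply mul_right_cancel₀ h0
  rw [h4]
  linear_combination h1

/-- The main local computation. -/
theorem exists_psi (w : HeightOneSpectrum (𝓞 F)) (h3 : (3 : 𝓞 F) ∉ w.asIdeal) :
    ∃ γ : 𝓞 K, (3 : 𝓞 K) ∣ γ - 1 ∧ Ideal.span {γ} = Ideal.relNorm (𝓞 K) w.asIdeal ∧
      embK (γ : K) * (starRingEnd ℂ) (embK (γ : K)) = (nrm w : ℂ) ∧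
      ∀ x : ℂ, aeval x (locPoly (E F) w) =
        (1 - embK (γ : K) * x) * (1 - (starRingEnd ℂ) (embK (γ : K)) * x) := by
  classical
  set k := IsLocalRing.ResidueField (w.adicCompletionIntegers F) with hk
  have hfin : Finite k := finite_residue w
  have := Fintype.ofFinite k
  set ρ : 𝓞 K →+* k := redMap K w with hρ
  have hker : RingHom.ker ρ = w.asIdeal.under (𝓞 K) := redMap_ker w
  have hcard : Fintype.card k = nrm w := by rw [nrm, Nat.card_eq_fintype_card]
  -- `3` is not zero in `k`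
  have h3k : (3 : k) ≠ 0 := by
    intro h
    have h4 : (3 : 𝓞 K) ∈ RingHom.ker ρ := by rw [RingHom.mem_ker, map_ofNat]; exact h
    rw [hker] at h4
    apply h3
    have h5 : algebraMap (𝓞 K) (𝓞 F) 3 ∈ w.asIdeal := h4
    rwa [map_ofNat] at h5
  -- the characteristic
  obtain ⟨p, hpchar⟩ := CharP.exists k
  have hpp : Fact p.Prime := ⟨(CharP.char_is_prime_or_zero k p).resolve_right
    (CharP.char_ne_zero_of_finite k p)⟩
  have hp3 : p ≠ 3 := by
    rintro rfl
    exact h3k (by exact_mod_cast CharP.cast_eq_zero k 3)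
  -- divisibility of `q - 1`
  have hdvd : 3 ∣ nrm w - 1 := by
    refine u4_three_dvd w h3 (algebraMap (𝓞 K) (𝓞 F) omO) ?_
    rw [← map_pow, ← map_add, ← map_one (algebraMap (𝓞 K) (𝓞 F)), ← map_add, omO_eq, map_zero]
  obtain ⟨m, hm⟩ := hdvd
  have hq : Fintype.card k - 1 = 3 * m := by rw [hcard, hm]
  obtain ⟨χ, hχ3, hχ1, hχρ, hχv⟩ := u4_exists_char ρ omO omO_eq h3k m hq
  set J := jacobiSum χ χ with hJ
  set J' := jacobiSum (χ ^ 2) (χ ^ 2) with hJ'
  have hJJ : J * J' = (nrm w : 𝓞 K) := by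
    rw [← hcard]
    exact u4_jac_mul p χ hχ3 hχ1
  have hnpos : 0 < nrm w := by rw [← hcard]; exact Fintype.card_pos
  have hJ0 : J ≠ 0 := by
    intro h
    rw [h, zero_mul] at hJJ
    exact hnpos.ne' (by exact_mod_cast hJJ.symm)
  -- embedding
  set τ : 𝓞 K →+* ℂ := embK.toRingHom.comp (algebraMap (𝓞 K) K) with hτ
  have hτa : ∀ x : 𝓞 K, τ x = embK (x : K) := fun _ => rfl
  have hconj : (starRingEnd ℂ) (τ J) = τ J' := by
    have h := u4_jac_conj omO omO_eq χ hχv ((starRingEnd ℂ).comp τ) τ (by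
      rw [RingHom.comp_apply, hτa, embK_omO, conj_zt, map_sub, map_neg, map_one, hτa, embK_omO])
    exact h
  refine ⟨-J, ?_, ?_, ?_, ?_⟩
  · have h := u4_jac_mod omO omO_eq χ hχ3 (by rw [hq]; exact Dvd.intro _ rfl)
    have e : -J - 1 = -(J + 1) := by ring
    rw [e]
    exact (dvd_neg).mpr h
  · -- the ideal
    rw [Ideal.span_singleton_neg]
    set P := RingHom.ker ρ with hP
    have hPprime : P.IsPrime := RingHom.ker_isPrime ρ
    have hpP : (p : 𝓞 K) ∈ P := by
      rw [hP, RingHom.mem_ker, map_natCast]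
      exact CharP.cast_eq_zero k p
    have hPb : P ≠ ⊥ := by
      intro h
      rw [h] at hpP
      exact hpp.out.ne_zero (by exact_mod_cast (by simpa using hpP : (p : 𝓞 K) = 0))
    have hPmax : P.IsMaximal := Ideal.IsPrime.isMaximal inferInstance hPb
    have hlo : w.asIdeal.LiesOver P := ⟨hker⟩
    have hwmax : w.asIdeal.IsMaximal := w.isMaximal
    have hrel : Ideal.relNorm (𝓞 K) w.asIdeal = P ^ w.asIdeal.inertiaDeg (𝓞 K) :=
      Ideal.relNorm_eq_pow_of_isMaximal w.asIdeal P
    rw [hrel]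
    -- the power of `P`
    have hJspan : Ideal.span {J} ≠ ⊥ := by rw [Ne, Ideal.span_singleton_eq_bot]; exact hJ0
    have hfm : FiniteMultiplicity P (Ideal.span {J}) :=
      FiniteMultiplicity.of_prime_left (Ideal.prime_of_isPrime hPb hPprime) hJspan
    obtain ⟨I, hI, hPI⟩ := hfm.exists_eq_pow_mul_and_not_dvd
    have hItop : I = ⊤ := by
      by_contra hne
      obtain ⟨Q, hQm, hIQ⟩ := Ideal.exists_le_maximal I hne
      have hJQ : J ∈ Q := by
        have h1 : Ideal.span {J} ≤ Q := by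
          rw [hI]
          exact (Ideal.mul_le_right).trans hIQ
        exact h1 (Ideal.mem_span_singleton_self J)
      have hQp : Q.IsPrime := hQm.isPrime
      have := u4_jac_prime p hp3 omO omO_eq ρ χ hχ3 hχ1 hχv m hq hχρ Q hJQ
      apply hPI
      rw [Ideal.dvd_iff_le, hP, ← this]
      exact hIQ
    rw [hItop, Ideal.mul_top] at hI
    rw [hI]
    -- comparison of norms
    have hnJ : Ideal.absNorm (Ideal.span {J}) = nrm w := by
      obtain ⟨σ, hσ⟩ := u4_conj omO omO_eq
      have hσJ : σ J = J' := by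
        have h := u4_jac_conj omO omO_eq χ hχv σ.toRingHom (RingHom.id _) (by simpa using hσ)
        simpa using h
      have e1 : Ideal.absNorm (Ideal.span {J'}) = Ideal.absNorm (Ideal.span {J}) := by
        rw [Ideal.absNorm_span_singleton, Ideal.absNorm_span_singleton, ← hσJ]
        congr 1
        let σ' : 𝓞 K ≃ₐ[ℤ] 𝓞 K := AlgEquiv.ofRingEquiv (f := σ) (fun n => by simp)
        exact Algebra.norm_eq_of_algEquiv σ' J
      have e2 : Ideal.absNorm (Ideal.span {J}) * Ideal.absNorm (Ideal.span {J'}) = nrm w ^ 2 := by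
        rw [← map_mul, Ideal.span_singleton_mul_span_singleton, hJJ]
        exact u4_absNorm_p (nrm w)
      rw [e1, ← pow_two] at e2
      exact (Nat.pow_left_injective (n := 2) (by norm_num)) e2
    have hnP : nrm w = Ideal.absNorm P ^ w.asIdeal.inertiaDeg (𝓞 K) := by
      rw [nrm_eq, Ideal.absNorm_pow_inertiaDeg P w.asIdeal]
    have h1 : Ideal.absNorm P ^ multiplicity P (Ideal.span {J}) =
        Ideal.absNorm P ^ w.asIdeal.inertiaDeg (𝓞 K) := by
      rw [← hnP, ← hnJ]
      conv_rhs => rw [hI]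
      rw [map_pow]
    have hP2 : 2 ≤ Ideal.absNorm P := by
      have h0 : Ideal.absNorm P ≠ 0 := Ideal.absNorm_ne_zero_iff_mem_nonZeroDivisors.mpr
        (mem_nonZeroDivisors_iff_ne_zero.mpr hPb)
      have h1 : Ideal.absNorm P ≠ 1 := by
        rw [Ne, Ideal.absNorm_eq_one_iff]
        exact hPmax.ne_top
      omega
    rw [Nat.pow_right_injective hP2 h1]
  · -- the absolute value
    have e : embK ((-J : 𝓞 K) : K) = -(τ J) := by rw [← hτa, map_neg]
    rw [e, map_neg, hconj, neg_mul_neg, ← map_mul, hJJ, map_natCast]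
  · intro x
    have hmodel : locPoly ((E F).baseChange F) w = _ :=
      locPoly_of_model (F := F) (K := F) (E F) 1 (fermatCubic (𝓞 F)) (by
        rw [one_smul, fermatCubic_map]
        rfl) w (by
        rw [fermatCubic_delta]
        intro hmem
        apply h3
        change algebraMap (𝓞 F) (𝓞 F) (-27) ∈ w.asIdeal at hmem
        rw [map_neg, map_ofNat] at hmem
        have e : (-27 : 𝓞 F) = -(3 ^ 3) := by norm_num
        rw [e] at hmem
        exact w.isPrime.mem_of_pow_mem 3 (by simpa using w.asIdeal.neg_mem hmem))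
    have hbc : (E F).baseChange F = E F := WeierstrassCurve.map_id _
    rw [hbc, fermatCubic_map] at hmodel
    rw [hmodel]
    have hcount := card_fermatCubic_of_one (k := k) h3k (χ.ringHomComp τ) (by
      rw [Ne, MulChar.ringHomComp_eq_one_iff (by
        exact (embK.toRingHom.injective).comp RingOfIntegers.coe_injective)]
      exact hχ1) (by rw [MulChar.ringHomComp_pow, hχ3, MulChar.ringHomComp_one])
        (by rw [hq]; exact Dvd.intro _ rfl)
    have hinv : (χ.ringHomComp τ)⁻¹ = (χ ^ 2).ringHomComp τ := by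
      rw [← u4_inv_eq χ hχ3]
      exact MulChar.ringHomComp_inv _ _
    rw [hinv, jacobiSum_ringHomComp, jacobiSum_ringHomComp, hcard] at hcount
    have e : embK ((-J : 𝓞 K) : K) = -(τ J) := by rw [← hτa, map_neg]
    rw [e, map_neg, hconj]
    have hτJJ : τ J * τ J' = (nrm w : ℂ) := by rw [← map_mul, hJJ, map_natCast]
    simp only [map_add, map_sub, map_one, map_mul, aeval_X, map_pow, map_natCast]
    have hc' : ((Nat.card (fermatCubic k).toAffine.Point : ℕ) : ℂ) =
        (nrm w : ℂ) + 1 + τ J + τ J' := hcount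
    rw [hc']
    linear_combination (-x ^ 2) * hτJJ

end

end Pool.Agent.Lib.MP_1a91b9_ntT.S4
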