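import Pool.Agent.Lib.MP_1a91b9_ntT.S4.Sum

/-!
# S4: the cubic residue character and its Jacobi sum
-/

set_option autoImplicit false

namespace Pool.Agent.Lib.MP_1a91b9_ntT.S4

open Finset

variable {A k : Type*} [CommRing A] [IsDomain A] [Field k] [Fintype k]

/-- The cubic residue character with values in a domain `A` with a cube root of unity `ω`, for a
finite field `k` which is an `A`-algebra by `ρ`. -/
theorem u4_exists_char (ρ : A →+* k) (ω : A) (hω : ω ^ 2 + ω + 1 = 0) (h3 : (3 : k) ≠ 0)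
    (m : ℕ) (hq : Fintype.card k - 1 = 3 * m) :
    ∃ χ : MulChar k A, χ ^ 3 = 1 ∧ χ ≠ 1 ∧ (∀ x, ρ (χ x) = x ^ m) ∧
      ∀ x : k, x ≠ 0 → χ x = 1 ∨ χ x = ω ∨ χ x = ω ^ 2 := by
  classical
  have hω3 : ω ^ 3 = 1 := by linear_combination (ω - 1) * hω
  have hm : 0 < m := by
    rcases Nat.eq_zero_or_pos m with h | h
    · subst h
      have h1 := Fintype.one_lt_card (α := k)
      omega
    · exact h
  set w : k := ρ ω with hw
  have hw2 : w ^ 2 + w + 1 = 0 := by
    rw [hw, ← map_pow, ← map_add, ← map_one ρ, ← map_add, hω, map_zero]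
  have hw3 : w ^ 3 = 1 := by rw [hw, ← map_pow, hω3, map_one]
  have hw1 : w ≠ 1 := by
    intro h
    rw [h] at hw2
    apply h3
    linear_combination hw2
  have hw0 : w ≠ 0 := by
    intro h
    rw [h] at hw3
    simp at hw3
  have hwsq : w ^ 2 ≠ 1 := by
    intro h
    apply hw1
    have : w ^ 3 = w := by rw [pow_succ, h, one_mul]
    rw [← this, hw3]
  have hwne : w ^ 2 ≠ w := by
    intro h
    apply hw1
    have h1 : w * w = w * 1 := by rw [mul_one, ← pow_two]; exact h
    exact mul_left_cancel₀ hw0 h1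
  have hroot : ∀ y : k, y ^ 3 = 1 → y = 1 ∨ y = w ∨ y = w ^ 2 := by
    intro y hy
    have : (y - 1) * ((y - w) * (y - w ^ 2)) = 0 := by
      linear_combination hy + (y - y ^ 2) * hw2 + (y - 1) * hw3
    rcases mul_eq_zero.mp this with h | h
    · exact Or.inl (sub_eq_zero.mp h)
    · rcases mul_eq_zero.mp h with h | h
      · exact Or.inr (Or.inl (sub_eq_zero.mp h))
      · exact Or.inr (Or.inr (sub_eq_zero.mp h))
  have hpow : ∀ x : k, x ≠ 0 → (x ^ m) ^ 3 = 1 := by
    intro x hx
    rw [← pow_mul, mul_comm, ← hq]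
    exact FiniteField.pow_card_sub_one_eq_one x hx
  -- the values
  set f : k → A := fun y => if y = 1 then 1 else if y = w then ω else if y = w ^ 2 then ω ^ 2 else 0
    with hf
  have hf1 : f 1 = 1 := by simp [hf]
  have hfw : f w = ω := by simp [hf, hw1]
  have hfw2 : f (w ^ 2) = ω ^ 2 := by simp [hf, hwsq, hwne]
  have hf0 : f 0 = 0 := by
    have h1 : (0 : k) ≠ w := hw0.symm
    have h2 : (0 : k) ≠ w ^ 2 := (pow_ne_zero 2 hw0).symm
    have h3' : (0 : k) ≠ 1 := zero_ne_one
    simp only [hf]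
    rw [if_neg h3', if_neg h1, if_neg h2]
  have hmul : ∀ a b : k, a ^ 3 = 1 → b ^ 3 = 1 → f (a * b) = f a * f b := by
    intro a b ha hb
    have e4 : ω ^ 4 = ω := by rw [pow_succ, hω3, one_mul]
    have e4' : w ^ 4 = w := by rw [pow_succ, hw3, one_mul]
    rcases hroot a ha with rfl | rfl | rfl <;> rcases hroot b hb with rfl | rfl | rfl
    · rw [mul_one, hf1, mul_one]
    · rw [one_mul, hf1, one_mul]
    · rw [one_mul, hf1, one_mul]
    · rw [mul_one, hf1, mul_one]
    · rw [← pow_two, hfw2, hfw, pow_two]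
    · rw [← pow_succ', hw3, hf1, hfw, hfw2, ← pow_succ', hω3]
    · rw [mul_one, hf1, mul_one]
    · rw [← pow_succ, hw3, hf1, hfw, hfw2, ← pow_succ, hω3]
    · rw [← pow_add, hfw2, ← pow_add, e4', hfw, e4]
  have hmulf : ∀ x y : k, f ((x * y) ^ m) = f (x ^ m) * f (y ^ m) := by
    intro x y
    by_cases hx : x = 0
    · rw [hx, zero_mul, zero_pow hm.ne', hf0, zero_mul]
    by_cases hy : y = 0
    · rw [hy, mul_zero, zero_pow hm.ne', hf0, mul_zero]
    rw [mul_pow]
    exact hmul _ _ (hpow x hx) (hpow y hy)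
  have hnon : ∀ x : k, ¬ IsUnit x → f (x ^ m) = 0 := by
    intro x hx
    have : x = 0 := by
      by_contra h
      exact hx (isUnit_iff_ne_zero.mpr h)
    rw [this, zero_pow hm.ne', hf0]
  have hone1 : f ((1 : k) ^ m) = 1 := by rw [one_pow, hf1]
  refine ⟨MulChar.mk ⟨⟨fun x => f (x ^ m), hone1⟩, hmulf⟩ hnon, ?_, ?_, ?_, ?_⟩
  · refine MulChar.ext fun u => ?_
    rw [MulChar.pow_apply_coe, MulChar.one_apply_coe]
    change f ((u : k) ^ m) ^ 3 = 1
    rcases hroot _ (hpow (u : k) u.ne_zero) with h | h | h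
    · rw [h, hf1, one_pow]
    · rw [h, hfw, hω3]
    · rw [h, hfw2, ← pow_mul, mul_comm, pow_mul, hω3, one_pow]
  · intro hone
    -- an element whose `m`-th power is not one
    have hex : ∃ u : kˣ, u ^ m ≠ 1 := by
      by_contra hcon
      push Not at hcon
      obtain ⟨g, hg⟩ := IsCyclic.exists_generator (α := kˣ)
      have hord : orderOf g = Nat.card kˣ := orderOf_eq_card_of_forall_mem_zpowers hg
      have h1 := orderOf_dvd_of_pow_eq_one (hcon g)
      rw [hord, Nat.card_eq_fintype_card, Fintype.card_units, hq] at h1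
      have := Nat.le_of_dvd hm h1
      omega
    obtain ⟨u, hu⟩ := hex
    have h1 := congrArg (fun χ : MulChar k A => χ (u : k)) hone
    have h2 : f ((u : k) ^ m) = 1 := by
      have h3 : (1 : MulChar k A) (u : k) = 1 := MulChar.one_apply_coe u
      rw [← h3]
      exact h1
    have hne : (u : k) ^ m ≠ 1 := by
      intro h
      apply hu
      ext
      simpa using h
    have hω1 : ω ≠ 1 := by
      intro h
      apply hw1
      rw [hw, h, map_one]
    rcases hroot _ (hpow (u : k) u.ne_zero) with h | h | h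
    · exact hne h
    · rw [h, hfw] at h2
      exact hω1 h2
    · rw [h, hfw2] at h2
      apply hω1
      have : ω ^ 3 = ω := by rw [pow_succ, h2, one_mul]
      rw [← this, hω3]
  · intro x
    change ρ (f (x ^ m)) = x ^ m
    by_cases hx : x = 0
    · rw [hx, zero_pow hm.ne', hf0, map_zero]
    rcases hroot _ (hpow x hx) with h | h | h
    · rw [h, hf1, map_one]
    · rw [h, hfw]
    · rw [h, hfw2, map_pow]
  · intro x hx
    change f (x ^ m) = 1 ∨ f (x ^ m) = ω ∨ f (x ^ m) = ω ^ 2
    rcases hroot _ (hpow x hx) with h | h | h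
    · rw [h, hf1]; exact Or.inl rfl
    · rw [h, hfw]; exact Or.inr (Or.inl rfl)
    · rw [h, hfw2]; exact Or.inr (Or.inr rfl)

omit [IsDomain A] in
/-- the Jacobi sum is in the kernel of `ρ` -/
theorem u4_jacobi_zero (ρ : A →+* k) (χ : MulChar k A) (m : ℕ)
    (hq : Fintype.card k - 1 = 3 * m) (hχ : ∀ x, ρ (χ x) = x ^ m) :
    ρ (jacobiSum χ χ) = 0 := by
  have hm : 0 < m := by
    rcases Nat.eq_zero_or_pos m with h | h
    · subst h
      have h1 := Fintype.one_lt_card (α := k)
      omega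
    · exact h
  rw [jacobiSum, map_sum]
  simp_rw [map_mul, hχ]
  exact u4_sum_low m hm hq

omit [IsDomain A] in
/-- the conjugate Jacobi sum is not in the kernel of `ρ` in characteristic `1` mod `3` -/
theorem u4_jacobi_ne_zero (ρ : A →+* k) (χ : MulChar k A) (m : ℕ)
    (hq : Fintype.card k - 1 = 3 * m) (hχ : ∀ x, ρ (χ x) = x ^ m) (p : ℕ) [Fact p.Prime]
    [CharP k p] (hp : p % 3 = 1) :
    ρ (jacobiSum (χ ^ 2) (χ ^ 2)) ≠ 0 := by
  have hm : 0 < m := by
    rcases Nat.eq_zero_or_pos m with h | h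
    · subst h
      have h1 := Fintype.one_lt_card (α := k)
      omega
    · exact h
  rw [jacobiSum, map_sum]
  simp_rw [map_mul, MulChar.pow_apply' _ two_ne_zero, map_pow, hχ, ← pow_mul, mul_comm m 2]
  exact u4_sum_high_ne p hp m hm hq

end Pool.Agent.Lib.MP_1a91b9_ntT.S4
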