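import Pool.Agent.Lib.MP_1a91b9_ntT.Base

/-!
# S4: ray classes of integral ideals
-/

set_option autoImplicit false

namespace Pool.Agent.Lib.MP_1a91b9_ntT.S4

open NumberField IsDedekindDomain

section
variable {R : Type*} [CommRing R] [IsDedekindDomain R]

/-- `I` and `J` are in the same ray class modulo `m`. -/
def RayEq (m I J : Ideal R) : Prop :=
  ∃ (b : Ideal R) (z z' : R), b ≠ 0 ∧ z ≠ 0 ∧ z' ≠ 0 ∧ I * b = Ideal.span {z} ∧
    J * b = Ideal.span {z'} ∧ z - z' ∈ m * b

/-- `b = z O + c b` iff the cofactor of `z` is coprime to `c`. -/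
theorem coprime_cofactor {I b c : Ideal R} {z : R} (hb : b ≠ 0) (h : I * b = Ideal.span {z}) :
    IsCoprime I c ↔ Ideal.span {z} ⊔ c * b = b := by
  rw [← h, ← Ideal.sup_mul, Ideal.isCoprime_iff_sup_eq]
  constructor
  · intro h1
    rw [h1, Ideal.top_mul]
  · intro h1
    have h2 : (I ⊔ c) * b = 1 * b := by rw [h1, one_mul]
    rw [mul_right_cancel₀ hb h2, Ideal.one_eq_top]

/-- the class of the inverse contains integral ideals coprime to a given ideal -/
theorem exists_inverse_coprime (I c : Ideal R) (hI : I ≠ 0) (hc : c ≠ 0) :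
    ∃ (b : Ideal R) (z : R), b ≠ 0 ∧ z ≠ 0 ∧ I * b = Ideal.span {z} ∧ IsCoprime b c := by
  have hcI : c * I ≤ I := Ideal.mul_le_right
  have hcI0 : c * I ≠ 0 := mul_ne_zero hc hI
  obtain ⟨z, hz⟩ := IsDedekindDomain.exists_sup_span_eq hcI hcI0
  by_cases hz0 : z = 0
  · -- then `c = 1`
    subst hz0
    rw [Ideal.span_singleton_zero, sup_bot_eq] at hz
    have hc1 : c = 1 := by
      have : c * I = 1 * I := by rw [hz, one_mul]
      exact mul_right_cancel₀ hI this
    obtain ⟨y, hyI, hy0⟩ := Submodule.exists_mem_ne_zero_of_ne_bot hI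
    obtain ⟨b, hb⟩ := Ideal.dvd_span_singleton.mpr hyI
    refine ⟨b, y, ?_, hy0, hb.symm, ?_⟩
    · rintro rfl
      rw [mul_zero] at hb
      exact hy0 (Ideal.span_singleton_eq_bot.mp hb)
    · rw [hc1]
      exact isCoprime_one_right
  · have hzI : z ∈ I := by
      have h1 : Ideal.span {z} ≤ I := by rw [← hz]; exact le_sup_right
      exact h1 (Ideal.mem_span_singleton_self z)
    obtain ⟨b, hb⟩ := Ideal.dvd_span_singleton.mpr hzI
    refine ⟨b, z, ?_, hz0, hb.symm, ?_⟩
    · rintro rfl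
      rw [mul_zero] at hb
      exact hz0 (Ideal.span_singleton_eq_bot.mp hb)
    · rw [coprime_cofactor hI (by rw [mul_comm]; exact hb.symm), sup_comm]
      exact hz

omit [IsDedekindDomain R] in
theorem RayEq.ne_zero {m I J : Ideal R} (h : RayEq m I J) : I ≠ 0 := by
  obtain ⟨b, z, z', hb, hz, hz', h1, h2, h3⟩ := h
  rintro rfl
  rw [zero_mul] at h1
  exact hz (Ideal.span_singleton_eq_bot.mp h1.symm)

theorem RayEq.refl (m : Ideal R) {I : Ideal R} (hI : I ≠ 0) : RayEq m I I := by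
  obtain ⟨b, z, hb, hz, h1, _⟩ := exists_inverse_coprime I 1 hI one_ne_zero
  exact ⟨b, z, z, hb, hz, hz, h1, h1, by rw [sub_self]; exact Ideal.zero_mem _⟩

omit [IsDedekindDomain R] in
theorem RayEq.symm {m I J : Ideal R} (h : RayEq m I J) : RayEq m J I := by
  obtain ⟨b, z, z', hb, hz, hz', h1, h2, h3⟩ := h
  refine ⟨b, z', z, hb, hz', hz, h2, h1, ?_⟩
  rw [← neg_sub]
  exact Ideal.neg_mem_iff _ |>.mpr h3

theorem RayEq.trans {m I J L : Ideal R} (h : RayEq m I J) (h' : RayEq m J L) : RayEq m I L := by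
  obtain ⟨b, z, z', hb, hz, hz', h1, h2, h3⟩ := h
  obtain ⟨c, w, w', hc, hw, hw', g1, g2, g3⟩ := h'
  -- `I b = z`, `J b = z'`, `J c = w`, `L c = w'`
  have hJ : J ≠ 0 := by
    rintro rfl
    rw [zero_mul] at g1
    exact hw (Ideal.span_singleton_eq_bot.mp g1.symm)
  have e1 : b * c * J = b * Ideal.span {w} := by rw [← g1]; ring
  have e2 : b * c * J = c * Ideal.span {z'} := by rw [← h2]; ring
  refine ⟨b * c * J, z * w, z' * w', mul_ne_zero (mul_ne_zero hb hc) hJ, mul_ne_zero hz hw,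
    mul_ne_zero hz' hw', ?_, ?_, ?_⟩
  · rw [e1, ← mul_assoc, h1, Ideal.span_singleton_mul_span_singleton]
  · rw [e2, ← mul_assoc, g2, Ideal.span_singleton_mul_span_singleton, mul_comm w' z']
  · have e3 : z * w - z' * w' = (z - z') * w + (w - w') * z' := by ring
    rw [e3]
    refine Ideal.add_mem _ ?_ ?_
    · rw [e1, ← mul_assoc]
      exact Ideal.mul_mem_mul h3 (Ideal.mem_span_singleton_self w)
    · rw [e2, ← mul_assoc]
      exact Ideal.mul_mem_mul g3 (Ideal.mem_span_singleton_self z')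

theorem RayEq.mul {m I J I' J' : Ideal R} (h : RayEq m I J) (h' : RayEq m I' J') :
    RayEq m (I * I') (J * J') := by
  obtain ⟨b, z, z', hb, hz, hz', h1, h2, h3⟩ := h
  obtain ⟨c, w, w', hc, hw, hw', g1, g2, g3⟩ := h'
  have hzb : z' ∈ b := by
    have : z' ∈ J * b := by rw [h2]; exact Ideal.mem_span_singleton_self z'
    exact Ideal.mul_le_right this
  have hwc : w ∈ c := by
    have : w ∈ I' * c := by rw [g1]; exact Ideal.mem_span_singleton_self w
    exact Ideal.mul_le_right this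
  refine ⟨b * c, z * w, z' * w', mul_ne_zero hb hc, mul_ne_zero hz hw, mul_ne_zero hz' hw',
    ?_, ?_, ?_⟩
  · rw [← Ideal.span_singleton_mul_span_singleton, ← h1, ← g1]; ring
  · rw [← Ideal.span_singleton_mul_span_singleton, ← h2, ← g2]; ring
  · have e3 : z * w - z' * w' = (z - z') * w + z' * (w - w') := by ring
    rw [e3]
    refine Ideal.add_mem _ ?_ ?_
    · rw [← mul_assoc]
      exact Ideal.mul_mem_mul h3 hwc
    · have e4 : m * (b * c) = b * (m * c) := by ring
      rw [e4]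
      exact Ideal.mul_mem_mul hzb g3

/-- coprimality to `m` only depends on the ray class -/
theorem RayEq.coprime {m I J : Ideal R} (h : RayEq m I J) (hI : IsCoprime I m) :
    IsCoprime J m := by
  obtain ⟨b, z, z', hb, hz, hz', h1, h2, h3⟩ := h
  rw [coprime_cofactor hb h1] at hI
  rw [coprime_cofactor hb h2]
  refine le_antisymm ?_ ?_
  · refine sup_le ?_ Ideal.mul_le_right
    rw [← h2]
    exact Ideal.mul_le_right
  · conv_lhs => rw [← hI]
    refine sup_le ?_ le_sup_right
    rw [Ideal.span_singleton_le_iff_mem]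
    have a1 : z' ∈ Ideal.span {z'} ⊔ m * b :=
      (le_sup_left : Ideal.span {z'} ≤ _) (Ideal.mem_span_singleton_self z')
    have a2 : z - z' ∈ Ideal.span {z'} ⊔ m * b := (le_sup_right : m * b ≤ _) h3
    have a3 := Ideal.add_mem _ a1 a2
    rwa [add_sub_cancel] at a3

/-- normalisation: the auxiliary ideal can be chosen coprime to any `c` -/
theorem RayEq.normalize {m I J : Ideal R} (h : RayEq m I J) (c : Ideal R) (hc : c ≠ 0) :
    ∃ (b : Ideal R) (z z' : R), b ≠ 0 ∧ z ≠ 0 ∧ z' ≠ 0 ∧ I * b = Ideal.span {z} ∧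
      J * b = Ideal.span {z'} ∧ z - z' ∈ m * b ∧ IsCoprime b c := by
  obtain ⟨b0, z0, z0', hb0, hz0, hz0', h1, h2, h3⟩ := h
  obtain ⟨b1, y, hb1, hy, g1, _⟩ := exists_inverse_coprime b0 1 hb0 one_ne_zero
  obtain ⟨b, y', hb, hy', g2, g3⟩ := exists_inverse_coprime b1 c hb1 hc
  have hs : Ideal.span {y} ≠ (0 : Ideal R) := by
    intro h
    exact hy (Ideal.span_singleton_eq_bot.mp h)
  -- `y b = y' b0`
  have e0 : Ideal.span {y} * b = Ideal.span {y'} * b0 := by rw [← g1, ← g2]; ring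
  -- the new elements
  have key : ∀ (L : Ideal R) (w0 : R), w0 ≠ 0 → L * b0 = Ideal.span {w0} →
      ∃ w, w ≠ 0 ∧ L * b = Ideal.span {w} ∧ y * w = y' * w0 := by
    intro L w0 hw0 hL
    have e1 : Ideal.span {y} * (L * b) = Ideal.span {y' * w0} := by
      calc Ideal.span {y} * (L * b) = L * (Ideal.span {y} * b) := by ring
        _ = Ideal.span {y'} * (L * b0) := by rw [e0]; ring
        _ = Ideal.span {y' * w0} := by rw [hL, Ideal.span_singleton_mul_span_singleton]
    have hdvd : y ∣ y' * w0 := by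
      rw [← Ideal.span_singleton_le_span_singleton, ← e1]
      exact Ideal.mul_le_left
    obtain ⟨w, hw⟩ := hdvd
    refine ⟨w, ?_, ?_, hw.symm⟩
    · rintro rfl
      rw [mul_zero] at hw
      exact mul_ne_zero hy' hw0 hw
    · have e2 : Ideal.span {y} * (L * b) = Ideal.span {y} * Ideal.span {w} := by
        rw [e1, hw, Ideal.span_singleton_mul_span_singleton]
      exact mul_left_cancel₀ hs e2
  obtain ⟨z, hz, hz1, hz2⟩ := key I z0 hz0 h1
  obtain ⟨z', hz', hz1', hz2'⟩ := key J z0' hz0' h2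
  refine ⟨b, z, z', hb, hz, hz', hz1, hz1', ?_, g3⟩
  have e3 : y * (z - z') = y' * (z0 - z0') := by rw [mul_sub, mul_sub, hz2, hz2']
  have e4 : y * (z - z') ∈ Ideal.span {y} * (m * b) := by
    rw [e3]
    have e5 : Ideal.span {y} * (m * b) = Ideal.span {y'} * (m * b0) := by
      calc Ideal.span {y} * (m * b) = m * (Ideal.span {y} * b) := by ring
        _ = Ideal.span {y'} * (m * b0) := by rw [e0]; ring
    rw [e5]
    exact Ideal.mul_mem_mul (Ideal.mem_span_singleton_self y') h3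
  rw [Ideal.mem_span_singleton_mul] at e4
  obtain ⟨x, hx, hx'⟩ := e4
  rw [← mul_left_cancel₀ hy hx']
  exact hx

/-- representatives coprime to a given ideal `c` coprime to `m` -/
theorem exists_rayEq_coprime (m c I : Ideal R) (hm : m ≠ 0) (hc : c ≠ 0) (hI : I ≠ 0)
    (hmc : IsCoprime m c) : ∃ J : Ideal R, RayEq m I J ∧ IsCoprime J c := by
  obtain ⟨b, z, hb, hz, h1, _⟩ := exists_inverse_coprime I 1 hI one_ne_zero
  -- a generator of `b` modulo `c b`
  obtain ⟨β, hβ⟩ := IsDedekindDomain.exists_sup_span_eq (I := c * b) (J := b) Ideal.mul_le_right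
    (mul_ne_zero hc hb)
  have hβb : β ∈ b := by
    have h2 : Ideal.span {β} ≤ b := by rw [← hβ]; exact le_sup_right
    exact h2 (Ideal.mem_span_singleton_self β)
  have hzb : z ∈ b := by
    have : z ∈ I * b := by rw [h1]; exact Ideal.mem_span_singleton_self z
    exact Ideal.mul_le_right this
  obtain ⟨v, hv, u, hu, huv⟩ := Ideal.isCoprime_iff_exists.mp hmc
  -- a nonzero element `z'` of `v β + u z + m c b`
  obtain ⟨y, hy, hy0⟩ := Submodule.exists_mem_ne_zero_of_ne_bot
    (mul_ne_zero (mul_ne_zero hm hc) hb)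
  obtain ⟨z', hz'0, hz'⟩ : ∃ z', z' ≠ 0 ∧ z' - (v * β + u * z) ∈ m * c * b := by
    by_cases h0 : v * β + u * z = 0
    · exact ⟨y, hy0, by rw [h0, sub_zero]; exact hy⟩
    · exact ⟨v * β + u * z, h0, by rw [sub_self]; exact Ideal.zero_mem _⟩
  have hmb : m * c * b ≤ m * b := Ideal.mul_mono_left Ideal.mul_le_left
  have hcb : m * c * b ≤ c * b := Ideal.mul_mono_left Ideal.mul_le_right
  have hd1 : z - z' ∈ m * b := by
    have e : z - z' = v * (z - β) - (z' - (v * β + u * z)) := by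
      have : z = (v + u) * z := by rw [huv, one_mul]
      linear_combination this
    rw [e]
    exact Ideal.sub_mem _ (Ideal.mul_mem_mul hv (Ideal.sub_mem _ hzb hβb)) (hmb hz')
  have hd2 : z' - β ∈ c * b := by
    have e : z' - β = u * (z - β) + (z' - (v * β + u * z)) := by
      have : β = (v + u) * β := by rw [huv, one_mul]
      linear_combination -this
    rw [e]
    exact Ideal.add_mem _ (Ideal.mul_mem_mul hu (Ideal.sub_mem _ hzb hβb)) (hcb hz')
  have hz'b : z' ∈ b := by
    have e : z' = β + (z' - β) := by ring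
    rw [e]
    exact Ideal.add_mem _ hβb (Ideal.mul_le_right hd2)
  obtain ⟨J, hJ⟩ := Ideal.dvd_span_singleton.mpr hz'b
  have hJ' : J * b = Ideal.span {z'} := by rw [hJ, mul_comm]
  refine ⟨J, ⟨b, z, z', hb, hz, hz'0, h1, hJ', hd1⟩, ?_⟩
  rw [coprime_cofactor hb hJ']
  refine le_antisymm ?_ ?_
  · refine sup_le ?_ Ideal.mul_le_right
    rw [Ideal.span_singleton_le_iff_mem]
    exact hz'b
  · conv_lhs => rw [← hβ]
    refine sup_le le_sup_right ?_
    rw [Ideal.span_singleton_le_iff_mem]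
    have a1 : z' ∈ Ideal.span {z'} ⊔ c * b :=
      (le_sup_left : Ideal.span {z'} ≤ _) (Ideal.mem_span_singleton_self z')
    have a2 : z' - β ∈ Ideal.span {z'} ⊔ c * b := (le_sup_right : c * b ≤ _) hd2
    have a3 := Ideal.sub_mem _ a1 a2
    rwa [sub_sub_cancel] at a3

end

end Pool.Agent.Lib.MP_1a91b9_ntT.S4
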