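import Pool.Agent.Lib.MP_1a91b9_ntT.S4.Bad

/-!
# S4: the ray class character which extends the quadratic symbol
-/

set_option autoImplicit false

namespace Pool.Agent.Lib.MP_1a91b9_ntT.S4

open IsDedekindDomain NumberField Pool.Agent.Lib.MP_1a91b9_nt

universe u

section
variable {F F' : Type u} [Field F] [NumberField F] [Field F'] [NumberField F'] [Algebra F F']

omit [NumberField F] in
theorem coprime_not_le {I m : Ideal (𝓞 F)} (h : IsCoprime I m) (v : HeightOneSpectrum (𝓞 F))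
    (hI : I ≤ v.asIdeal) : ¬ m ≤ v.asIdeal := by
  intro hm
  rw [Ideal.isCoprime_iff_sup_eq] at h
  have := sup_le hI hm
  rw [h, top_le_iff] at this
  exact v.isPrime.ne_top this

/-- the ray class character -/
theorem exists_rayChar (hL : Module.finrank F F' = 2) (δ : 𝓞 F) (x : F')
    (hx : x ^ 2 = algebraMap F F' δ) (hn : ¬ ∃ y : F, algebraMap F F' y = x)
    (hrec : Reciprocity δ (splitChar F')) (m : Ideal (𝓞 F)) (hm0 : m ≠ 0) (hm1 : m ≠ 1)
    (hm2 : IsCoprime m (Ideal.span {(2 : 𝓞 F)}))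
    (hmv : ∀ v : HeightOneSpectrum (𝓞 F), OddAt v δ → m ≤ v.asIdeal) :
    ∃ ψ : Ideal (𝓞 F) → ℤ, ψ 1 = 1 ∧ (∀ I J, ψ (I * J) = ψ I * ψ J) ∧
      (∀ I, ¬ IsCoprime I m → ψ I = 0) ∧ (∀ I, IsCoprime I m → ψ I = 1 ∨ ψ I = -1) ∧
      (∀ I J, RayEq m I J → ψ I = ψ J) ∧
      (∀ J, IsCoprime J m → IsCoprime J (Ideal.span {(2 : 𝓞 F)}) →
        ψ J = chiI (splitChar F') J) := by
  have h20 : Ideal.span {(2 : 𝓞 F)} ≠ 0 := by
    intro h
    have := Ideal.span_singleton_eq_bot.mp h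
    norm_num at this
  have hodd2 : ∀ I : Ideal (𝓞 F), IsCoprime I (Ideal.span {(2 : 𝓞 F)}) →
      ∀ v : HeightOneSpectrum (𝓞 F), I ≤ v.asIdeal → (2 : 𝓞 F) ∉ v.asIdeal := by
    intro I hI v hv h
    exact coprime_not_le hI v hv ((Ideal.span_singleton_le_iff_mem _).mpr h)
  have hpm : ∀ J, IsCoprime J m → IsCoprime J (Ideal.span {(2 : 𝓞 F)}) →
      chiI (splitChar F') J = 1 ∨ chiI (splitChar F') J = -1 := by
    intro J hJm hJ2
    refine chiI_pm _ J (ne_zero_of_coprime hm1 hJm) fun v hv => ?_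
    rw [Ideal.dvd_iff_le] at hv
    rw [splitChar_eq_chi hL δ x hx hn v (hodd2 J hJ2 v hv)]
    refine S1.chi_of_not_odd v δ fun ho => ?_
    exact coprime_not_le hJm v hv (hmv v ho)
  refine exists_chit m (Ideal.span {(2 : 𝓞 F)}) hm0 h20 hm2 hm1 (chiI (splitChar F'))
    (chiI_one _) (chiI_mul _) hpm ?_
  intro J J' hJJ hJm hJ2 hJ2'
  obtain ⟨b, z, z', hb, hz, hz', h1, h2, h3, hbc⟩ :=
    hJJ.normalize (Ideal.span {(2 : 𝓞 F)} * m) (mul_ne_zero h20 hm0)
  have hb2 : IsCoprime b (Ideal.span {(2 : 𝓞 F)}) := IsCoprime.of_mul_right_left hbc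
  have hbm : IsCoprime b m := IsCoprime.of_mul_right_right hbc
  have hz2 : IsCoprime (Ideal.span {z}) (Ideal.span {(2 : 𝓞 F)}) := by
    rw [← h1]; exact hJ2.mul_left hb2
  have hz2' : IsCoprime (Ideal.span {z'}) (Ideal.span {(2 : 𝓞 F)}) := by
    rw [← h2]; exact hJ2'.mul_left hb2
  have hzm : IsCoprime (Ideal.span {z}) m := by
    rw [← h1]; exact hJm.mul_left hbm
  have key := hrec z z' ((Ideal.isCoprime_span_singleton_iff _ _).mp hz2)
    ((Ideal.isCoprime_span_singleton_iff _ _).mp hz2') (by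
      intro v hv
      constructor
      · intro h
        exact coprime_not_le hzm v ((Ideal.span_singleton_le_iff_mem _).mpr h) (hmv v hv)
      · exact hmv v hv (Ideal.mul_le_left h3))
  rw [← h1, ← h2, chiI_mul, chiI_mul] at key
  rcases hpm b hbm hb2 with h4 | h4
  · rw [h4, mul_one, mul_one] at key
    exact key
  · rw [h4, mul_neg, mul_neg, mul_one, mul_one, neg_inj] at key
    exact key

end

end Pool.Agent.Lib.MP_1a91b9_ntT.S4
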