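import Pool.Agent.Lib.MP_1a91b9_ntT.S4.SplitOdd
import Pool.Agent.Lib.MP_1a91b9_ntT.S4.Ray
import Pool.Agent.Lib.MP_1a91b9_ntT.S1.Defs

/-!
# S4: the splitting character of `F(√δ)/F` and the quadratic symbol
-/

set_option autoImplicit false

namespace Pool.Agent.Lib.MP_1a91b9_ntT.S4

open IsDedekindDomain NumberField Polynomial IntermediateField Pool.Agent.Lib.MP_1a91b9_nt
open WithZero

universe u

section
variable {F : Type u} [Field F] [NumberField F]

/-- the valuation of an element of exact order `n` -/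
theorem intVal_eq (v : HeightOneSpectrum (𝓞 F)) (r : 𝓞 F) (n : ℕ) (h1 : r ∈ v.asIdeal ^ n)
    (h2 : r ∉ v.asIdeal ^ (n + 1)) : v.intValuation r = exp (-(n : ℤ)) := by
  have hr : r ≠ 0 := by
    rintro rfl
    exact h2 (Ideal.zero_mem _)
  have e := v.intValuation_eq_exp_neg_multiplicity hr
  rw [← v.intValuation_le_pow_iff_mem, e, exp_le_exp] at h1 h2
  rw [e]
  congr 1
  omega

theorem mem_pow_iff (v : HeightOneSpectrum (𝓞 F)) (r : 𝓞 F) (n j : ℕ)
    (h : v.intValuation r = exp (-(n : ℤ))) : r ∈ v.asIdeal ^ j ↔ j ≤ n := by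
  rw [← v.intValuation_le_pow_iff_mem, h, exp_le_exp]
  omega

/-- the order is well defined -/
theorem ord_unique (v : HeightOneSpectrum (𝓞 F)) (r : 𝓞 F) (n n' : ℕ) (h1 : r ∈ v.asIdeal ^ n)
    (h2 : r ∉ v.asIdeal ^ (n + 1)) (h1' : r ∈ v.asIdeal ^ n')
    (h2' : r ∉ v.asIdeal ^ (n' + 1)) : n = n' := by
  have e1 := intVal_eq v r n h1 h2
  have e2 := intVal_eq v r n' h1' h2'
  rw [e1] at e2
  have := exp_inj.mp e2
  omega

theorem exists_ord (v : HeightOneSpectrum (𝓞 F)) (r : 𝓞 F) (hr : r ≠ 0) :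
    ∃ n : ℕ, r ∈ v.asIdeal ^ n ∧ r ∉ v.asIdeal ^ (n + 1) := by
  have e := v.intValuation_eq_exp_neg_multiplicity hr
  refine ⟨multiplicity v.asIdeal (Ideal.span {r}), ?_, ?_⟩
  · rw [← v.intValuation_le_pow_iff_mem, e]
  · rw [← v.intValuation_le_pow_iff_mem, e, exp_le_exp]
    push_cast
    omega

/-- an even order can be removed -/
theorem even_param (v : HeightOneSpectrum (𝓞 F)) (δ : 𝓞 F) (k : ℕ)
    (h1 : δ ∈ v.asIdeal ^ (2 * k)) (h2 : δ ∉ v.asIdeal ^ (2 * k + 1)) :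
    ∃ (b : Ideal (𝓞 F)) (z c d : 𝓞 F), z ≠ 0 ∧ c ∉ v.asIdeal ∧ d ∉ v.asIdeal ∧ c ∈ b ∧
      v.asIdeal ^ k * b = Ideal.span {z} ∧ v.intValuation z = exp (-(k : ℤ)) ∧
      δ * c ^ 2 = z ^ 2 * d := by
  obtain ⟨b, z, hb, hz, hbz, hbv⟩ := exists_inverse_coprime (v.asIdeal ^ k) v.asIdeal
    (pow_ne_zero _ v.ne_bot) v.ne_bot
  have hbv' : ¬ b ≤ v.asIdeal := by
    intro h
    rw [Ideal.isCoprime_iff_sup_eq, sup_eq_right.mpr h] at hbv
    exact v.isPrime.ne_top hbv
  obtain ⟨c, hcb, hcv⟩ := Set.not_subset.mp hbv'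
  have hmem : δ * c ^ 2 ∈ Ideal.span {z ^ 2} := by
    rw [← Ideal.span_singleton_pow, ← hbz, mul_pow, ← pow_mul, mul_comm k 2]
    exact Ideal.mul_mem_mul h1 (Ideal.pow_mem_pow hcb 2)
  obtain ⟨d, hd⟩ := Ideal.mem_span_singleton.mp hmem
  have hz1 : z ∈ v.asIdeal ^ k := by
    have : z ∈ v.asIdeal ^ k * b := by rw [hbz]; exact Ideal.mem_span_singleton_self z
    exact Ideal.mul_le_left this
  have hz2 : z ∉ v.asIdeal ^ (k + 1) := by
    intro h
    apply hbv'
    rw [← Ideal.dvd_iff_le]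
    rw [← Ideal.span_singleton_le_iff_mem, ← hbz, pow_succ, ← Ideal.dvd_iff_le] at h
    exact (mul_dvd_mul_iff_left (pow_ne_zero _ v.ne_bot)).mp h
  have hvz := intVal_eq v z k hz1 hz2
  refine ⟨b, z, c, d, hz, hcv, ?_, hcb, hbz, hvz, hd⟩
  rw [← HeightOneSpectrum.intValuation_eq_one_iff]
  have hvδ := intVal_eq v δ (2 * k) h1 h2
  have hvc : v.intValuation c = 1 := v.intValuation_eq_one_iff.mpr hcv
  have e := congrArg v.intValuation hd
  rw [map_mul, map_mul, map_pow, map_pow, hvc, hvδ, hvz, one_pow, mul_one, ← exp_nsmul] at e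
  have e2 : (2 • (-(k : ℤ))) = -((2 * k : ℕ) : ℤ) := by push_cast; simp
  rw [e2] at e
  have hne : (exp (-((2 * k : ℕ) : ℤ)) : ℤᵐ⁰) ≠ 0 := exp_ne_zero
  have e3 : (exp (-((2 * k : ℕ) : ℤ)) : ℤᵐ⁰) * 1 = exp (-((2 * k : ℕ) : ℤ)) * v.intValuation d := by
    rw [mul_one]; exact e
  exact (mul_left_cancel₀ hne e3).symm

/-- comparison of the symbols -/
theorem isSqAt_iff (v : HeightOneSpectrum (𝓞 F)) (δ : 𝓞 F) (k : ℕ)
    (h1 : δ ∈ v.asIdeal ^ (2 * k)) (h2 : δ ∉ v.asIdeal ^ (2 * k + 1)) (b : Ideal (𝓞 F))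
    (z c d : 𝓞 F) (hz : z ≠ 0) (hc : c ∉ v.asIdeal) (hcb : c ∈ b)
    (hbz : v.asIdeal ^ k * b = Ideal.span {z}) (hvz : v.intValuation z = exp (-(k : ℤ)))
    (he : δ * c ^ 2 = z ^ 2 * d) :
    S1.IsSqAt v δ ↔ IsSquare (Ideal.Quotient.mk v.asIdeal d) := by
  constructor
  · rintro ⟨x, k', g1, g2, g3⟩
    have hkk : k' = k := by
      have := ord_unique v δ _ _ g1 g2 h1 h2
      omega
    subst hkk
    have hx2 : x ^ 2 ∈ v.asIdeal ^ (2 * k') := by
      have := Ideal.add_mem _ (Ideal.pow_le_pow_right (Nat.le_succ _) g3) g1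
      rwa [sub_add_cancel] at this
    have hx : x ∈ v.asIdeal ^ k' := by
      rw [← v.intValuation_le_pow_iff_mem] at hx2 ⊢
      rw [map_pow] at hx2
      by_contra h
      rw [not_le] at h
      have h5 := pow_lt_pow_left₀ h (by simp) (n := 2) (by norm_num)
      rw [← exp_nsmul] at h5
      have e2 : (2 • (-(k' : ℤ))) = -((2 * k' : ℕ) : ℤ) := by push_cast; simp
      rw [e2] at h5
      exact absurd hx2 (not_le.mpr h5)
    have hcx : x * c ∈ Ideal.span {z} := by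
      rw [← hbz]
      exact Ideal.mul_mem_mul hx hcb
    obtain ⟨e, hee⟩ := Ideal.mem_span_singleton.mp hcx
    refine ⟨Ideal.Quotient.mk v.asIdeal e, ?_⟩
    rw [← map_mul, Ideal.Quotient.eq]
    have g4 : z ^ 2 * (d - e * e) = -(c ^ 2 * (x ^ 2 - δ)) := by
      linear_combination (x * c + z * e) * hee - he
    have g5 : z ^ 2 * (d - e * e) ∈ v.asIdeal ^ (2 * k' + 1) := by
      rw [g4]
      exact (Ideal.neg_mem_iff _).mpr (Ideal.mul_mem_left _ _ g3)
    rw [← v.intValuation_le_pow_iff_mem, map_mul, map_pow, hvz, ← exp_nsmul] at g5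
    have e2 : (2 • (-(k' : ℤ))) = -((2 * k' : ℕ) : ℤ) := by push_cast; simp
    have e3 : (exp (-((2 * k' + 1 : ℕ) : ℤ)) : ℤᵐ⁰) = exp (-((2 * k' : ℕ) : ℤ)) * exp (-1) := by
      rw [← exp_add]
      congr 1
      push_cast
      ring
    rw [e2, e3] at g5
    have hpos : (0 : ℤᵐ⁰) < exp (-((2 * k' : ℕ) : ℤ)) := exp_pos
    have g6 := le_of_mul_le_mul_left g5 hpos
    have g7 := (v.intValuation_le_pow_iff_mem (d - e * e) 1).mp (by exact_mod_cast g6)
    rwa [pow_one] at g7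
  · rintro ⟨e', he'⟩
    obtain ⟨e, rfl⟩ := Ideal.Quotient.mk_surjective e'
    rw [← map_mul, Ideal.Quotient.eq] at he'
    have hcop : IsCoprime (Ideal.span {c}) (v.asIdeal ^ (2 * k + 1)) := by
      refine IsCoprime.pow_right ?_
      rw [Ideal.isCoprime_iff_sup_eq]
      refine v.isMaximal.1.2 _ (lt_of_le_of_ne le_sup_right ?_)
      intro h
      apply hc
      rw [h]
      exact (le_sup_left : Ideal.span {c} ≤ _) (Ideal.mem_span_singleton_self c)
    obtain ⟨y, hy, w, hw, hyw⟩ := Ideal.isCoprime_iff_exists.mp hcop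
    obtain ⟨c', rfl⟩ := Ideal.mem_span_singleton.mp hy
    have hzk : z ∈ v.asIdeal ^ k := (mem_pow_iff v z k k hvz).mpr le_rfl
    have hz2 : z ^ 2 ∈ v.asIdeal ^ (2 * k) := by
      rw [mul_comm 2 k, pow_mul]
      exact Ideal.pow_mem_pow hzk 2
    refine ⟨z * e * c', k, h1, h2, ?_⟩
    have g1 : (z * e * c') ^ 2 - δ = -(c' ^ 2 * (z ^ 2 * (d - e * e))) +
        δ * (-w) * (c * c' + 1) := by
      have g2 : c * c' = 1 - w := by linear_combination hyw
      linear_combination (-c' ^ 2) * he + δ * (c * c' + 1) * g2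
    rw [g1]
    refine Ideal.add_mem _ ((Ideal.neg_mem_iff _).mpr (Ideal.mul_mem_left _ _ ?_)) ?_
    · rw [pow_succ]
      exact Ideal.mul_mem_mul hz2 he'
    · refine Ideal.mul_mem_right _ _ (Ideal.mul_mem_left _ _ ?_)
      exact (Ideal.neg_mem_iff _).mpr hw

end

section
variable {F F' : Type u} [Field F] [NumberField F] [Field F'] [NumberField F'] [Algebra F F']

/-- ramified places -/
theorem splitChar_of_odd (hL : Module.finrank F F' = 2) (δ : 𝓞 F) (x : F')
    (hx : x ^ 2 = algebraMap F F' δ) (v : HeightOneSpectrum (𝓞 F)) (ho : OddAt v δ) :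
    splitChar F' v = 0 := by
  obtain ⟨k, h1, h2⟩ := ho
  have hδ0 : δ ≠ 0 := by
    rintro rfl
    exact h2 (Ideal.zero_mem _)
  have hvδ := intVal_eq v δ (2 * k + 1) h1 h2
  have hint : IsIntegral ℤ x := by
    have h1 : IsIntegral ℤ (x ^ 2) := by
      rw [hx, ← IsScalarTower.algebraMap_apply, IsScalarTower.algebraMap_apply (𝓞 F) (𝓞 F') F']
      exact RingOfIntegers.isIntegral_coe _
    exact h1.of_pow two_pos
  let X : 𝓞 F' := ⟨x, hint⟩
  have hX : X ^ 2 = algebraMap (𝓞 F) (𝓞 F') δ := by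
    apply RingOfIntegers.ext
    change x ^ 2 = _
    rw [hx]
    rfl
  have hX0 : X ≠ 0 := by
    intro h
    rw [h, zero_pow two_ne_zero] at hX
    have := (map_eq_zero_iff _ (FaithfulSMul.algebraMap_injective (𝓞 F) (𝓞 F'))).mp hX.symm
    exact hδ0 this
  have hquad : Algebra.IsQuadraticExtension F F' := ⟨hL⟩
  have hgal : IsGalois F F' := inferInstance
  have hvp : v.asIdeal.IsPrime := v.isPrime
  have hvm : v.asIdeal.IsMaximal := v.isMaximal
  have hfund := Ideal.ncard_primesOver_mul_ramificationIdxIn_mul_inertiaDegIn v.asIdeal (𝓞 F')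
    Gal(F'/F)
  have hcard : Nat.card Gal(F'/F) = 2 := by
    rw [IsGalois.card_aut_eq_finrank, hL]
  rw [hcard] at hfund
  have hc : Fintype.card (Over F' v) = (v.asIdeal.primesOver (𝓞 F')).ncard := by
    rw [← card_over_eq, Nat.card_eq_fintype_card]
  have hne : Nonempty (Over F' v) := by
    rw [← Fintype.card_pos_iff, hc]
    by_contra h
    have : (v.asIdeal.primesOver (𝓞 F')).ncard = 0 := by omega
    rw [this] at hfund
    omega
  obtain ⟨w⟩ := hne
  have i1 : w.1.asIdeal.IsPrime := w.1.isPrime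
  have i2 : w.1.asIdeal.LiesOver v.asIdeal := ⟨w.2.symm⟩
  have he : Ideal.ramificationIdxIn v.asIdeal (𝓞 F') = v.asIdeal.ramificationIdx' w.1.asIdeal := by
    rw [Ideal.ramificationIdx'_eq_ramificationIdx]
    · exact Ideal.ramificationIdxIn_eq_ramificationIdx v.asIdeal w.1.asIdeal Gal(F'/F)
    · exact v.ne_bot
  have hval := HeightOneSpectrum.intValuation_liesOver v w.1 δ
  obtain ⟨n, hn1, hn2⟩ := exists_ord w.1 X hX0
  rw [← he, ← hX, map_pow, hvδ, intVal_eq w.1 X n hn1 hn2, ← exp_nsmul, ← exp_nsmul] at hval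
  have hval2 := exp_inj.mp hval
  set e := Ideal.ramificationIdxIn v.asIdeal (𝓞 F')
  have heven : 2 ∣ e := by
    rw [nsmul_eq_mul, nsmul_eq_mul] at hval2
    have h3 : ((e * (2 * k + 1) : ℕ) : ℤ) = ((2 * n : ℕ) : ℤ) := by push_cast; push_cast at hval2; linarith
    have h4 : e * (2 * k + 1) = 2 * n := by exact_mod_cast h3
    have h5 : 2 ∣ e * (2 * k + 1) := ⟨n, h4⟩
    rcases (Nat.prime_two.dvd_mul).mp h5 with h6 | h6
    · exact h6
    · omega
  obtain ⟨e', he'⟩ := heven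
  have hprod : (v.asIdeal.primesOver (𝓞 F')).ncard * (e' * Ideal.inertiaDegIn v.asIdeal (𝓞 F')) = 1 := by
    have : 2 * ((v.asIdeal.primesOver (𝓞 F')).ncard * (e' * Ideal.inertiaDegIn v.asIdeal (𝓞 F'))) =
        2 * 1 := by
      rw [he'] at hfund
      calc 2 * ((v.asIdeal.primesOver (𝓞 F')).ncard * (e' * Ideal.inertiaDegIn v.asIdeal (𝓞 F')))
          = (v.asIdeal.primesOver (𝓞 F')).ncard * (2 * e' * Ideal.inertiaDegIn v.asIdeal (𝓞 F')) := by
            ring
        _ = 2 * 1 := by rw [hfund]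
    exact Nat.eq_of_mul_eq_mul_left two_pos this
  have hg : (v.asIdeal.primesOver (𝓞 F')).ncard = 1 := Nat.eq_one_of_mul_eq_one_right hprod
  have hf : Ideal.inertiaDegIn v.asIdeal (𝓞 F') = 1 :=
    Nat.eq_one_of_mul_eq_one_left (Nat.eq_one_of_mul_eq_one_left hprod)
  rw [splitChar, if_neg (by omega), if_neg]
  intro h
  have h3 := h w
  rw [← Ideal.inertiaDegIn_eq_inertiaDeg v.asIdeal w.1.asIdeal Gal(F'/F), hf] at h3
  omega

/-- the splitting character at the places not above `2` -/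
theorem splitChar_eq_chi (hL : Module.finrank F F' = 2) (δ : 𝓞 F) (x : F')
    (hx : x ^ 2 = algebraMap F F' δ) (hn : ¬ ∃ y : F, algebraMap F F' y = x)
    (v : HeightOneSpectrum (𝓞 F)) (h2v : (2 : 𝓞 F) ∉ v.asIdeal) :
    splitChar F' v = S1.chi v δ := by
  by_cases ho : OddAt v δ
  · rw [splitChar_of_odd hL δ x hx v ho, S1.chi_of_odd v δ ho]
  have hδ0 : δ ≠ 0 := by
    rintro rfl
    apply hn
    refine ⟨0, ?_⟩
    rw [map_zero]
    have h0 : (((0 : 𝓞 F) : F)) = 0 := map_zero _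
    rw [h0, map_zero] at hx
    exact (pow_eq_zero_iff two_ne_zero).mp hx |>.symm
  obtain ⟨n, hn1, hn2⟩ := exists_ord v δ hδ0
  obtain ⟨k, hk⟩ : ∃ k, n = 2 * k := by
    rcases Nat.even_or_odd' n with ⟨k, hk | hk⟩
    · exact ⟨k, hk⟩
    · subst hk
      exact absurd ⟨k, hn1, hn2⟩ ho
  subst hk
  obtain ⟨b, z, c, d, hz, hc, hd, hcb, hbz, hvz, he⟩ := even_param v δ k hn1 hn2
  have hiff := isSqAt_iff v δ k hn1 hn2 b z c d hz hc hcb hbz hvz he
  have hzF : (algebraMap (𝓞 F) F z) ≠ 0 := by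
    intro h
    exact hz (RingOfIntegers.coe_injective (by rw [map_zero]; exact h))
  have hcF : (algebraMap (𝓞 F) F c) ≠ 0 := by
    intro h
    apply hc
    have : c = 0 := RingOfIntegers.coe_injective (by rw [map_zero]; exact h)
    rw [this]
    exact Ideal.zero_mem _
  have heF : algebraMap (𝓞 F) F δ * algebraMap (𝓞 F) F c ^ 2 =
      algebraMap (𝓞 F) F z ^ 2 * algebraMap (𝓞 F) F d := by
    rw [← map_pow, ← map_mul, he, map_mul, map_pow]
  have hdsq : ¬ IsSquare (algebraMap (𝓞 F) F d) := by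
    rintro ⟨y, hy⟩
    apply hn
    -- `δ = (z y / c) ^ 2`
    have h3 : algebraMap (𝓞 F) F δ = (algebraMap (𝓞 F) F z * y / algebraMap (𝓞 F) F c) ^ 2 := by
      rw [div_pow, eq_div_iff (pow_ne_zero 2 hcF), heF, hy]
      ring
    have h4 : x ^ 2 = (algebraMap F F' (algebraMap (𝓞 F) F z * y / algebraMap (𝓞 F) F c)) ^ 2 := by
      rw [hx, ← map_pow, ← h3]
    rcases sq_eq_sq_iff_eq_or_eq_neg.mp h4 with h5 | h5
    · exact ⟨_, h5.symm⟩
    · exact ⟨-(algebraMap (𝓞 F) F z * y / algebraMap (𝓞 F) F c), by rw [map_neg, h5]⟩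
  have hx' : (x * algebraMap F F' (algebraMap (𝓞 F) F c / algebraMap (𝓞 F) F z)) ^ 2 =
      algebraMap F F' (algebraMap (𝓞 F) F d) := by
    rw [mul_pow, hx, ← map_pow, ← map_mul]
    congr 1
    rw [div_pow]
    field_simp
    linear_combination heF
  have h2d : 2 * d ∉ v.asIdeal := by
    intro h
    rcases v.isPrime.mem_or_mem h with h | h
    · exact h2v h
    · exact hd h
  rcases quad_split_at hL d hdsq _ hx' v h2d with ⟨g1, g2, g3⟩ | ⟨g1, g2, g3⟩
  · rw [S1.chi_of_sq v δ ho (hiff.mpr g1), splitChar, if_pos]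
    rw [← Nat.card_eq_fintype_card]
    exact g3
  · rw [S1.chi_of_nsq v δ ho (fun h => g1 (hiff.mp h)), splitChar, if_neg, if_pos]
    · intro w
      exact g2 w.1 w.2
    · rw [← Nat.card_eq_fintype_card]
      have : Nat.card (Over F' v) = 1 := g3
      omega

/-- the splitting character is the quadratic character of `δ` -/
theorem isChi_splitChar (hL : Module.finrank F F' = 2) (δ : 𝓞 F) (x : F')
    (hx : x ^ 2 = algebraMap F F' δ) (hn : ¬ ∃ y : F, algebraMap F F' y = x) :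
    IsChi δ (splitChar F') := by
  have key : ∀ v : HeightOneSpectrum (𝓞 F), (2 : 𝓞 F) ∉ v.asIdeal → ∀ (α : F) (d' : 𝓞 F), α ≠ 0 →
      (d' : F) = δ * α ^ 2 → d' ∉ v.asIdeal →
      (IsSquare (Ideal.Quotient.mk v.asIdeal d') → splitChar F' v = 1) ∧
      (¬ IsSquare (Ideal.Quotient.mk v.asIdeal d') → splitChar F' v = -1) := by
    intro v h2v α d hα hd hdv
    have hdsq : ¬ IsSquare (algebraMap (𝓞 F) F d) := by
      rintro ⟨y, hy⟩
      apply hn
      have h3 : algebraMap (𝓞 F) F δ = (y / α) ^ 2 := by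
        rw [div_pow, eq_div_iff (pow_ne_zero 2 hα), ← hd]
        exact hy.trans (sq y).symm
      have h4 : x ^ 2 = (algebraMap F F' (y / α)) ^ 2 := by
        rw [hx, ← map_pow, ← h3]
      rcases sq_eq_sq_iff_eq_or_eq_neg.mp h4 with h5 | h5
      · exact ⟨_, h5.symm⟩
      · exact ⟨-(y / α), by rw [map_neg, h5]⟩
    have hx' : (x * algebraMap F F' α) ^ 2 = algebraMap F F' (algebraMap (𝓞 F) F d) := by
      rw [mul_pow, hx, ← map_pow, ← map_mul, ← hd]
    have h2d : 2 * d ∉ v.asIdeal := by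
      intro h
      rcases v.isPrime.mem_or_mem h with h | h
      · exact h2v h
      · exact hdv h
    rcases quad_split_at hL d hdsq _ hx' v h2d with ⟨g1, g2, g3⟩ | ⟨g1, g2, g3⟩
    · refine ⟨fun _ => ?_, fun h => absurd g1 h⟩
      rw [splitChar, if_pos]
      rw [← Nat.card_eq_fintype_card]
      exact g3
    · refine ⟨fun h => absurd h g1, fun _ => ?_⟩
      rw [splitChar, if_neg, if_pos]
      · intro w
        exact g2 w.1 w.2
      · rw [← Nat.card_eq_fintype_card]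
        have : Nat.card (Over F' v) = 1 := g3
        omega
  exact ⟨fun v _ ho => splitChar_of_odd hL δ x hx v ho,
    fun v h2 α d hα hd hdv h => (key v h2 α d hα hd hdv).1 h,
    fun v h2 α d hα hd hdv h => (key v h2 α d hα hd hdv).2 h⟩

end

end Pool.Agent.Lib.MP_1a91b9_ntT.S4
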